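import Mathlib

/-!
# Pairs with an approximate common eigenvector
-/

namespace Pool.Agent.Skew

open MeasureTheory Set Filter Topology
open scoped ENNReal

variable {G : Type*} [Group G] [TopologicalSpace G]
    {V : Type*} [NormedAddCommGroup V] [InnerProductSpace ℂ V] [FiniteDimensional ℂ V]

/-- `a` and `b` have an approximate common eigenvector. -/
def Near (ρ : G →* (V →L[ℂ] V)) (ε : ℝ) (a b : G) : Prop :=
  ∃ c : V, 1 / 2 ≤ ‖c‖ ∧ ‖c‖ ≤ 2 ∧ ∃ z z' : ℂ, ‖z‖ = 1 ∧ ‖z'‖ = 1 ∧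
    ‖z • ρ a c - c‖ ≤ ε ∧ ‖z' • ρ b c - c‖ ≤ ε

/-- Witnesses. -/
def NearSet (ρ : G →* (V →L[ℂ] V)) (ε : ℝ) : Set ((G × G) × (V × ℂ × ℂ)) :=
  {p | (1 / 2 ≤ ‖p.2.1‖ ∧ ‖p.2.1‖ ≤ 2) ∧ (‖p.2.2.1‖ = 1 ∧ ‖p.2.2.2‖ = 1) ∧
    ‖p.2.2.1 • ρ p.1.1 p.2.1 - p.2.1‖ ≤ ε ∧ ‖p.2.2.2 • ρ p.1.2 p.2.1 - p.2.1‖ ≤ ε}

theorem near_iff (ρ : G →* (V →L[ℂ] V)) (ε : ℝ) (p : G × G) :
    Near ρ ε p.1 p.2 ↔ p ∈ Prod.fst '' NearSet ρ ε := by
  constructor
  · rintro ⟨c, h1, h2, z, z', h3, h4, h5, h6⟩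
    exact ⟨(p, (c, z, z')), ⟨⟨h1, h2⟩, ⟨h3, h4⟩, h5, h6⟩, rfl⟩
  · rintro ⟨⟨p', c, z, z'⟩, ⟨⟨h1, h2⟩, ⟨h3, h4⟩, h5, h6⟩, rfl⟩
    exact ⟨c, h1, h2, z, z', h3, h4, h5, h6⟩

theorem isClosed_nearSet (ρ : G →* (V →L[ℂ] V)) (hρ : Continuous ρ) (ε : ℝ) :
    IsClosed (NearSet ρ ε) := by
  have c1 : Continuous fun p : (G × G) × (V × ℂ × ℂ) => ρ p.1.1 p.2.1 :=
    (hρ.comp (continuous_fst.comp continuous_fst)).clm_apply (continuous_fst.comp continuous_snd)
  have c2 : Continuous fun p : (G × G) × (V × ℂ × ℂ) => ρ p.1.2 p.2.1 :=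
    (hρ.comp (continuous_snd.comp continuous_fst)).clm_apply (continuous_fst.comp continuous_snd)
  have c3 : Continuous fun p : (G × G) × (V × ℂ × ℂ) => p.2.1 := continuous_fst.comp continuous_snd
  have c4 : Continuous fun p : (G × G) × (V × ℂ × ℂ) => p.2.2.1 :=
    continuous_fst.comp (continuous_snd.comp continuous_snd)
  have c5 : Continuous fun p : (G × G) × (V × ℂ × ℂ) => p.2.2.2 :=
    continuous_snd.comp (continuous_snd.comp continuous_snd)
  unfold NearSet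
  refine IsClosed.and ?_ (IsClosed.and ?_ (IsClosed.and ?_ ?_))
  · exact IsClosed.and (isClosed_le continuous_const c3.norm) (isClosed_le c3.norm continuous_const)
  · exact IsClosed.and (isClosed_eq c4.norm continuous_const) (isClosed_eq c5.norm continuous_const)
  · exact isClosed_le ((c4.smul c1).sub c3).norm continuous_const
  · exact isClosed_le ((c5.smul c2).sub c3).norm continuous_const

theorem isCompact_nearSet [CompactSpace G] (ρ : G →* (V →L[ℂ] V)) (hρ : Continuous ρ) (ε : ℝ) :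
    IsCompact (NearSet ρ ε) := by
  have : ProperSpace V := FiniteDimensional.proper ℂ V
  have hK : IsCompact ((univ : Set (G × G)) ×ˢ (Metric.closedBall (0 : V) 2 ×ˢ
      (Metric.closedBall (0 : ℂ) 1 ×ˢ Metric.closedBall (0 : ℂ) 1))) :=
    isCompact_univ.prod ((isCompact_closedBall _ _).prod
      ((isCompact_closedBall _ _).prod (isCompact_closedBall _ _)))
  apply hK.of_isClosed_subset (isClosed_nearSet ρ hρ ε)
  rintro ⟨p, c, z, z'⟩ ⟨⟨_, h2⟩, ⟨h3, h4⟩, _, _⟩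
  simp only [mem_prod, mem_univ, Metric.mem_closedBall, dist_zero_right, true_and]
  exact ⟨h2, h3.le, h4.le⟩

theorem isClosed_near [CompactSpace G] [T2Space G] (ρ : G →* (V →L[ℂ] V)) (hρ : Continuous ρ)
    (ε : ℝ) : IsClosed {p : G × G | Near ρ ε p.1 p.2} := by
  have : {p : G × G | Near ρ ε p.1 p.2} = Prod.fst '' NearSet ρ ε := by
    ext p
    exact near_iff ρ ε p
  rw [this]
  exact ((isCompact_nearSet ρ hρ ε).image continuous_fst).isClosed

theorem near_mono {ρ : G →* (V →L[ℂ] V)} {ε ε' : ℝ} (h : ε ≤ ε') {a b : G}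
    (hn : Near ρ ε a b) : Near ρ ε' a b := by
  obtain ⟨c, h1, h2, z, z', h3, h4, h5, h6⟩ := hn
  exact ⟨c, h1, h2, z, z', h3, h4, h5.trans h, h6.trans h⟩

/-- A pair with approximate common eigenvectors of all precisions has a common eigenvector. -/
theorem common_of_near [CompactSpace G] (ρ : G →* (V →L[ℂ] V)) (hρ : Continuous ρ) {p : G × G}
    (h : ∀ k : ℕ, Near ρ (1 / ((k : ℝ) + 1)) p.1 p.2) :
    ∃ v : V, v ≠ 0 ∧ (∃ α : ℂ, ρ p.1 v = α • v) ∧ (∃ β : ℂ, ρ p.2 v = β • v) := by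
  set S : ℕ → Set ((G × G) × (V × ℂ × ℂ)) := fun k =>
    NearSet ρ (1 / ((k : ℝ) + 1)) ∩ {q | ‖q.2.2.1 • ρ p.1 q.2.1 - q.2.1‖ ≤ 1 / ((k : ℝ) + 1) ∧
      ‖q.2.2.2 • ρ p.2 q.2.1 - q.2.1‖ ≤ 1 / ((k : ℝ) + 1)} with hS
  have c3 : Continuous fun q : (G × G) × (V × ℂ × ℂ) => q.2.1 := continuous_fst.comp continuous_snd
  have c4 : Continuous fun q : (G × G) × (V × ℂ × ℂ) => q.2.2.1 :=
    continuous_fst.comp (continuous_snd.comp continuous_snd)
  have c5 : Continuous fun q : (G × G) × (V × ℂ × ℂ) => q.2.2.2 :=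
    continuous_snd.comp (continuous_snd.comp continuous_snd)
  have hcl : ∀ k, IsClosed (S k) := by
    intro k
    apply (isClosed_nearSet ρ hρ _).inter
    apply IsClosed.and
    · exact isClosed_le ((c4.smul ((ρ p.1).continuous.comp c3)).sub c3).norm continuous_const
    · exact isClosed_le ((c5.smul ((ρ p.2).continuous.comp c3)).sub c3).norm continuous_const
  have hmono : ∀ k, S (k + 1) ⊆ S k := by
    intro k q hq
    have hle : 1 / (((k + 1 : ℕ) : ℝ) + 1) ≤ 1 / ((k : ℝ) + 1) := by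
      apply one_div_le_one_div_of_le (by positivity)
      push_cast
      linarith
    obtain ⟨⟨h1, h2, h3, h4⟩, h5, h6⟩ := hq
    exact ⟨⟨h1, h2, h3.trans hle, h4.trans hle⟩, h5.trans hle, h6.trans hle⟩
  have hne : ∀ k, (S k).Nonempty := by
    intro k
    obtain ⟨c, h1, h2, z, z', h3, h4, h5, h6⟩ := h k
    exact ⟨(p, c, z, z'), ⟨⟨h1, h2⟩, ⟨h3, h4⟩, h5, h6⟩, h5, h6⟩
  obtain ⟨⟨p', c, z, z'⟩, hq⟩ :=
    IsCompact.nonempty_iInter_of_sequence_nonempty_isCompact_isClosed S hmono hne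
      ((isCompact_nearSet ρ hρ _).inter_right (by
        apply IsClosed.and
        · exact isClosed_le ((c4.smul ((ρ p.1).continuous.comp c3)).sub c3).norm continuous_const
        · exact isClosed_le ((c5.smul ((ρ p.2).continuous.comp c3)).sub c3).norm continuous_const))
      hcl
  rw [mem_iInter] at hq
  have h0 := hq 0
  have hc : c ≠ 0 := by
    rintro rfl
    have := h0.1.1.1
    simp at this
    linarith
  have hz : ‖z‖ = 1 := h0.1.2.1.1
  have hz' : ‖z'‖ = 1 := h0.1.2.1.2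
  have hz0 : z ≠ 0 := by rintro rfl; simp at hz
  have hz0' : z' ≠ 0 := by rintro rfl; simp at hz'
  have hlim : ∀ r : ℝ, (∀ k : ℕ, r ≤ 1 / ((k : ℝ) + 1)) → r ≤ 0 := by
    intro r hr
    by_contra hcon
    rw [not_le] at hcon
    obtain ⟨k, hk⟩ := exists_nat_one_div_lt hcon
    exact absurd (hr k) (not_le.2 hk)
  have e1 : z • ρ p.1 c = c := by
    have := hlim _ fun k => (hq k).2.1
    exact sub_eq_zero.1 (norm_le_zero_iff.1 this)
  have e2 : z' • ρ p.2 c = c := by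
    have := hlim _ fun k => (hq k).2.2
    exact sub_eq_zero.1 (norm_le_zero_iff.1 this)
  refine ⟨c, hc, ⟨z⁻¹, ?_⟩, ⟨z'⁻¹, ?_⟩⟩
  · rw [eq_inv_smul_iff₀ hz0]; exact e1
  · rw [eq_inv_smul_iff₀ hz0']; exact e2

/-- Quantitative form of the hypothesis that pairs with a common eigenvector are negligible. -/
theorem exists_near_measure_lt [CompactSpace G] [T2Space G] [SecondCountableTopology G]
    [MeasurableSpace G] [BorelSpace G] (m : Measure (G × G)) [IsFiniteMeasure m]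
    (ρ : G →* (V →L[ℂ] V)) (hρ : Continuous ρ)
    (hnull : m {p : G × G | ∃ v : V, v ≠ 0 ∧ (∃ α : ℂ, ρ p.1 v = α • v) ∧
      (∃ β : ℂ, ρ p.2 v = β • v)} = 0) {r : ℝ≥0∞} (hr : 0 < r) :
    ∃ ε > 0, m {p : G × G | Near ρ ε p.1 p.2} < r := by
  have hanti : Antitone fun k : ℕ => {p : G × G | Near ρ (1 / ((k : ℝ) + 1)) p.1 p.2} := by
    intro k l hkl p hp
    apply near_mono _ hp
    apply one_div_le_one_div_of_le (by positivity)
    have : (k : ℝ) ≤ l := by exact_mod_cast hkl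
    linarith
  have hlim := tendsto_measure_iInter_atTop (μ := m)
    (s := fun k : ℕ => {p : G × G | Near ρ (1 / ((k : ℝ) + 1)) p.1 p.2})
    (fun k => (isClosed_near ρ hρ _).measurableSet.nullMeasurableSet) hanti
    ⟨0, measure_ne_top _ _⟩
  have h0 : m (⋂ k : ℕ, {p : G × G | Near ρ (1 / ((k : ℝ) + 1)) p.1 p.2}) = 0 := by
    apply measure_mono_null _ hnull
    intro p hp
    rw [mem_iInter] at hp
    exact common_of_near ρ hρ hp
  rw [h0] at hlim
  obtain ⟨k, hk⟩ := ((tendsto_order.1 hlim).2 r hr).exists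
  exact ⟨1 / ((k : ℝ) + 1), by positivity, hk⟩

end Pool.Agent.Skew
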