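import Mathlib

/-!
# Elementary moves preserve the product Haar measure
-/

namespace Pool.Agent.Skew

open MeasureTheory Set

section

variable {G : Type*} [Group G] [TopologicalSpace G] [IsTopologicalGroup G]
    [CompactSpace G] [SecondCountableTopology G]
    [MeasurableSpace G] [BorelSpace G] (ν : Measure G) [ν.IsHaarMeasure] [IsProbabilityMeasure ν]

theorem isMulRightInvariant_of_compact : ν.IsMulRightInvariant := by
  constructor
  intro g
  have : IsProbabilityMeasure (ν.map (· * g)) :=
    Measure.isProbabilityMeasure_map (measurable_mul_const g).aemeasurable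
  exact Measure.isHaarMeasure_eq_of_isProbabilityMeasure _ _

theorem mp_update_right_aux {k : ℕ} (i : Fin (k + 1)) (j : Fin k) :
    MeasurePreserving (fun v : Fin (k + 1) → G => Function.update v i (v i * v (i.succAbove j)))
      (Measure.pi fun _ => ν) (Measure.pi fun _ => ν) := by
  have := isMulRightInvariant_of_compact ν
  have he := measurePreserving_piFinSuccAbove (fun _ : Fin (k + 1) => ν) i
  have hS : MeasurePreserving (fun p : (Fin k → G) × G => (p.1, p.2 * p.1 j))
      ((Measure.pi fun _ : Fin k => ν).prod ν) ((Measure.pi fun _ : Fin k => ν).prod ν) := by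
    refine MeasurePreserving.skew_product (g := fun (y : Fin k → G) (x : G) => x * y j)
      (MeasurePreserving.id _) ?_ ?_
    · exact measurable_snd.mul ((measurable_pi_apply j).comp measurable_fst)
    · exact Filter.Eventually.of_forall fun y => map_mul_right_eq_self ν (y j)
  have hcomp := he.symm.comp ((Measure.measurePreserving_swap (μ := Measure.pi fun _ : Fin k => ν)
    (ν := ν)).comp (hS.comp ((Measure.measurePreserving_swap (μ := ν)
      (ν := Measure.pi fun _ : Fin k => ν)).comp he)))
  convert hcomp using 1
  ext v l
  change _ = i.insertNth (α := fun _ => G) (v i * v (i.succAbove j)) (fun l => v (i.succAbove l)) l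
  refine Fin.succAboveCases i ?_ ?_ l
  · simp
  · intro l'
    simp

theorem mp_update_left_aux {k : ℕ} (i : Fin (k + 1)) (j : Fin k) :
    MeasurePreserving (fun v : Fin (k + 1) → G => Function.update v i (v (i.succAbove j) * v i))
      (Measure.pi fun _ => ν) (Measure.pi fun _ => ν) := by
  have he := measurePreserving_piFinSuccAbove (fun _ : Fin (k + 1) => ν) i
  have hS : MeasurePreserving (fun p : (Fin k → G) × G => (p.1, p.1 j * p.2))
      ((Measure.pi fun _ : Fin k => ν).prod ν) ((Measure.pi fun _ : Fin k => ν).prod ν) := by
    refine MeasurePreserving.skew_product (g := fun (y : Fin k → G) (x : G) => y j * x)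
      (MeasurePreserving.id _) ?_ ?_
    · exact ((measurable_pi_apply j).comp measurable_fst).mul measurable_snd
    · exact Filter.Eventually.of_forall fun y => map_mul_left_eq_self ν (y j)
  have hcomp := he.symm.comp ((Measure.measurePreserving_swap (μ := Measure.pi fun _ : Fin k => ν)
    (ν := ν)).comp (hS.comp ((Measure.measurePreserving_swap (μ := ν)
      (ν := Measure.pi fun _ : Fin k => ν)).comp he)))
  convert hcomp using 1
  ext v l
  change _ = i.insertNth (α := fun _ => G) (v (i.succAbove j) * v i) (fun l => v (i.succAbove l)) l
  refine Fin.succAboveCases i ?_ ?_ l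
  · simp
  · intro l'
    simp

theorem mp_update_right {n : ℕ} {i j : Fin n} (hij : i ≠ j) :
    MeasurePreserving (fun v : Fin n → G => Function.update v i (v i * v j))
      (Measure.pi fun _ => ν) (Measure.pi fun _ => ν) := by
  obtain _ | k := n
  · exact i.elim0
  · obtain ⟨j', rfl⟩ := Fin.exists_succAbove_eq hij.symm
    exact mp_update_right_aux ν i j'

theorem mp_update_left {n : ℕ} {i j : Fin n} (hij : i ≠ j) :
    MeasurePreserving (fun v : Fin n → G => Function.update v i (v j * v i))
      (Measure.pi fun _ => ν) (Measure.pi fun _ => ν) := by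
  obtain _ | k := n
  · exact i.elim0
  · obtain ⟨j', rfl⟩ := Fin.exists_succAbove_eq hij.symm
    exact mp_update_left_aux ν i j'

/-- Two distinct coordinates. -/
theorem mp_pair {n : ℕ} {i j : Fin n} (hij : i ≠ j) :
    MeasurePreserving (fun v : Fin n → G => (v i, v j))
      (Measure.pi fun _ => ν) (ν.prod ν) := by
  obtain _ | k := n
  · exact i.elim0
  · obtain ⟨j', rfl⟩ := Fin.exists_succAbove_eq hij.symm
    have he := measurePreserving_piFinSuccAbove (fun _ : Fin (k + 1) => ν) i
    have h2 : MeasurePreserving (fun y : Fin k → G => y j') (Measure.pi fun _ => ν) ν :=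
      measurePreserving_eval (fun _ : Fin k => ν) j'
    have h3 := ((MeasurePreserving.id ν).prod h2).comp he
    exact h3

end

end Pool.Agent.Skew
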