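import Mathlib

/-!
# Compact group extensions of interval exchange transformations: definitions
-/

namespace Pool.Agent.Skew

open MeasureTheory

/-- Combinatorial data of an interval exchange transformation on `[0,1)`: the lengths of the
`n` exchanged intervals (positive, of total length `1`) and the permutation which gives the order
of the images: the interval number `i` becomes the interval number `perm i`. -/
structure IET (n : ℕ) where
  len : Fin n → ℝ
  len_pos : ∀ i, 0 < len i
  len_sum : ∑ i, len i = 1
  perm : Equiv.Perm (Fin n)

namespace IET

variable {n : ℕ} (E : IET n)

/-- Left endpoint of the `i`-th exchanged interval. -/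
def left (i : Fin n) : ℝ := ∑ j with j < i, E.len j

/-- The `i`-th exchanged interval. -/
def interval (i : Fin n) : Set ℝ := Set.Ico (E.left i) (E.left i + E.len i)

/-- Left endpoint of the image of the `i`-th exchanged interval. -/
def newLeft (i : Fin n) : ℝ := ∑ j with E.perm j < E.perm i, E.len j

/-- The interval exchange transformation, as a map of the real line (it is the identity outside
`[0,1)`). -/
noncomputable def map (x : ℝ) : ℝ :=
  x + ∑ i, (E.interval i).indicator (fun _ => E.newLeft i - E.left i) x

/-- The simple function taking the value `g i` on the `i`-th exchanged interval (and `1` outside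
`[0,1)`). -/
noncomputable def simple {G : Type*} [One G] (g : Fin n → G) (x : ℝ) : G :=
  open Classical in if h : ∃ i, x ∈ E.interval i then g h.choose else 1

/-- The `G`-extension `T_φ (x, y) = (T x, φ x * y)` of the interval exchange transformation by
the simple function with values `g`. -/
noncomputable def skew {G : Type*} [Group G] (g : Fin n → G) (p : ℝ × G) : ℝ × G :=
  (E.map p.1, E.simple g p.1 * p.2)

end IET

/-- Lebesgue measure on `[0,1)`. -/
noncomputable def leb : Measure ℝ := volume.restrict (Set.Ico 0 1)

/-- `f` is weakly mixing for the measure `m` : `f × f` is ergodic for `m × m`. -/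
def WeaklyMixing {Ω : Type*} [MeasurableSpace Ω] (f : Ω → Ω) (m : Measure Ω) : Prop :=
  Ergodic (Prod.map f f) (m.prod m)

end Pool.Agent.Skew
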