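import Mathlib
import Pool.Agent.Helper12.Skew.Defs

/-!
# Basic facts about interval exchange transformations
-/

namespace Pool.Agent.Skew

open MeasureTheory Set

namespace IET

variable {n : ℕ} (E : IET n)

/-- Left endpoints of the intervals placed in the order given by a permutation. -/
def lft (p : Equiv.Perm (Fin n)) (i : Fin n) : ℝ := ∑ j with p j < p i, E.len j

theorem lft_one (i : Fin n) : E.lft 1 i = E.left i := by
  rw [lft, left]
  congr 1

theorem lft_perm (i : Fin n) : E.lft E.perm i = E.newLeft i := rfl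

theorem lft_nonneg (p : Equiv.Perm (Fin n)) (i : Fin n) : 0 ≤ E.lft p i :=
  Finset.sum_nonneg fun j _ => (E.len_pos j).le

theorem lft_add_le_of_lt (p : Equiv.Perm (Fin n)) {i j : Fin n} (h : p i < p j) :
    E.lft p i + E.len i ≤ E.lft p j := by
  classical
  have h1 : E.lft p i + E.len i = ∑ l ∈ insert i ({l | p l < p i} : Finset (Fin n)), E.len l := by
    rw [Finset.sum_insert (by simp)]
    rw [lft, add_comm]
  rw [h1, lft]
  apply Finset.sum_le_sum_of_subset_of_nonneg
  · intro l hl
    simp only [Finset.mem_insert, Finset.mem_filter, Finset.mem_univ, true_and] at hl ⊢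
    rcases hl with rfl | hl
    · exact h
    · exact hl.trans h
  · intro l _ _
    exact (E.len_pos l).le

theorem lft_add_le_one (p : Equiv.Perm (Fin n)) (i : Fin n) : E.lft p i + E.len i ≤ 1 := by
  classical
  have h1 : E.lft p i + E.len i = ∑ l ∈ insert i ({l | p l < p i} : Finset (Fin n)), E.len l := by
    rw [Finset.sum_insert (by simp)]
    rw [lft, add_comm]
  rw [h1, ← E.len_sum]
  apply Finset.sum_le_sum_of_subset_of_nonneg (Finset.subset_univ _)
  intro l _ _
  exact (E.len_pos l).le

/-- Intervals placed in the order given by a permutation. -/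
def ivl (p : Equiv.Perm (Fin n)) (i : Fin n) : Set ℝ := Ico (E.lft p i) (E.lft p i + E.len i)

theorem ivl_one (i : Fin n) : E.ivl 1 i = E.interval i := by
  simp [ivl, interval, lft_one]

theorem ivl_sub (p : Equiv.Perm (Fin n)) (i : Fin n) : E.ivl p i ⊆ Ico 0 1 := by
  intro x hx
  exact ⟨(E.lft_nonneg p i).trans hx.1, hx.2.trans_le (E.lft_add_le_one p i)⟩

theorem ivl_disj (p : Equiv.Perm (Fin n)) {i j : Fin n} {x : ℝ} (hi : x ∈ E.ivl p i)
    (hj : x ∈ E.ivl p j) : i = j := by
  by_contra hne
  have hne' : p i ≠ p j := fun h => hne (p.injective h)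
  rcases lt_or_gt_of_ne hne' with h | h
  · have := E.lft_add_le_of_lt p h
    exact absurd (hi.2.trans_le this) (not_lt.2 hj.1)
  · have := E.lft_add_le_of_lt p h
    exact absurd (hj.2.trans_le this) (not_lt.2 hi.1)

theorem exists_ivl (p : Equiv.Perm (Fin n)) {x : ℝ} (hx : x ∈ Ico (0:ℝ) 1) :
    ∃ i, x ∈ E.ivl p i := by
  classical
  -- partial sums
  let F : ℕ → ℝ := fun m => ∑ j with ((p j : ℕ) < m), E.len j
  have F0 : F 0 = 0 := by simp [F]
  have Fn : F n = 1 := by
    simp only [F]
    rw [← E.len_sum]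
    apply Finset.sum_congr _ fun _ _ => rfl
    ext j; simp
  have hex : ∃ m, x < F m := ⟨n, by rw [Fn]; exact hx.2⟩
  let m := Nat.find hex
  have hm : x < F m := Nat.find_spec hex
  have hm0 : m ≠ 0 := by
    intro h0
    rw [h0, F0] at hm
    exact absurd hm (not_lt.2 hx.1)
  obtain ⟨k, hk⟩ := Nat.exists_eq_succ_of_ne_zero hm0
  have hk' : F k ≤ x := by
    have := Nat.find_min hex (m := k) (by change k < m; omega)
    exact not_lt.1 this
  have hkn : k < n := by
    have : m ≤ n := Nat.find_min' hex (by rw [Fn]; exact hx.2)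
    omega
  let i : Fin n := p.symm ⟨k, hkn⟩
  have hpi : (p i : ℕ) = k := by simp [i]
  refine ⟨i, ?_, ?_⟩
  · have : E.lft p i = F k := by
      simp only [lft, F]
      apply Finset.sum_congr _ fun _ _ => rfl
      ext j
      simp [Fin.lt_def, hpi]
    rw [this]; exact hk'
  · have : E.lft p i + E.len i = F m := by
      rw [hk]
      have h1 : E.lft p i + E.len i
          = ∑ l ∈ insert i ({l | p l < p i} : Finset (Fin n)), E.len l := by
        rw [Finset.sum_insert (by simp)]
        rw [lft, add_comm]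
      rw [h1]
      simp only [F]
      apply Finset.sum_congr _ fun _ _ => rfl
      ext j
      simp only [Finset.mem_insert, Finset.mem_filter, Finset.mem_univ, true_and, Fin.lt_def, hpi]
      constructor
      · rintro (rfl | h)
        · omega
        · omega
      · intro h
        rcases Nat.lt_succ_iff_lt_or_eq.1 h with h | h
        · exact Or.inr h
        · left
          apply p.injective
          ext
          omega
    rw [this]; exact hm

theorem interval_sub (i : Fin n) : E.interval i ⊆ Ico 0 1 := by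
  rw [← ivl_one]; exact E.ivl_sub 1 i

theorem interval_disj {i j : Fin n} {x : ℝ} (hi : x ∈ E.interval i)
    (hj : x ∈ E.interval j) : i = j := by
  rw [← ivl_one] at hi hj; exact E.ivl_disj 1 hi hj

theorem exists_interval {x : ℝ} (hx : x ∈ Ico (0:ℝ) 1) : ∃ i, x ∈ E.interval i := by
  obtain ⟨i, hi⟩ := E.exists_ivl 1 hx
  exact ⟨i, by rwa [ivl_one] at hi⟩

theorem simple_eq {G : Type*} [One G] (g : Fin n → G) {x : ℝ} {i : Fin n}
    (h : x ∈ E.interval i) : E.simple g x = g i := by
  classical
  have hex : ∃ i, x ∈ E.interval i := ⟨i, h⟩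
  rw [simple, dif_pos hex]
  congr 1
  exact E.interval_disj hex.choose_spec h

theorem map_eq {x : ℝ} {i : Fin n} (h : x ∈ E.interval i) :
    E.map x = x + (E.newLeft i - E.left i) := by
  rw [map]
  congr 1
  rw [Finset.sum_eq_single i]
  · simp [h]
  · intro j _ hji
    rw [indicator_of_notMem]
    intro hj
    exact hji (E.interval_disj hj h)
  · simp

theorem map_eq_self {x : ℝ} (h : x ∉ Ico (0:ℝ) 1) : E.map x = x := by
  rw [map]
  rw [Finset.sum_eq_zero, add_zero]
  intro i _
  rw [indicator_of_notMem]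
  intro hi
  exact h (E.interval_sub i hi)

theorem map_mem_ivl {x : ℝ} {i : Fin n} (h : x ∈ E.interval i) :
    E.map x ∈ E.ivl E.perm i := by
  rw [E.map_eq h, ivl, lft_perm]
  rw [interval] at h
  constructor
  · linarith [h.1]
  · linarith [h.2]

theorem map_mem {x : ℝ} (h : x ∈ Ico (0:ℝ) 1) : E.map x ∈ Ico (0:ℝ) 1 := by
  obtain ⟨i, hi⟩ := E.exists_interval h
  exact E.ivl_sub _ i (E.map_mem_ivl hi)

theorem iterate_mem {x : ℝ} (h : x ∈ Ico (0:ℝ) 1) (l : ℕ) : E.map^[l] x ∈ Ico (0:ℝ) 1 := by
  induction l with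
  | zero => exact h
  | succ l ih =>
    rw [Function.iterate_succ_apply']
    exact E.map_mem ih

theorem map_inj {x y : ℝ} (hx : x ∈ Ico (0:ℝ) 1) (hy : y ∈ Ico (0:ℝ) 1)
    (h : E.map x = E.map y) : x = y := by
  obtain ⟨i, hi⟩ := E.exists_interval hx
  obtain ⟨j, hj⟩ := E.exists_interval hy
  have h1 := E.map_mem_ivl hi
  have h2 := E.map_mem_ivl hj
  rw [h] at h1
  have hij : i = j := E.ivl_disj _ h1 h2
  subst hij
  rw [E.map_eq hi, E.map_eq hj] at h
  linarith

theorem iterate_inj {x y : ℝ} (hx : x ∈ Ico (0:ℝ) 1) (hy : y ∈ Ico (0:ℝ) 1) {l : ℕ}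
    (h : E.map^[l] x = E.map^[l] y) : x = y := by
  induction l with
  | zero => exact h
  | succ l ih =>
    rw [Function.iterate_succ_apply', Function.iterate_succ_apply'] at h
    exact ih (E.map_inj (E.iterate_mem hx l) (E.iterate_mem hy l) h)

/-- Two points with the same symbol. -/
def Same (x y : ℝ) : Prop := ∀ k, x ∈ E.interval k ↔ y ∈ E.interval k

theorem Same.map_sub {x y : ℝ} (h : E.Same x y) : E.map x - x = E.map y - y := by
  by_cases hx : ∃ i, x ∈ E.interval i
  · obtain ⟨i, hi⟩ := hx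
    rw [E.map_eq hi, E.map_eq ((h i).1 hi)]
    ring
  · have hx' : x ∉ Ico (0:ℝ) 1 := fun h' => hx (E.exists_interval h')
    have hy' : y ∉ Ico (0:ℝ) 1 := by
      intro h'
      obtain ⟨i, hi⟩ := E.exists_interval h'
      exact hx ⟨i, (h i).2 hi⟩
    rw [E.map_eq_self hx', E.map_eq_self hy']
    ring

theorem Same.simple {G : Type*} [One G] (g : Fin n → G) {x y : ℝ} (h : E.Same x y) :
    E.simple g x = E.simple g y := by
  by_cases hx : ∃ i, x ∈ E.interval i
  · obtain ⟨i, hi⟩ := hx
    rw [E.simple_eq g hi, E.simple_eq g ((h i).1 hi)]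
  · have hy : ¬ ∃ i, y ∈ E.interval i := fun ⟨i, hi⟩ => hx ⟨i, (h i).2 hi⟩
    rw [IET.simple, IET.simple, dif_neg hx, dif_neg hy]

/-- If there is no left endpoint in `(x, y]`, then `x ≤ y` have the same symbol. -/
theorem same_of_no_left {x y : ℝ} (hx : x ∈ Ico (0:ℝ) 1) (hy : y ∈ Ico (0:ℝ) 1) (hxy : x ≤ y)
    (h : ∀ i, E.left i ∉ Ioc x y) : E.Same x y := by
  obtain ⟨i, hi⟩ := E.exists_interval hx
  obtain ⟨j, hj⟩ := E.exists_interval hy
  have hij : i = j := by
    by_contra hne
    have h1 : E.left j ≤ y := hj.1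
    have h2 : ¬ x < E.left j := fun h' => h j ⟨h', h1⟩
    -- then x ≥ left j, and x < ...
    have h3 : x ∈ E.interval j := ⟨not_lt.1 h2, hxy.trans_lt hj.2⟩
    exact hne (E.interval_disj hi h3)
  subst hij
  intro k
  constructor
  · intro hk
    rwa [E.interval_disj hk hi]
  · intro hk
    rwa [E.interval_disj hk hj]

/-- Symbols are locally constant to the right. -/
theorem exists_same_right {x : ℝ} (hx : x ∈ Ico (0:ℝ) 1) :
    ∃ ε > 0, ∀ y, x ≤ y → y < x + ε → E.Same x y := by
  obtain ⟨i, hi⟩ := E.exists_interval hx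
  refine ⟨E.left i + E.len i - x, by linarith [hi.2], ?_⟩
  intro y hxy hy
  have hyi : y ∈ E.interval i := ⟨hi.1.trans hxy, by linarith⟩
  intro k
  constructor
  · intro hk
    rwa [E.interval_disj hk hi]
  · intro hk
    rwa [E.interval_disj hk hyi]

/-- Cocycle. -/
noncomputable def coc {G : Type*} [Group G] (g : Fin n → G) : ℕ → ℝ → G
  | 0, _ => 1
  | l + 1, x => E.simple g (E.map^[l] x) * coc g l x

theorem coc_zero {G : Type*} [Group G] (g : Fin n → G) (x : ℝ) : E.coc g 0 x = 1 := rfl

theorem coc_succ {G : Type*} [Group G] (g : Fin n → G) (l : ℕ) (x : ℝ) :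
    E.coc g (l + 1) x = E.simple g (E.map^[l] x) * E.coc g l x := rfl

theorem coc_add {G : Type*} [Group G] (g : Fin n → G) (l m : ℕ) (x : ℝ) :
    E.coc g (l + m) x = E.coc g m (E.map^[l] x) * E.coc g l x := by
  induction m with
  | zero => simp [coc]
  | succ m ih =>
    rw [← add_assoc, coc_succ, ih, coc_succ, ← Function.iterate_add_apply, add_comm m l, mul_assoc]

theorem flat_iterate {x y : ℝ} {m : ℕ} (h : ∀ l < m, E.Same (E.map^[l] x) (E.map^[l] y))
    {l : ℕ} (hl : l ≤ m) : E.map^[l] x - x = E.map^[l] y - y := by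
  induction l with
  | zero => simp
  | succ l ih =>
    have h1 := ih (by omega)
    have h2 := (h l (by omega)).map_sub
    rw [Function.iterate_succ_apply', Function.iterate_succ_apply']
    linarith

theorem flat_coc {G : Type*} [Group G] (g : Fin n → G) {x y : ℝ} {m : ℕ}
    (h : ∀ l < m, E.Same (E.map^[l] x) (E.map^[l] y))
    {l : ℕ} (hl : l ≤ m) : E.coc g l x = E.coc g l y := by
  induction l with
  | zero => simp [coc]
  | succ l ih =>
    rw [coc_succ, coc_succ, ih (by omega), (h l (by omega)).simple]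

end IET

end Pool.Agent.Skew
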