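import Mathlib
import Pool.Agent.Helper12.Skew.Basic

/-!
# Measure theoretic facts about interval exchange transformations
-/

namespace Pool.Agent.Skew

open MeasureTheory Set

instance : IsProbabilityMeasure leb := by
  constructor
  simp [leb]

namespace IET

variable {n : ℕ} (E : IET n)

theorem measurable_map : Measurable E.map := by
  unfold IET.map
  apply Measurable.add measurable_id
  apply Finset.measurable_sum
  intro i _
  exact Measurable.indicator measurable_const measurableSet_Ico

theorem measurableSet_interval (i : Fin n) : MeasurableSet (E.interval i) := measurableSet_Ico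

theorem measurableSet_ivl (p : Equiv.Perm (Fin n)) (i : Fin n) : MeasurableSet (E.ivl p i) :=
  measurableSet_Ico

theorem measurable_simple {G : Type*} [One G] [MeasurableSpace G] (g : Fin n → G) :
    Measurable (E.simple g) := by
  classical
  intro s _
  have : E.simple g ⁻¹' s = (⋃ i ∈ {i | g i ∈ s}, E.interval i) ∪
      (if (1 : G) ∈ s then (Ico (0:ℝ) 1)ᶜ else ∅) := by
    ext x
    simp only [mem_preimage, mem_union, mem_iUnion, mem_ofPred_eq]
    by_cases hx : x ∈ Ico (0:ℝ) 1
    · obtain ⟨i, hi⟩ := E.exists_interval hx
      rw [E.simple_eq g hi]
      constructor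
      · intro h
        exact Or.inl ⟨i, h, hi⟩
      · rintro (⟨j, hj, hxj⟩ | h)
        · rwa [E.interval_disj hi hxj]
        · exfalso
          split_ifs at h with h1
          · exact h hx
          · exact h
    · have h0 : ¬ ∃ i, x ∈ E.interval i := fun ⟨i, hi⟩ => hx (E.interval_sub i hi)
      rw [IET.simple, dif_neg h0]
      constructor
      · intro h
        right
        rw [if_pos h]
        exact hx
      · rintro (⟨j, hj, hxj⟩ | h)
        · exact absurd ⟨j, hxj⟩ h0
        · split_ifs at h with h1
          · exact h1
          · exact absurd h (by simp)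
  rw [this]
  apply MeasurableSet.union
  · exact MeasurableSet.biUnion (Set.to_countable _) fun i _ => E.measurableSet_interval i
  · split_ifs
    · exact measurableSet_Ico.compl
    · exact MeasurableSet.empty

theorem leb_eq_sum (p : Equiv.Perm (Fin n)) {s : Set ℝ} (hs : MeasurableSet s) :
    leb s = ∑ i, volume (s ∩ E.ivl p i) := by
  rw [leb, Measure.restrict_apply hs]
  have : s ∩ Ico 0 1 = ⋃ i, s ∩ E.ivl p i := by
    ext x
    simp only [mem_inter_iff, mem_iUnion]
    constructor
    · rintro ⟨h1, h2⟩
      obtain ⟨i, hi⟩ := E.exists_ivl p h2
      exact ⟨i, h1, hi⟩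
    · rintro ⟨i, h1, h2⟩
      exact ⟨h1, E.ivl_sub p i h2⟩
  rw [this, measure_iUnion]
  · simp
  · intro i j hij
    apply Disjoint.mono inter_subset_right inter_subset_right
    rw [Set.disjoint_left]
    intro x hi hj
    exact hij (E.ivl_disj p hi hj)
  · intro i
    exact hs.inter (E.measurableSet_ivl p i)

theorem measurePreserving_map : MeasurePreserving E.map leb leb := by
  refine ⟨E.measurable_map, ?_⟩
  ext s hs
  rw [Measure.map_apply E.measurable_map hs, E.leb_eq_sum 1 (E.measurable_map hs),
    E.leb_eq_sum E.perm hs]
  apply Finset.sum_congr rfl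
  intro i _
  have : E.map ⁻¹' s ∩ E.ivl 1 i =
      (fun x => x + (E.newLeft i - E.left i)) ⁻¹' (s ∩ E.ivl E.perm i) := by
    ext x
    simp only [mem_inter_iff, mem_preimage, ivl_one]
    constructor
    · rintro ⟨h1, h2⟩
      have h3 := E.map_mem_ivl h2
      rw [E.map_eq h2] at h1 h3
      exact ⟨h1, h3⟩
    · rintro ⟨h1, h2⟩
      have h3 : x ∈ E.interval i := by
        rw [ivl, lft_perm] at h2
        rw [interval]
        constructor
        · linarith [h2.1]
        · linarith [h2.2]
      refine ⟨?_, h3⟩
      rwa [E.map_eq h3]
  rw [this, measure_preimage_add_right]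

theorem volume_interval (i : Fin n) : volume (E.interval i) = ENNReal.ofReal (E.len i) := by
  simp [interval]

include E in
theorem n_pos : 0 < n := by
  rcases Nat.eq_zero_or_pos n with h | h
  · subst h
    have := E.len_sum
    simp at this
  · exact h

theorem exists_symbol : ∃ k : ℝ → Fin n, Measurable k ∧
    (∀ x ∈ Set.Ico (0:ℝ) 1, x ∈ E.interval (k x)) := by
  classical
  let i0 : Fin n := ⟨0, E.n_pos⟩
  refine ⟨fun x => if h : ∃ i, x ∈ E.interval i then h.choose else i0, ?_, ?_⟩
  · apply measurable_to_countable'
    intro i
    have : (fun x => if h : ∃ i, x ∈ E.interval i then h.choose else i0) ⁻¹' {i} =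
        E.interval i ∪ (if i0 = i then (Ico (0:ℝ) 1)ᶜ else ∅) := by
      ext x
      simp only [mem_preimage, mem_singleton_iff, mem_union]
      by_cases hx : ∃ i, x ∈ E.interval i
      · rw [dif_pos hx]
        constructor
        · intro h
          left
          rw [← h]
          exact hx.choose_spec
        · rintro (h | h)
          · exact E.interval_disj hx.choose_spec h
          · exfalso
            obtain ⟨j, hj⟩ := hx
            split_ifs at h with h1
            · exact h (E.interval_sub j hj)
            · exact h
      · rw [dif_neg hx]
        have hx' : x ∉ Ico (0:ℝ) 1 := fun h => hx (E.exists_interval h)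
        constructor
        · intro h
          right
          rw [if_pos h]
          exact hx'
        · rintro (h | h)
          · exact absurd ⟨i, h⟩ hx
          · split_ifs at h with h1
            · exact h1
            · exact absurd h (by simp)
    rw [this]
    apply (E.measurableSet_interval i).union
    split_ifs
    · exact measurableSet_Ico.compl
    · exact MeasurableSet.empty
  · intro x hx
    have hex := E.exists_interval hx
    simp only [dif_pos hex]
    exact hex.choose_spec

end IET

end Pool.Agent.Skew
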