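import Mathlib
import Pool.Agent.Helper12.Skew.Meas

/-!
# Bounded hitting times for ergodic interval exchange transformations
-/

namespace Pool.Agent.Skew

open MeasureTheory Set

namespace IET

variable {n : ℕ} (E : IET n)

/-- Marked points. -/
def marked (α β : ℝ) : Set ℝ := Set.range E.left ∪ {α, β}

theorem marked_finite (α β : ℝ) : (E.marked α β).Finite :=
  (Set.finite_range _).union (by simp)

/-- Division points of `[α, β)`. -/
def divPts (α β : ℝ) : Set ℝ :=
  {y | y ∈ Ico α β ∧ ∃ p ∈ E.marked α β, ∃ l, E.map^[l] y = p ∧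
    ∀ l', 0 < l' → l' < l → E.map^[l'] y ∉ Ico α β}

theorem divPts_finite {α β : ℝ} (hJ : Ico α β ⊆ Ico 0 1) : (E.divPts α β).Finite := by
  have h1 : E.divPts α β ⊆ E.marked α β ∪ ⋃ p ∈ E.marked α β,
      {y | y ∈ Ico α β ∧ ∃ l, 0 < l ∧ E.map^[l] y = p ∧
        ∀ l', 0 < l' → l' < l → E.map^[l'] y ∉ Ico α β} := by
    rintro y ⟨hy, p, hp, l, hl, hl'⟩
    rcases Nat.eq_zero_or_pos l with h0 | h0
    · subst h0
      left
      simp only [Function.iterate_zero, id_eq] at hl
      rwa [hl]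
    · right
      simp only [mem_iUnion]
      exact ⟨p, hp, hy, l, h0, hl, hl'⟩
  refine Set.Finite.subset ?_ h1
  apply (E.marked_finite α β).union
  apply (E.marked_finite α β).biUnion
  intro p _
  apply Set.Subsingleton.finite
  have key : ∀ y y' : ℝ, ∀ l l' : ℕ, y ∈ Ico α β → y' ∈ Ico α β → 0 < l → 0 < l' → l ≤ l' →
      E.map^[l] y = p → E.map^[l'] y' = p →
      (∀ k, 0 < k → k < l' → E.map^[k] y' ∉ Ico α β) → y = y' := by
    intro y y' l l' hy hy' hl hl' hll h1 h2 h3
    obtain ⟨k, rfl⟩ := Nat.exists_eq_add_of_le hll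
    have h4 : E.map^[l] y = E.map^[l] (E.map^[k] y') := by
      rw [← Function.iterate_add_apply, h1, h2]
    have h5 : y = E.map^[k] y' := E.iterate_inj (hJ hy) (E.iterate_mem (hJ hy') k) h4
    rcases Nat.eq_zero_or_pos k with h0 | h0
    · subst h0
      simpa using h5
    · exact absurd (h5 ▸ hy) (h3 k h0 (by omega))
  rintro y ⟨hy, l, hl, h1, h2⟩ y' ⟨hy', l', hl', h1', h2'⟩
  rcases le_total l l' with h | h
  · exact key y y' l l' hy hy' hl hl' h h1 h1' h2'
  · exact (key y' y l' l hy' hy hl' hl h h1' h1 h2).symm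

theorem flow {α β : ℝ} (hJ : Ico α β ⊆ Ico 0 1) {d x : ℝ} (hd : d ∈ Ico α β)
    (hx : x ∈ Ico α β) (hno : ∀ y ∈ E.divPts α β, d < y → ¬ y ≤ x) (l : ℕ) :
    (∀ l', 0 < l' → l' < l → E.map^[l'] d ∉ Ico α β) →
    ∀ y, d ≤ y → y ≤ x → E.map^[l] y = E.map^[l] d + (y - d) ∧
      E.Same (E.map^[l] d) (E.map^[l] y) ∧ (E.map^[l] y ∈ Ico α β ↔ E.map^[l] d ∈ Ico α β) := by
  induction l using Nat.strong_induction_on with
  | _ l ih =>
    intro hl
    have hyJ : ∀ y, d ≤ y → y ≤ x → y ∈ Ico α β := fun y h1 h2 =>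
      ⟨hd.1.trans h1, h2.trans_lt hx.2⟩
    -- translation
    have htr : ∀ y, d ≤ y → y ≤ x → E.map^[l] y = E.map^[l] d + (y - d) := by
      intro y h1 h2
      rcases l with _ | k
      · simp
      · obtain ⟨h3, h4, -⟩ := ih k (by omega) (fun l' a b => hl l' a (by omega)) y h1 h2
        rw [Function.iterate_succ_apply', Function.iterate_succ_apply']
        have := h4.map_sub
        linarith
    -- no marked points
    have hmk : ∀ y, d ≤ y → y ≤ x → ∀ p ∈ E.marked α β, E.map^[l] d < p → ¬ p ≤ E.map^[l] y := by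
      intro y h1 h2 p hp h3 h4
      rw [htr y h1 h2] at h4
      have h5 : d ≤ d + (p - E.map^[l] d) := by linarith
      have h6 : d + (p - E.map^[l] d) ≤ x := by linarith
      have h7 : E.map^[l] (d + (p - E.map^[l] d)) = p := by
        rw [htr _ h5 h6]; ring
      apply hno (d + (p - E.map^[l] d)) _ (by linarith) h6
      refine ⟨hyJ _ h5 h6, p, hp, l, h7, ?_⟩
      intro l' a b
      obtain ⟨-, -, h8⟩ := ih l' b (fun k a' b' => hl k a' (by omega)) _ h5 h6
      rw [h8]
      exact hl l' a b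
    intro y h1 h2
    refine ⟨htr y h1 h2, ?_, ?_⟩
    · apply E.same_of_no_left (E.iterate_mem (hJ hd) l) (E.iterate_mem (hJ (hyJ y h1 h2)) l)
      · rw [htr y h1 h2]; linarith
      · intro i hi
        exact hmk y h1 h2 _ (Or.inl ⟨i, rfl⟩) hi.1 hi.2
    · have h3 : E.map^[l] d ≤ E.map^[l] y := by rw [htr y h1 h2]; linarith
      constructor
      · rintro ⟨h4, h5⟩
        refine ⟨?_, h3.trans_lt h5⟩
        by_contra hcon
        exact hmk y h1 h2 α (Or.inr (by simp)) (not_le.1 hcon) h4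
      · rintro ⟨h4, h5⟩
        refine ⟨h4.trans h3, ?_⟩
        by_contra hcon
        exact hmk y h1 h2 β (Or.inr (by simp)) h5 (not_lt.1 hcon)

theorem exists_return {α β : ℝ} (hJ : Ico α β ⊆ Ico 0 1) {x : ℝ} (hx : x ∈ Ico α β) :
    ∃ r, 0 < r ∧ E.map^[r] x ∈ Ico α β := by
  by_contra hcon
  push Not at hcon
  -- choose `x' > x`
  obtain ⟨x', hx1, hx2, hx3⟩ : ∃ x', x < x' ∧ x' < β ∧
      ∀ y ∈ E.divPts α β, x < y → ¬ y ≤ x' := by
    have hfin := (E.divPts_finite hJ).inter_of_left (Ioi x)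
    rcases (E.divPts α β ∩ Ioi x).eq_empty_or_nonempty with h | h
    · refine ⟨(x + β) / 2, by linarith [hx.2], by linarith [hx.2], ?_⟩
      intro y hy hxy
      exfalso
      have : y ∈ E.divPts α β ∩ Ioi x := ⟨hy, hxy⟩
      rw [h] at this
      exact this
    · obtain ⟨m, hm, hm'⟩ := hfin.exists_minimal h
      refine ⟨(x + m) / 2, by linarith [show x < m from hm.2], ?_, ?_⟩
      · have := hm.1.1.2
        linarith [show x < m from hm.2]
      · intro y hy hxy hyx
        have h1 : y ≤ m := by linarith [show x < m from hm.2]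
        have := hm' ⟨hy, hxy⟩ h1
        linarith [show x < m from hm.2]
  have hx' : x' ∈ Ico α β := ⟨hx.1.trans hx1.le, hx2⟩
  have hsub : Ico x x' ⊆ Ico α β := fun y hy => ⟨hx.1.trans hy.1, hy.2.trans hx2⟩
  have hmeas : leb (Ico x x') ≠ 0 := by
    rw [leb, Measure.restrict_apply measurableSet_Ico,
      inter_eq_self_of_subset_left (hsub.trans hJ)]
    simp [hx1]
  obtain ⟨y, hy, m, hm, hm'⟩ := E.measurePreserving_map.exists_mem_iterate_mem
    measurableSet_Ico.nullMeasurableSet hmeas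
  have := (E.flow hJ hx hx' hx3 m (fun l' a _ => hcon l' a) y hy.1 hy.2.le).2.2
  exact hcon m (Nat.pos_of_ne_zero hm) (this.1 (hsub hm'))

theorem exists_return_bound {α β : ℝ} (hJ : Ico α β ⊆ Ico 0 1) :
    ∃ R : ℕ, ∀ x ∈ Ico α β, ∃ r, 0 < r ∧ r ≤ R ∧ E.map^[r] x ∈ Ico α β := by
  classical
  rcases (Ico α β).eq_empty_or_nonempty with he | hne
  · exact ⟨0, fun x hx => by rw [he] at hx; exact hx.elim⟩
  have hα : α ∈ Ico α β := ⟨le_rfl, hne.some_mem.1.trans_lt hne.some_mem.2⟩
  have hSfin : (insert α (E.divPts α β)).Finite := (E.divPts_finite hJ).insert α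
  set S := hSfin.toFinset with hS
  have hSJ : ∀ d ∈ S, d ∈ Ico α β := by
    intro d hd
    rw [hS, Set.Finite.mem_toFinset] at hd
    rcases hd with rfl | hd
    · exact hα
    · exact hd.1
  have hmin : ∀ d ∈ Ico α β, ∃ r, 0 < r ∧ E.map^[r] d ∈ Ico α β ∧
      ∀ l', 0 < l' → l' < r → E.map^[l'] d ∉ Ico α β := by
    intro d hd
    have hex := E.exists_return hJ hd
    refine ⟨Nat.find hex, (Nat.find_spec hex).1, (Nat.find_spec hex).2, ?_⟩
    intro l' a b h
    exact Nat.find_min hex b ⟨a, h⟩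
  choose! r hr1 hr2 hr3 using hmin
  refine ⟨S.sup r, ?_⟩
  intro x hx
  -- the largest element of `S` below `x`
  have hne' : (S.filter (· ≤ x)).Nonempty := by
    refine ⟨α, ?_⟩
    rw [Finset.mem_filter]
    refine ⟨?_, hx.1⟩
    rw [hS, Set.Finite.mem_toFinset]
    exact Or.inl rfl
  obtain ⟨d, hd, hdmax⟩ := (S.filter (· ≤ x)).exists_max_image id hne'
  rw [Finset.mem_filter] at hd
  have hdJ := hSJ d hd.1
  have hno : ∀ y ∈ E.divPts α β, d < y → ¬ y ≤ x := by
    intro y hy hdy hyx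
    have : y ∈ S.filter (· ≤ x) := by
      rw [Finset.mem_filter, hS, Set.Finite.mem_toFinset]
      exact ⟨Or.inr hy, hyx⟩
    have := hdmax y this
    simp only [id] at this
    linarith
  refine ⟨r d, hr1 d hdJ, Finset.le_sup (f := r) hd.1, ?_⟩
  exact (E.flow hJ hdJ hx hno (r d) (hr3 d hdJ) x hd.2 le_rfl).2.2.2 (hr2 d hdJ)

/-- Iterates are translations to the right of each point. -/
theorem exists_right (x : ℝ) (hx : x ∈ Ico (0:ℝ) 1) (m : ℕ) :
    ∃ ε > 0, ∀ y, x ≤ y → y < x + ε → y ∈ Ico (0:ℝ) 1 ∧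
      ∀ l ≤ m, E.Same (E.map^[l] x) (E.map^[l] y) ∧ E.map^[l] y = E.map^[l] x + (y - x) := by
  induction m with
  | zero =>
    obtain ⟨ε, hε, h⟩ := E.exists_same_right hx
    refine ⟨min ε (1 - x), lt_min hε (by linarith [hx.2]), ?_⟩
    intro y h1 h2
    have h3 : y < x + ε := h2.trans_le (by linarith [min_le_left ε (1 - x)])
    have h4 : y < 1 := h2.trans_le (by linarith [min_le_right ε (1 - x)])
    refine ⟨⟨hx.1.trans h1, h4⟩, ?_⟩
    intro l hl
    obtain rfl : l = 0 := by omega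
    simp only [Function.iterate_zero, id_eq]
    exact ⟨h y h1 h3, by ring⟩
  | succ m ih =>
    obtain ⟨ε, hε, h⟩ := ih
    obtain ⟨ε', hε', h'⟩ := E.exists_same_right (E.iterate_mem hx (m + 1))
    refine ⟨min ε ε', lt_min hε hε', ?_⟩
    intro y h1 h2
    have h3 : y < x + ε := h2.trans_le (by linarith [min_le_left ε ε'])
    have h4 : y < x + ε' := h2.trans_le (by linarith [min_le_right ε ε'])
    obtain ⟨h5, h6⟩ := h y h1 h3
    refine ⟨h5, ?_⟩
    intro l hl
    rcases Nat.lt_or_ge l (m + 1) with h7 | h7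
    · exact h6 l (by omega)
    · obtain rfl : l = m + 1 := by omega
      have h8 : E.map^[m + 1] y = E.map^[m + 1] x + (y - x) := by
        obtain ⟨h9, h10⟩ := h6 m le_rfl
        rw [Function.iterate_succ_apply', Function.iterate_succ_apply']
        have := h9.map_sub
        linarith
      refine ⟨?_, h8⟩
      apply h'
      · rw [h8]; linarith
      · rw [h8]; linarith

theorem exists_hit_bound (hE : Ergodic E.map leb) {α β : ℝ} (hJ : Ico α β ⊆ Ico 0 1)
    (hαβ : α < β) :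
    ∃ R : ℕ, ∀ x ∈ Ico (0:ℝ) 1, ∃ r, 0 < r ∧ r ≤ R ∧ E.map^[r] x ∈ Ico α β := by
  obtain ⟨R, hR⟩ := E.exists_return_bound hJ
  refine ⟨R, ?_⟩
  -- the set of points which hit `J`
  set Z : Set ℝ := ⋃ r ∈ Finset.Icc 1 R, E.map^[r] ⁻¹' (Ico α β) with hZ
  have hZm : MeasurableSet Z := by
    apply Finset.measurableSet_biUnion
    intro r _
    exact (E.measurable_map.iterate r) measurableSet_Ico
  have hmem : ∀ x, x ∈ Z ↔ ∃ r, 0 < r ∧ r ≤ R ∧ E.map^[r] x ∈ Ico α β := by
    intro x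
    simp only [hZ, mem_iUnion, Finset.mem_Icc, mem_preimage, exists_prop]
    constructor
    · rintro ⟨r, ⟨h1, h2⟩, h3⟩
      exact ⟨r, h1, h2, h3⟩
    · rintro ⟨r, h1, h2, h3⟩
      exact ⟨r, ⟨h1, h2⟩, h3⟩
  have hJZ : Ico α β ⊆ Z := fun x hx => (hmem x).2 (hR x hx)
  have hsub : Z ⊆ E.map ⁻¹' Z := by
    intro x hx
    obtain ⟨r, h1, h2, h3⟩ := (hmem x).1 hx
    rw [mem_preimage]
    rcases Nat.lt_or_ge 1 r with h | h
    · rw [hmem]
      refine ⟨r - 1, by omega, by omega, ?_⟩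
      rw [← Function.iterate_succ_apply]
      rwa [show (r - 1).succ = r by omega]
    · obtain rfl : r = 1 := by omega
      exact hJZ h3
  have hpos : leb Z ≠ 0 := by
    intro h0
    have h1 : leb (Ico α β) = 0 := measure_mono_null hJZ h0
    rw [leb, Measure.restrict_apply measurableSet_Ico, inter_eq_self_of_subset_left hJ] at h1
    simp at h1
    linarith
  have hfull : leb Zᶜ = 0 := by
    rcases hE.ae_empty_or_univ_of_ae_le_preimage hZm.nullMeasurableSet
      (Filter.Eventually.of_forall hsub) with h | h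
    · exfalso
      rw [ae_eq_empty] at h
      exact hpos h
    · rwa [ae_eq_univ] at h
  intro x hx
  by_contra hcon
  have hxZ : x ∉ Z := fun h => hcon ((hmem x).1 h)
  push Not at hcon
  -- right neighbourhood outside `Z`
  have hgap : ∀ y : ℝ, y ∉ Ico α β → ∃ ε > 0, ∀ y', y ≤ y' → y' < y + ε → y' ∉ Ico α β := by
    intro y hy
    rcases lt_or_ge y α with h | h
    · refine ⟨α - y, by linarith, ?_⟩
      intro y' _ h2 h3
      linarith [h3.1]
    · have h' : β ≤ y := by
        by_contra hc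
        exact hy ⟨h, not_le.1 hc⟩
      refine ⟨1, one_pos, ?_⟩
      intro y' h1 _ h3
      linarith [h3.2]
  obtain ⟨ε, hε, h1⟩ := E.exists_right x hx R
  have hgap' : ∃ δ > 0, ∀ r, 0 < r → r ≤ R → ∀ y', E.map^[r] x ≤ y' → y' < E.map^[r] x + δ →
      y' ∉ Ico α β := by
    have : ∀ m ≤ R, ∃ δ > 0, ∀ r, 0 < r → r ≤ m → ∀ y', E.map^[r] x ≤ y' →
        y' < E.map^[r] x + δ → y' ∉ Ico α β := by
      intro m
      induction m with
      | zero => intro _; exact ⟨1, one_pos, fun r a b => by omega⟩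
      | succ m ih =>
        intro hm
        obtain ⟨δ, hδ, h⟩ := ih (by omega)
        obtain ⟨δ', hδ', h'⟩ := hgap _ (hcon (m + 1) (by omega) hm)
        refine ⟨min δ δ', lt_min hδ hδ', ?_⟩
        intro r a b y' c e
        rcases Nat.lt_or_ge r (m + 1) with h2 | h2
        · exact h r a (by omega) y' c (e.trans_le (by linarith [min_le_left δ δ']))
        · obtain rfl : r = m + 1 := by omega
          exact h' y' c (e.trans_le (by linarith [min_le_right δ δ']))
    exact this R le_rfl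
  obtain ⟨δ, hδ, h2⟩ := hgap'
  have hsub' : Ico x (x + min ε δ) ⊆ Zᶜ ∩ Ico 0 1 := by
    intro y hy
    have hy1 : y < x + ε := hy.2.trans_le (by linarith [min_le_left ε δ])
    have hy2 : y < x + δ := hy.2.trans_le (by linarith [min_le_right ε δ])
    obtain ⟨h3, h4⟩ := h1 y hy.1 hy1
    refine ⟨?_, h3⟩
    intro hyZ
    obtain ⟨r, a, b, c⟩ := (hmem y).1 hyZ
    apply h2 r a b _ _ _ c
    · rw [(h4 r b).2]; linarith [hy.1]
    · rw [(h4 r b).2]; linarith
  have h5 : volume (Ico x (x + min ε δ)) = 0 := by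
    apply measure_mono_null hsub'
    rw [leb, Measure.restrict_apply hZm.compl] at hfull
    exact hfull
  simp only [Real.volume_Ico, add_sub_cancel_left, ENNReal.ofReal_eq_zero] at h5
  exact absurd h5 (not_le.2 (lt_min hε hδ))

/-- An ergodic interval exchange has no periodic point. -/
theorem aperiodic (hE : Ergodic E.map leb) {x : ℝ} (hx : x ∈ Ico (0:ℝ) 1) {h : ℕ} (hh : 0 < h) :
    E.map^[h] x ≠ x := by
  classical
  intro hper
  -- finite orbit
  set S : Set ℝ := (fun l => E.map^[l] x) '' (Set.Iio h) with hS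
  have hSfin : S.Finite := (Set.finite_Iio h).image _
  have horb : ∀ l, E.map^[l] x ∈ S := by
    intro l
    induction l using Nat.strong_induction_on with
    | _ l ih =>
      rcases Nat.lt_or_ge l h with hl | hl
      · exact ⟨l, hl, rfl⟩
      · have := ih (l - h) (by omega)
        have h2 : E.map^[l] x = E.map^[l - h] x := by
          conv_lhs => rw [show l = (l - h) + h by omega, Function.iterate_add_apply, hper]
        rwa [h2]
  obtain ⟨y, hy, hyS⟩ : ∃ y ∈ Ioo (0:ℝ) 1, y ∉ S := by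
    have hinf : (Ioo (0:ℝ) 1).Infinite := Set.Ioo_infinite one_pos
    obtain ⟨y, hy, hyS⟩ := (hinf.sdiff hSfin).nonempty
    exact ⟨y, hy, hyS⟩
  obtain ⟨ε, hε, hball⟩ := Metric.isOpen_iff.1 (hSfin.isClosed.isOpen_compl) y hyS
  have hJ : Ico y (min (y + ε) 1) ⊆ Ico 0 1 := by
    intro z hz
    exact ⟨hy.1.le.trans hz.1, hz.2.trans_le (min_le_right _ _)⟩
  obtain ⟨R, hR⟩ := E.exists_hit_bound hE hJ (lt_min (by linarith) hy.2)
  obtain ⟨r, -, -, hr⟩ := hR x hx
  apply hball _ (horb r)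
  rw [Metric.mem_ball, Real.dist_eq, abs_lt]
  constructor
  · linarith [hr.1]
  · linarith [hr.2.trans_le (min_le_left (y + ε) 1)]

end IET

end Pool.Agent.Skew
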