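import Mathlib
import Pool.Agent.Helper12.Skew.Hit
import Pool.Agent.Helper12.Skew.Haar

/-!
# Castles: two-sided Rauzy induction with words
-/

namespace Pool.Agent.Skew

open MeasureTheory Set
open scoped ENNReal

/-- A castle: induced map of an interval exchange on a union of `n` (possibly empty) letters, with
return words whose values are jointly Haar distributed. -/
structure Castle {n : ℕ} (E : IET n) {G : Type*} [Group G] [MeasurableSpace G]
    (ν : Measure G) where
  A : Fin n → Set ℝ
  t : Fin n → ℝ
  h : Fin n → ℕ
  w : Fin n → (Fin n → G) → G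
  sub : ∀ i, A i ⊆ Ico 0 1
  meas : ∀ i, MeasurableSet (A i)
  disj : ∀ i j x, x ∈ A i → x ∈ A j → i = j
  hpos : ∀ i, 0 < h i
  ret : ∀ i, ∀ x ∈ A i, E.map^[h i] x = x + t i
  img : ∀ x, (∃ i, x ∈ A i) ↔ ∃ i, x - t i ∈ A i
  noret : ∀ i, ∀ x ∈ A i, ∀ l, 0 < l → l < h i → ∀ j, E.map^[l] x ∉ A j
  flat : ∀ i, ∀ x ∈ A i, ∀ y ∈ A i, ∀ l < h i, E.Same (E.map^[l] x) (E.map^[l] y)
  word : ∀ i, ∀ x ∈ A i, ∀ g, E.coc g (h i) x = w i g
  haar : MeasurePreserving (fun (g : Fin n → G) i => w i g) (Measure.pi fun _ => ν)
    (Measure.pi fun _ => ν)
  mass : ∑ i, (h i : ℝ≥0∞) * volume (A i) = 1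

variable {n : ℕ} {E : IET n} {G : Type*} [Group G] [MeasurableSpace G]
    {ν : Measure G}

/-- The initial castle. -/
def baseCastle (E : IET n) (ν : Measure G) : Castle E ν where
  A := E.interval
  t i := E.newLeft i - E.left i
  h _ := 1
  w i g := g i
  sub := E.interval_sub
  meas := E.measurableSet_interval
  disj i j x hi hj := E.interval_disj hi hj
  hpos _ := one_pos
  ret i x hx := by simpa using E.map_eq hx
  img x := by
    have key : ∀ i, x - (E.newLeft i - E.left i) ∈ E.interval i ↔ x ∈ E.ivl E.perm i := by
      intro i
      rw [IET.ivl, IET.lft_perm, IET.interval, mem_Ico, mem_Ico]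
      constructor
      · rintro ⟨h1, h2⟩
        constructor <;> linarith
      · rintro ⟨h1, h2⟩
        constructor <;> linarith
    constructor
    · rintro ⟨i, hi⟩
      obtain ⟨j, hj⟩ := E.exists_ivl E.perm (E.interval_sub i hi)
      exact ⟨j, (key j).2 hj⟩
    · rintro ⟨i, hi⟩
      exact E.exists_interval (E.ivl_sub _ _ ((key i).1 hi))
  noret i x hx l h1 h2 := by omega
  flat i x hx y hy l hl := by
    obtain rfl : l = 0 := by omega
    intro k
    simp only [Function.iterate_zero, id_eq]
    constructor
    · intro hk
      rwa [E.interval_disj hk hx]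
    · intro hk
      rwa [E.interval_disj hk hy]
  word i x hx g := by
    simp [IET.coc, E.simple_eq g hx]
  haar := MeasurePreserving.id _
  mass := by
    simp only [Nat.cast_one, one_mul, IET.volume_interval]
    rw [← ENNReal.ofReal_sum_of_nonneg (fun i _ => (E.len_pos i).le), E.len_sum,
      ENNReal.ofReal_one]

namespace Castle

variable (C : Castle E ν)

theorem img_disj {i j : Fin n} {x : ℝ} (hi : x - C.t i ∈ C.A i) (hj : x - C.t j ∈ C.A j) :
    i = j := by
  have key : ∀ i j : Fin n, C.h i ≤ C.h j → x - C.t i ∈ C.A i → x - C.t j ∈ C.A j → i = j := by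
    intro i j hij hi hj
    have h1 : E.map^[C.h i] (x - C.t i) = x := by rw [C.ret i _ hi]; ring
    have h2 : E.map^[C.h j] (x - C.t j) = x := by rw [C.ret j _ hj]; ring
    obtain ⟨k, hk⟩ := Nat.exists_eq_add_of_le hij
    rw [hk, Function.iterate_add_apply] at h2
    have h3 : x - C.t i = E.map^[k] (x - C.t j) :=
      E.iterate_inj (C.sub i hi) (E.iterate_mem (C.sub j hj) k) (h1.trans h2.symm)
    rcases Nat.eq_zero_or_pos k with h0 | h0
    · subst h0
      simp only [Function.iterate_zero, id_eq] at h3
      rw [h3] at hi
      exact C.disj _ _ _ hi hj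
    · exfalso
      have := C.hpos i
      apply C.noret j _ hj k h0 (by omega) i
      rwa [← h3]
  rcases le_total (C.h i) (C.h j) with h | h
  · exact key i j h hi hj
  · exact (key j i h hj hi).symm

section step

variable [TopologicalSpace G] [IsTopologicalGroup G]
    [CompactSpace G] [SecondCountableTopology G] [BorelSpace G] [ν.IsHaarMeasure]
    [IsProbabilityMeasure ν]

/-- One step of the induction: remove `K`. -/
noncomputable def step (m q e : Fin n) (hmq : m ≠ q) (he : e = m ∨ e = q) (K : Set ℝ)
    (hK : MeasurableSet K) (hKm : K ⊆ C.A m) (hKq : ∀ x ∈ K, x - C.t q ∈ C.A q)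
    (hKe : ∀ x ∈ C.A e, x ∈ K ∨ x + C.t q ∈ K) : Castle E ν where
  A := Function.update (fun i => C.A i \ ({x | x + C.t q ∈ K} ∪ K)) e {x | x + C.t q ∈ K}
  t := Function.update C.t e (C.t q + C.t m)
  h := Function.update C.h e (C.h q + C.h m)
  w := Function.update C.w e (fun g => C.w m g * C.w q g)
  sub i := by
    rcases eq_or_ne i e with rfl | hi
    · rw [Function.update_self]
      intro x hx
      have := hKq _ hx
      rw [add_sub_cancel_right] at this
      exact C.sub q this
    · rw [Function.update_of_ne hi]
      exact sdiff_subset.trans (C.sub i)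
  meas i := by
    have h1 : MeasurableSet {x | x + C.t q ∈ K} := (measurable_add_const _) hK
    rcases eq_or_ne i e with rfl | hi
    · rw [Function.update_self]
      exact h1
    · rw [Function.update_of_ne hi]
      exact (C.meas i).diff (h1.union hK)
  disj i j x hi hj := by
    rcases eq_or_ne i e with rfl | hie
    · rcases eq_or_ne j i with rfl | hje
      · rfl
      · rw [Function.update_self] at hi
        rw [Function.update_of_ne hje] at hj
        exact absurd (Or.inl hi) hj.2
    · rcases eq_or_ne j e with rfl | hje
      · rw [Function.update_self] at hj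
        rw [Function.update_of_ne hie] at hi
        exact absurd (Or.inl hj) hi.2
      · rw [Function.update_of_ne hje] at hj
        rw [Function.update_of_ne hie] at hi
        exact C.disj i j x hi.1 hj.1
  hpos i := by
    rcases eq_or_ne i e with rfl | hi
    · rw [Function.update_self]
      have := C.hpos m
      omega
    · rw [Function.update_of_ne hi]
      exact C.hpos i
  ret i x hx := by
    rcases eq_or_ne i e with rfl | hi
    · rw [Function.update_self] at hx ⊢
      rw [Function.update_self]
      have h1 : x ∈ C.A q := by
        have := hKq _ hx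
        rwa [add_sub_cancel_right] at this
      rw [add_comm (C.h q), Function.iterate_add_apply, C.ret q x h1, C.ret m _ (hKm hx)]
      ring
    · rw [Function.update_of_ne hi] at hx ⊢
      rw [Function.update_of_ne hi]
      exact C.ret i x hx.1
  img := by
    intro x
    have hU : (∃ i, x ∈ Function.update (fun i => C.A i \ ({x | x + C.t q ∈ K} ∪ K)) e
        {x | x + C.t q ∈ K} i) ↔ (∃ i, x ∈ C.A i) ∧ x ∉ K := by
      constructor
      · rintro ⟨i, hi⟩
        rcases eq_or_ne i e with rfl | hie
        · rw [Function.update_self] at hi
          have h1 : x ∈ C.A q := by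
            have := hKq _ hi
            rwa [add_sub_cancel_right] at this
          exact ⟨⟨q, h1⟩, fun h => hmq (C.disj _ _ _ (hKm h) h1)⟩
        · rw [Function.update_of_ne hie] at hi
          exact ⟨⟨i, hi.1⟩, fun h => hi.2 (Or.inr h)⟩
      · rintro ⟨⟨i, hi⟩, hxK⟩
        by_cases hP : x + C.t q ∈ K
        · exact ⟨e, by rw [Function.update_self]; exact hP⟩
        · have hie : i ≠ e := by
            rintro rfl
            rcases hKe x hi with h | h
            · exact hxK h
            · exact hP h
          refine ⟨i, ?_⟩
          rw [Function.update_of_ne hie]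
          exact ⟨hi, fun h => h.elim hP hxK⟩
    rw [hU]
    constructor
    · rintro ⟨h1, hxK⟩
      obtain ⟨i, hi⟩ := (C.img x).1 h1
      by_cases h2 : x - C.t i ∈ K
      · have h3 : i = m := C.disj _ _ _ hi (hKm h2)
        subst h3
        refine ⟨e, ?_⟩
        rw [Function.update_self, Function.update_self]
        change x - (C.t q + C.t i) + C.t q ∈ K
        rwa [show x - (C.t q + C.t i) + C.t q = x - C.t i by ring]
      · have h3 : x - C.t i + C.t q ∉ K := by
          intro h
          have h4 := hKq _ h
          rw [add_sub_cancel_right] at h4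
          have h5 : i = q := C.disj _ _ _ hi h4
          subst h5
          rw [sub_add_cancel] at h
          exact hxK h
        have hie : i ≠ e := by
          rintro rfl
          rcases hKe _ hi with h | h
          · exact h2 h
          · exact h3 h
        refine ⟨i, ?_⟩
        rw [Function.update_of_ne hie, Function.update_of_ne hie]
        exact ⟨hi, fun h => h.elim h3 h2⟩
    · rintro ⟨i, hi⟩
      rcases eq_or_ne i e with rfl | hie
      · rw [Function.update_self, Function.update_self] at hi
        change x - (C.t q + C.t m) + C.t q ∈ K at hi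
        rw [show x - (C.t q + C.t m) + C.t q = x - C.t m by ring] at hi
        have h1 := hKm hi
        refine ⟨(C.img x).2 ⟨m, h1⟩, ?_⟩
        intro hxK
        exact hmq (C.img_disj h1 (hKq x hxK))
      · rw [Function.update_of_ne hie, Function.update_of_ne hie] at hi
        refine ⟨(C.img x).2 ⟨i, hi.1⟩, ?_⟩
        intro hxK
        have h1 : i = q := C.img_disj hi.1 (hKq x hxK)
        subst h1
        apply hi.2
        left
        change x - C.t i + C.t i ∈ K
        rwa [sub_add_cancel]
  noret i x hx l hl hl' j := by
    have hU : ∀ y, y ∈ Function.update (fun i => C.A i \ ({x | x + C.t q ∈ K} ∪ K)) e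
        {x | x + C.t q ∈ K} j → (∃ i, y ∈ C.A i) ∧ y ∉ K := by
      intro y hj
      rcases eq_or_ne j e with rfl | hje
      · rw [Function.update_self] at hj
        have h1 : y ∈ C.A q := by
          have := hKq _ hj
          rwa [add_sub_cancel_right] at this
        exact ⟨⟨q, h1⟩, fun h => hmq (C.disj _ _ _ (hKm h) h1)⟩
      · rw [Function.update_of_ne hje] at hj
        exact ⟨⟨j, hj.1⟩, fun h => hj.2 (Or.inr h)⟩
    intro hmem
    obtain ⟨⟨k, hk⟩, hnK⟩ := hU _ hmem
    rcases eq_or_ne i e with rfl | hie
    · rw [Function.update_self] at hx hl'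
      have h1 : x ∈ C.A q := by
        have := hKq _ hx
        rwa [add_sub_cancel_right] at this
      rcases lt_trichotomy l (C.h q) with h2 | h2 | h2
      · exact C.noret q x h1 l hl h2 k hk
      · apply hnK
        rw [h2, C.ret q x h1]
        exact hx
      · apply C.noret m _ (hKm hx) (l - C.h q) (by omega) (by omega) k
        rw [← C.ret q x h1, ← Function.iterate_add_apply]
        rwa [show l - C.h q + C.h q = l by omega]
    · rw [Function.update_of_ne hie] at hx hl'
      exact C.noret i x hx.1 l hl hl' k hk
  flat i x hx y hy l hl := by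
    rcases eq_or_ne i e with rfl | hie
    · rw [Function.update_self] at hx hy hl
      have h1 : x ∈ C.A q := by
        have := hKq _ hx
        rwa [add_sub_cancel_right] at this
      have h2 : y ∈ C.A q := by
        have := hKq _ hy
        rwa [add_sub_cancel_right] at this
      rcases Nat.lt_or_ge l (C.h q) with h3 | h3
      · exact C.flat q x h1 y h2 l h3
      · have h4 := C.flat m _ (hKm hx) _ (hKm hy) (l - C.h q) (by omega)
        rw [← C.ret q x h1, ← C.ret q y h2, ← Function.iterate_add_apply,
          ← Function.iterate_add_apply] at h4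
        rwa [show l - C.h q + C.h q = l by omega] at h4
    · rw [Function.update_of_ne hie] at hx hy hl
      exact C.flat i x hx.1 y hy.1 l hl
  word i x hx g := by
    rcases eq_or_ne i e with rfl | hie
    · rw [Function.update_self] at hx ⊢
      rw [Function.update_self]
      have h1 : x ∈ C.A q := by
        have := hKq _ hx
        rwa [add_sub_cancel_right] at this
      rw [E.coc_add, C.word q x h1, C.ret q x h1, C.word m _ (hKm hx)]
    · rw [Function.update_of_ne hie] at hx ⊢
      rw [Function.update_of_ne hie]
      exact C.word i x hx.1 g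
  haar := by
    rcases he with rfl | rfl
    · have h1 := (mp_update_right ν hmq).comp C.haar
      convert h1 using 1
      ext g i
      simp only [Function.comp]
      rcases eq_or_ne i e with rfl | hie
      · simp
      · simp [hie]
    · have h1 := (mp_update_left ν hmq.symm).comp C.haar
      convert h1 using 1
      ext g i
      simp only [Function.comp]
      rcases eq_or_ne i e with rfl | hie
      · simp
      · simp [hie]
  mass := by
    classical
    have hPm : MeasurableSet {x | x + C.t q ∈ K} := (measurable_add_const _) hK
    have hPK : volume {x | x + C.t q ∈ K} = volume K := measure_preimage_add_right volume _ K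
    have hPq : {x | x + C.t q ∈ K} ⊆ C.A q := by
      intro x hx
      have := hKq _ hx
      rwa [add_sub_cancel_right] at this
    have hsplit : ∀ i, (C.h i : ℝ≥0∞) * volume (C.A i) =
        (C.h i : ℝ≥0∞) * volume (C.A i \ ({x | x + C.t q ∈ K} ∪ K)) +
        ((if i = q then (C.h q : ℝ≥0∞) * volume K else 0) +
          (if i = m then (C.h m : ℝ≥0∞) * volume K else 0)) := by
      intro i
      rw [← measure_inter_add_sdiff (C.A i) (hPm.union hK), mul_add, add_comm]
      congr 1
      by_cases hiq : i = q
      · subst hiq
        have : C.A i ∩ ({x | x + C.t i ∈ K} ∪ K) = {x | x + C.t i ∈ K} := by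
          ext x
          constructor
          · rintro ⟨h1, h2 | h2⟩
            · exact h2
            · exact absurd (C.disj _ _ _ (hKm h2) h1) hmq
          · intro h
            exact ⟨hPq h, Or.inl h⟩
        rw [this, hPK, if_pos rfl, if_neg hmq.symm, add_zero]
      · by_cases him : i = m
        · subst him
          have : C.A i ∩ ({x | x + C.t q ∈ K} ∪ K) = K := by
            ext x
            constructor
            · rintro ⟨h1, h2 | h2⟩
              · exact absurd (C.disj _ _ _ h1 (hPq h2)) hmq
              · exact h2
            · intro h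
              exact ⟨hKm h, Or.inr h⟩
          rw [this, if_neg hmq, if_pos rfl, zero_add]
        · have : C.A i ∩ ({x | x + C.t q ∈ K} ∪ K) = ∅ := by
            rw [eq_empty_iff_forall_notMem]
            rintro x ⟨h1, h2 | h2⟩
            · exact hiq (C.disj _ _ _ h1 (hPq h2))
            · exact him (C.disj _ _ _ h1 (hKm h2))
          rw [this, if_neg hiq, if_neg him]
          simp
    have hold := C.mass
    simp_rw [hsplit] at hold
    rw [Finset.sum_add_distrib, Finset.sum_add_distrib] at hold
    simp only [Finset.sum_ite_eq', Finset.mem_univ, if_true] at hold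
    have he0 : volume (C.A e \ ({x | x + C.t q ∈ K} ∪ K)) = 0 := by
      have : C.A e \ ({x | x + C.t q ∈ K} ∪ K) = ∅ := by
        rw [eq_empty_iff_forall_notMem]
        rintro x ⟨h1, h2⟩
        rcases hKe x h1 with h | h
        · exact h2 (Or.inr h)
        · exact h2 (Or.inl h)
      rw [this]; simp
    have hnew : ∀ i, ((Function.update C.h e (C.h q + C.h m) i : ℕ) : ℝ≥0∞) *
        volume (Function.update (fun i => C.A i \ ({x | x + C.t q ∈ K} ∪ K)) e
          {x | x + C.t q ∈ K} i) =
        (C.h i : ℝ≥0∞) * volume (C.A i \ ({x | x + C.t q ∈ K} ∪ K)) +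
          (if i = e then ((C.h q : ℝ≥0∞) + C.h m) * volume K else 0) := by
      intro i
      rcases eq_or_ne i e with rfl | hie
      · rw [Function.update_self, Function.update_self, he0, mul_zero, zero_add, if_pos rfl, hPK]
        push_cast
        rfl
      · rw [Function.update_of_ne hie, Function.update_of_ne hie, if_neg hie, add_zero]
    simp_rw [hnew]
    rw [Finset.sum_add_distrib]
    simp only [Finset.sum_ite_eq', Finset.mem_univ, if_true]
    rw [← hold, add_mul]

end step

end Castle

end Pool.Agent.Skew
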