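import Mathlib
import Pool.Agent.Helper12.Skew.Castle

/-!
# Reaching an interval by right and left induction steps
-/

namespace Pool.Agent.Skew

open MeasureTheory Set
open scoped ENNReal

theorem exists_left_end {n : ℕ} {a b : Fin n → ℝ} {y0 y1 : ℝ} (hy : y0 < y1)
    (hU : ∀ x, (∃ i, x ∈ Ico (a i) (b i)) ↔ x ∈ Ico y0 y1) : ∃ i, a i < b i ∧ a i = y0 := by
  obtain ⟨i, hi⟩ := (hU y0).2 ⟨le_rfl, hy⟩
  have hlt : a i < b i := hi.1.trans_lt hi.2
  have h2 := (hU (a i)).1 ⟨i, le_rfl, hlt⟩
  exact ⟨i, hlt, le_antisymm hi.1 h2.1⟩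

theorem exists_right_end {n : ℕ} {a b : Fin n → ℝ} {y0 y1 : ℝ} (hy : y0 < y1)
    (hU : ∀ x, (∃ i, x ∈ Ico (a i) (b i)) ↔ x ∈ Ico y0 y1) : ∃ i, a i < b i ∧ b i = y1 := by
  classical
  obtain ⟨i0, hi0, -⟩ := exists_left_end hy hU
  have hne : (Finset.univ.filter fun i => a i < b i).Nonempty := ⟨i0, by simp [hi0]⟩
  obtain ⟨i, hi, hmax⟩ := Finset.exists_max_image _ b hne
  rw [Finset.mem_filter] at hi
  refine ⟨i, hi.2, ?_⟩
  have hle : b i ≤ y1 := by
    by_contra hcon
    rw [not_le] at hcon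
    have h1 : max (a i) y1 ∈ Ico (a i) (b i) := ⟨le_max_left _ _, max_lt hi.2 hcon⟩
    have h2 := (hU _).1 ⟨i, h1⟩
    exact absurd h2.2 (not_lt.2 (le_max_right _ _))
  by_contra hne'
  have hlt : b i < y1 := lt_of_le_of_ne hle hne'
  have h3 : y0 ≤ b i := ((hU (a i)).1 ⟨i, le_rfl, hi.2⟩).1.trans hi.2.le
  obtain ⟨j, hj⟩ := (hU (b i)).2 ⟨h3, hlt⟩
  have := hmax j (by rw [Finset.mem_filter]; exact ⟨Finset.mem_univ _, hj.1.trans_lt hj.2⟩)
  exact absurd hj.2 (not_lt.2 this)

variable {n : ℕ} {E : IET n} {G : Type*} [Group G] [MeasurableSpace G]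
    {ν : Measure G}

namespace Castle

/-- The letters are intervals and their union is `[y0, y1)`. -/
def IsIvl (C : Castle E ν) (y0 y1 : ℝ) : Prop :=
  (∀ i, ∃ a b, C.A i = Ico a b) ∧ ∀ x, (∃ i, x ∈ C.A i) ↔ x ∈ Ico y0 y1

/-- No letter straddles the point `c`. -/
def NS (C : Castle E ν) (c : ℝ) : Prop :=
  ∀ i, (∀ x ∈ C.A i, x < c) ∨ (∀ x ∈ C.A i, c ≤ x)

/-- Refinement relation. -/
def Ref (C' C : Castle E ν) : Prop := ∀ i, ∃ j, C'.A i ⊆ C.A j

theorem NS.of_ref {C C' : Castle E ν} {c : ℝ} (h : C.NS c) (hr : Ref C' C) : C'.NS c := by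
  intro i
  obtain ⟨j, hj⟩ := hr i
  rcases h j with h | h
  · exact Or.inl fun x hx => h x (hj hx)
  · exact Or.inr fun x hx => h x (hj hx)

section

variable [TopologicalSpace G] [IsTopologicalGroup G]
    [CompactSpace G] [SecondCountableTopology G] [BorelSpace G] [ν.IsHaarMeasure]
    [IsProbabilityMeasure ν]

theorem step_facts (C : Castle E ν) (m q e : Fin n) (hmq : m ≠ q) (he : e = m ∨ e = q)
    (K : Set ℝ)
    (hK : MeasurableSet K) (hKm : K ⊆ C.A m) (hKq : ∀ x ∈ K, x - C.t q ∈ C.A q)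
    (hKe : ∀ x ∈ C.A e, x ∈ K ∨ x + C.t q ∈ K) (hKne : K.Nonempty) :
    Ref (C.step m q e hmq he K hK hKm hKq hKe) C ∧
    (∑ i, C.h i) < ∑ i, (C.step m q e hmq he K hK hKm hKq hKe).h i ∧
    (∀ i, (C.step m q e hmq he K hK hKm hKq hKe).h i = C.h i ∨
      ((C.step m q e hmq he K hK hKm hKq hKe).A i).Nonempty) ∧
    (∀ x, (∃ i, x ∈ (C.step m q e hmq he K hK hKm hKq hKe).A i) ↔ (∃ i, x ∈ C.A i) ∧ x ∉ K) := by
  have hPq : {x | x + C.t q ∈ K} ⊆ C.A q := by
    intro x hx
    have := hKq _ hx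
    rwa [add_sub_cancel_right] at this
  refine ⟨?_, ?_, ?_, ?_⟩
  · intro i
    rcases eq_or_ne i e with rfl | hie
    · refine ⟨q, ?_⟩
      simp only [step, Function.update_self]
      exact hPq
    · refine ⟨i, ?_⟩
      simp only [step, Function.update_of_ne hie]
      exact sdiff_subset
  · simp only [step]
    rw [Finset.sum_update_of_mem (Finset.mem_univ e)]
    rw [← Finset.add_sum_erase _ _ (Finset.mem_univ e), Finset.sdiff_singleton_eq_erase]
    have h1 := C.hpos m
    have h2 := C.hpos q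
    rcases he with rfl | rfl <;> omega
  · intro i
    rcases eq_or_ne i e with rfl | hie
    · right
      obtain ⟨x, hx⟩ := hKne
      refine ⟨x - C.t q, ?_⟩
      simp only [step, Function.update_self]
      change x - C.t q + C.t q ∈ K
      rwa [sub_add_cancel]
    · left
      simp only [step, Function.update_of_ne hie]
  · intro x
    constructor
    · rintro ⟨i, hi⟩
      rcases eq_or_ne i e with rfl | hie
      · simp only [step, Function.update_self] at hi
        have h1 := hPq hi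
        exact ⟨⟨q, h1⟩, fun h => hmq (C.disj _ _ _ (hKm h) h1)⟩
      · simp only [step, Function.update_of_ne hie] at hi
        exact ⟨⟨i, hi.1⟩, fun h => hi.2 (Or.inr h)⟩
    · rintro ⟨⟨i, hi⟩, hxK⟩
      by_cases hP : x + C.t q ∈ K
      · refine ⟨e, ?_⟩
        simp only [step, Function.update_self]
        exact hP
      · have hie : i ≠ e := by
          rintro rfl
          rcases hKe x hi with h | h
          · exact hxK h
          · exact hP h
        refine ⟨i, ?_⟩
        simp only [step, Function.update_of_ne hie]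
        exact ⟨hi, fun h => h.elim hP hxK⟩

theorem step_A_e (C : Castle E ν) (m q e : Fin n) (hmq : m ≠ q) (he : e = m ∨ e = q)
    (K : Set ℝ)
    (hK : MeasurableSet K) (hKm : K ⊆ C.A m) (hKq : ∀ x ∈ K, x - C.t q ∈ C.A q)
    (hKe : ∀ x ∈ C.A e, x ∈ K ∨ x + C.t q ∈ K) :
    (C.step m q e hmq he K hK hKm hKq hKe).A e = {x | x + C.t q ∈ K} := by
  simp only [step, Function.update_self]

theorem step_A_ne (C : Castle E ν) (m q e : Fin n) (hmq : m ≠ q) (he : e = m ∨ e = q)
    (K : Set ℝ)
    (hK : MeasurableSet K) (hKm : K ⊆ C.A m) (hKq : ∀ x ∈ K, x - C.t q ∈ C.A q)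
    (hKe : ∀ x ∈ C.A e, x ∈ K ∨ x + C.t q ∈ K) {i : Fin n} (hi : i ≠ e) :
    (C.step m q e hmq he K hK hKm hKq hKe).A i = C.A i \ ({x | x + C.t q ∈ K} ∪ K) := by
  simp only [step, Function.update_of_ne hi]

omit [TopologicalSpace G] [IsTopologicalGroup G] [CompactSpace G] [SecondCountableTopology G]
  [BorelSpace G] [ν.IsHaarMeasure] [IsProbabilityMeasure ν] in
/-- Images of the letters cover the base. -/
theorem img_cover {C : Castle E ν} {y0 y1 : ℝ} (hC : C.IsIvl y0 y1) {a b : Fin n → ℝ}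
    (hab : ∀ i, C.A i = Ico (a i) (b i)) :
    ∀ x, (∃ i, x ∈ Ico (a i + C.t i) (b i + C.t i)) ↔ x ∈ Ico y0 y1 := by
  intro x
  rw [← hC.2, C.img]
  apply exists_congr
  intro i
  rw [hab i, mem_Ico, mem_Ico]
  constructor
  · rintro ⟨h1, h2⟩
    constructor <;> linarith
  · rintro ⟨h1, h2⟩
    constructor <;> linarith

/-- A right step. -/
theorem exists_right_step (hE : Ergodic E.map leb) (C : Castle E ν) {y0 y1 : ℝ} (hy : y0 < y1)
    (hC : C.IsIvl y0 y1) :
    ∃ (C' : Castle E ν) (y1' : ℝ), y0 < y1' ∧ y1' < y1 ∧ C'.IsIvl y0 y1' ∧ Ref C' C ∧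
      (∑ i, C.h i) < ∑ i, C'.h i ∧ (∀ i, C'.h i = C.h i ∨ (C'.A i).Nonempty) ∧
      ∃ m, Ico y1' y1 ⊆ C.A m := by
  choose a b hab using hC.1
  have hU : ∀ x, (∃ i, x ∈ Ico (a i) (b i)) ↔ x ∈ Ico y0 y1 := by
    intro x
    rw [← hC.2]
    simp_rw [hab]
  have hU' := img_cover hC hab
  obtain ⟨m, hm1, hm2⟩ := exists_right_end hy hU
  obtain ⟨q, hq1, hq2⟩ := exists_right_end hy hU'
  have hq1' : a q < b q := by linarith
  have hAm : C.A m = Ico (a m) y1 := by rw [hab, hm2]
  have hmq : m ≠ q := by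
    rintro rfl
    have ht : C.t m = 0 := by linarith
    have hx : a m ∈ C.A m := by rw [hab]; exact ⟨le_rfl, hm1⟩
    have := C.ret m _ hx
    rw [ht, add_zero] at this
    exact E.aperiodic hE (C.sub m hx) (C.hpos m) this
  have hdj : ∀ x, x ∈ C.A m → x ∈ C.A q → False := fun x h1 h2 => hmq (C.disj _ _ _ h1 h2)
  rcases le_or_gt (a q + C.t q) (a m) with hcase | hcase
  · -- `A m` is removed
    have hKq : ∀ x ∈ Ico (a m) y1, x - C.t q ∈ C.A q := by
      intro x hx
      rw [hab q]
      exact ⟨by linarith [hx.1], by linarith [hx.2]⟩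
    have hKe : ∀ x ∈ C.A m, x ∈ Ico (a m) y1 ∨ x + C.t q ∈ Ico (a m) y1 := by
      intro x hx
      left
      rwa [← hAm]
    have hKne : (Ico (a m) y1).Nonempty := ⟨a m, le_rfl, by linarith⟩
    obtain ⟨f1, f2, f3, f4⟩ := C.step_facts m q m hmq (Or.inl rfl) (Ico (a m) y1)
      measurableSet_Ico hAm.ge hKq hKe hKne
    have g1 := C.step_A_e m q m hmq (Or.inl rfl) (Ico (a m) y1)
      measurableSet_Ico hAm.ge hKq hKe
    have g2 := fun i => C.step_A_ne m q m hmq (Or.inl rfl) (Ico (a m) y1)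
      measurableSet_Ico hAm.ge hKq hKe (i := i)
    set C' := C.step m q m hmq (Or.inl rfl) (Ico (a m) y1) measurableSet_Ico hAm.ge hKq hKe
    have hcov : ∀ x, (∃ i, x ∈ C'.A i) ↔ x ∈ Ico y0 (a m) := by
      intro x
      rw [f4, hC.2, mem_Ico, mem_Ico, mem_Ico]
      constructor
      · rintro ⟨⟨h1, h2⟩, h3⟩
        refine ⟨h1, ?_⟩
        by_contra hcon
        exact h3 ⟨not_lt.1 hcon, h2⟩
      · rintro ⟨h1, h2⟩
        exact ⟨⟨h1, by linarith⟩, fun h => absurd h2 (not_lt.2 h.1)⟩
    have hlt : y0 < a m := by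
      obtain ⟨x, hx⟩ := hKne
      have : x - C.t q ∈ C'.A m := by
        rw [g1, mem_ofPred_eq, sub_add_cancel]
        exact hx
      have := (hcov _).1 ⟨m, this⟩
      exact this.1.trans_lt this.2
    refine ⟨C', a m, hlt, by linarith, ⟨?_, hcov⟩, f1, f2, f3, m, hAm.ge⟩
    intro i
    by_cases him : i = m
    · subst him
      refine ⟨a i - C.t q, y1 - C.t q, ?_⟩
      rw [g1]
      ext x
      simp only [mem_ofPred_eq, mem_Ico]
      constructor
      · rintro ⟨h1, h2⟩
        constructor <;> linarith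
      · rintro ⟨h1, h2⟩
        constructor <;> linarith
    · by_cases hiq : i = q
      · subst hiq
        refine ⟨a i, a m - C.t i, ?_⟩
        rw [g2 i him]
        ext x
        simp only [mem_sdiff, mem_union, mem_ofPred_eq, mem_Ico, hab i, not_or, not_and, not_lt]
        constructor
        · rintro ⟨⟨h1, h2⟩, h3, h4⟩
          refine ⟨h1, ?_⟩
          by_contra hcon
          have := h3 (by linarith)
          linarith
        · rintro ⟨h1, h2⟩
          have h3 : x ∈ C.A i := by rw [hab]; exact ⟨h1, by linarith⟩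
          refine ⟨⟨h1, by linarith⟩, fun h => by linarith, fun h => ?_⟩
          by_contra hcon
          apply hdj x _ h3
          rw [hAm]
          exact ⟨h, not_le.1 hcon⟩
      · refine ⟨a i, b i, ?_⟩
        rw [g2 i him, ← hab i]
        ext x
        constructor
        · intro h
          exact h.1
        · intro h
          refine ⟨h, ?_⟩
          rintro (h1 | h1)
          · have := hKq _ h1
            rw [add_sub_cancel_right] at this
            exact hiq (C.disj _ _ _ h this)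
          · exact him (C.disj _ _ _ h (hAm.ge h1))
  · -- the image of `A q` is removed
    have hKm : Ico (a q + C.t q) y1 ⊆ C.A m := by
      rw [hAm]
      exact Ico_subset_Ico_left hcase.le
    have hKq : ∀ x ∈ Ico (a q + C.t q) y1, x - C.t q ∈ C.A q := by
      intro x hx
      rw [hab q]
      exact ⟨by linarith [hx.1], by linarith [hx.2]⟩
    have hKe : ∀ x ∈ C.A q, x ∈ Ico (a q + C.t q) y1 ∨ x + C.t q ∈ Ico (a q + C.t q) y1 := by
      intro x hx
      right
      rw [hab q] at hx
      exact ⟨by linarith [hx.1], by linarith [hx.2]⟩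
    have hKne : (Ico (a q + C.t q) y1).Nonempty := ⟨a q + C.t q, le_rfl, by linarith⟩
    obtain ⟨f1, f2, f3, f4⟩ := C.step_facts m q q hmq (Or.inr rfl) (Ico (a q + C.t q) y1)
      measurableSet_Ico hKm hKq hKe hKne
    have g1 := C.step_A_e m q q hmq (Or.inr rfl) (Ico (a q + C.t q) y1)
      measurableSet_Ico hKm hKq hKe
    have g2 := fun i => C.step_A_ne m q q hmq (Or.inr rfl) (Ico (a q + C.t q) y1)
      measurableSet_Ico hKm hKq hKe (i := i)
    set C' := C.step m q q hmq (Or.inr rfl) (Ico (a q + C.t q) y1) measurableSet_Ico hKm hKq hKe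
    have hcov : ∀ x, (∃ i, x ∈ C'.A i) ↔ x ∈ Ico y0 (a q + C.t q) := by
      intro x
      rw [f4, hC.2, mem_Ico, mem_Ico, mem_Ico]
      constructor
      · rintro ⟨⟨h1, h2⟩, h3⟩
        refine ⟨h1, ?_⟩
        by_contra hcon
        exact h3 ⟨not_lt.1 hcon, h2⟩
      · rintro ⟨h1, h2⟩
        exact ⟨⟨h1, by linarith⟩, fun h => absurd h2 (not_lt.2 h.1)⟩
    have hlt : y0 < a q + C.t q := by
      obtain ⟨x, hx⟩ := hKne
      have : x - C.t q ∈ C'.A q := by
        rw [g1, mem_ofPred_eq, sub_add_cancel]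
        exact hx
      have := (hcov _).1 ⟨q, this⟩
      exact this.1.trans_lt this.2
    refine ⟨C', a q + C.t q, hlt, by linarith, ⟨?_, hcov⟩, f1, f2, f3, m, hKm⟩
    intro i
    by_cases hiq : i = q
    · subst hiq
      refine ⟨a i, b i, ?_⟩
      rw [g1]
      ext x
      simp only [mem_ofPred_eq, mem_Ico]
      constructor
      · rintro ⟨h1, h2⟩
        constructor <;> linarith
      · rintro ⟨h1, h2⟩
        constructor <;> linarith
    · by_cases him : i = m
      · subst him
        refine ⟨a i, a q + C.t q, ?_⟩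
        rw [g2 i hiq]
        ext x
        simp only [mem_sdiff, mem_union, mem_ofPred_eq, mem_Ico, hAm, not_or, not_and, not_lt]
        constructor
        · rintro ⟨⟨h1, h2⟩, h3, h4⟩
          refine ⟨h1, ?_⟩
          by_contra hcon
          have := h4 (by linarith)
          linarith
        · rintro ⟨h1, h2⟩
          have h3 : x ∈ C.A i := by rw [hAm]; exact ⟨h1, by linarith⟩
          refine ⟨⟨h1, by linarith⟩, fun h => ?_, fun h => by linarith⟩
          by_contra hcon
          apply hdj x h3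
          have := hKq (x + C.t q) ⟨h, not_le.1 hcon⟩
          rwa [add_sub_cancel_right] at this
      · refine ⟨a i, b i, ?_⟩
        rw [g2 i hiq, ← hab i]
        ext x
        constructor
        · intro h
          exact h.1
        · intro h
          refine ⟨h, ?_⟩
          rintro (h1 | h1)
          · have := hKq _ h1
            rw [add_sub_cancel_right] at this
            exact hiq (C.disj _ _ _ h this)
          · exact him (C.disj _ _ _ h (hKm h1))

/-- A left step. -/
theorem exists_left_step (hE : Ergodic E.map leb) (C : Castle E ν) {y0 y1 : ℝ} (hy : y0 < y1)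
    (hC : C.IsIvl y0 y1) :
    ∃ (C' : Castle E ν) (y0' : ℝ), y0 < y0' ∧ y0' < y1 ∧ C'.IsIvl y0' y1 ∧ Ref C' C ∧
      (∑ i, C.h i) < ∑ i, C'.h i ∧ (∀ i, C'.h i = C.h i ∨ (C'.A i).Nonempty) ∧
      ∃ m, Ico y0 y0' ⊆ C.A m := by
  choose a b hab using hC.1
  have hU : ∀ x, (∃ i, x ∈ Ico (a i) (b i)) ↔ x ∈ Ico y0 y1 := by
    intro x
    rw [← hC.2]
    simp_rw [hab]
  have hU' := img_cover hC hab
  obtain ⟨m, hm1, hm2⟩ := exists_left_end hy hU
  obtain ⟨q, hq1, hq2⟩ := exists_left_end hy hU'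
  have hq1' : a q < b q := by linarith
  have hAm : C.A m = Ico y0 (b m) := by rw [hab, hm2]
  have hmq : m ≠ q := by
    rintro rfl
    have ht : C.t m = 0 := by linarith
    have hx : a m ∈ C.A m := by rw [hab]; exact ⟨le_rfl, hm1⟩
    have := C.ret m _ hx
    rw [ht, add_zero] at this
    exact E.aperiodic hE (C.sub m hx) (C.hpos m) this
  have hdj : ∀ x, x ∈ C.A m → x ∈ C.A q → False := fun x h1 h2 => hmq (C.disj _ _ _ h1 h2)
  rcases le_or_gt (b m) (b q + C.t q) with hcase | hcase
  · -- `A m` is removed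
    have hKq : ∀ x ∈ Ico y0 (b m), x - C.t q ∈ C.A q := by
      intro x hx
      rw [hab q]
      exact ⟨by linarith [hx.1], by linarith [hx.2]⟩
    have hKe : ∀ x ∈ C.A m, x ∈ Ico y0 (b m) ∨ x + C.t q ∈ Ico y0 (b m) := by
      intro x hx
      left
      rwa [← hAm]
    have hKne : (Ico y0 (b m)).Nonempty := ⟨y0, le_rfl, by linarith⟩
    obtain ⟨f1, f2, f3, f4⟩ := C.step_facts m q m hmq (Or.inl rfl) (Ico y0 (b m))
      measurableSet_Ico hAm.ge hKq hKe hKne
    have g1 := C.step_A_e m q m hmq (Or.inl rfl) (Ico y0 (b m))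
      measurableSet_Ico hAm.ge hKq hKe
    have g2 := fun i => C.step_A_ne m q m hmq (Or.inl rfl) (Ico y0 (b m))
      measurableSet_Ico hAm.ge hKq hKe (i := i)
    set C' := C.step m q m hmq (Or.inl rfl) (Ico y0 (b m)) measurableSet_Ico hAm.ge hKq hKe
    have hbm : b m ≤ y1 := by
      by_contra hcon
      rw [not_le] at hcon
      have h1 := (hU y1).1 ⟨m, by linarith, hcon⟩
      exact lt_irrefl _ h1.2
    have hcov : ∀ x, (∃ i, x ∈ C'.A i) ↔ x ∈ Ico (b m) y1 := by
      intro x
      rw [f4, hC.2, mem_Ico, mem_Ico, mem_Ico]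
      constructor
      · rintro ⟨⟨h1, h2⟩, h3⟩
        refine ⟨?_, h2⟩
        by_contra hcon
        exact h3 ⟨h1, not_le.1 hcon⟩
      · rintro ⟨h1, h2⟩
        exact ⟨⟨by linarith, h2⟩, fun h => absurd h.2 (not_lt.2 h1)⟩
    have hlt : b m < y1 := by
      obtain ⟨x, hx⟩ := hKne
      have : x - C.t q ∈ C'.A m := by
        rw [g1, mem_ofPred_eq, sub_add_cancel]
        exact hx
      have := (hcov _).1 ⟨m, this⟩
      exact this.1.trans_lt this.2
    refine ⟨C', b m, by linarith, hlt, ⟨?_, hcov⟩, f1, f2, f3, m, hAm.ge⟩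
    intro i
    by_cases him : i = m
    · subst him
      refine ⟨y0 - C.t q, b i - C.t q, ?_⟩
      rw [g1]
      ext x
      simp only [mem_ofPred_eq, mem_Ico]
      constructor
      · rintro ⟨h1, h2⟩
        constructor <;> linarith
      · rintro ⟨h1, h2⟩
        constructor <;> linarith
    · by_cases hiq : i = q
      · subst hiq
        refine ⟨b m - C.t i, b i, ?_⟩
        rw [g2 i him]
        ext x
        simp only [mem_sdiff, mem_union, mem_ofPred_eq, mem_Ico, hab i, not_or, not_and, not_lt]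
        constructor
        · rintro ⟨⟨h1, h2⟩, h3, h4⟩
          refine ⟨?_, h2⟩
          have := h3 (by linarith)
          linarith
        · rintro ⟨h1, h2⟩
          have h3 : x ∈ C.A i := by rw [hab]; exact ⟨by linarith, h2⟩
          refine ⟨⟨by linarith, h2⟩, fun h => by linarith, fun h => ?_⟩
          by_contra hcon
          apply hdj x _ h3
          rw [hAm]
          exact ⟨h, not_le.1 hcon⟩
      · refine ⟨a i, b i, ?_⟩
        rw [g2 i him, ← hab i]
        ext x
        constructor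
        · intro h
          exact h.1
        · intro h
          refine ⟨h, ?_⟩
          rintro (h1 | h1)
          · have := hKq _ h1
            rw [add_sub_cancel_right] at this
            exact hiq (C.disj _ _ _ h this)
          · exact him (C.disj _ _ _ h (hAm.ge h1))
  · -- the image of `A q` is removed
    have hKm : Ico y0 (b q + C.t q) ⊆ C.A m := by
      rw [hAm]
      exact Ico_subset_Ico_right hcase.le
    have hKq : ∀ x ∈ Ico y0 (b q + C.t q), x - C.t q ∈ C.A q := by
      intro x hx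
      rw [hab q]
      exact ⟨by linarith [hx.1], by linarith [hx.2]⟩
    have hKe : ∀ x ∈ C.A q, x ∈ Ico y0 (b q + C.t q) ∨ x + C.t q ∈ Ico y0 (b q + C.t q) := by
      intro x hx
      right
      rw [hab q] at hx
      exact ⟨by linarith [hx.1], by linarith [hx.2]⟩
    have hKne : (Ico y0 (b q + C.t q)).Nonempty := ⟨y0, le_rfl, by linarith⟩
    obtain ⟨f1, f2, f3, f4⟩ := C.step_facts m q q hmq (Or.inr rfl) (Ico y0 (b q + C.t q))
      measurableSet_Ico hKm hKq hKe hKne
    have g1 := C.step_A_e m q q hmq (Or.inr rfl) (Ico y0 (b q + C.t q))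
      measurableSet_Ico hKm hKq hKe
    have g2 := fun i => C.step_A_ne m q q hmq (Or.inr rfl) (Ico y0 (b q + C.t q))
      measurableSet_Ico hKm hKq hKe (i := i)
    set C' := C.step m q q hmq (Or.inr rfl) (Ico y0 (b q + C.t q)) measurableSet_Ico hKm hKq hKe
    have hbm : b m ≤ y1 := by
      by_contra hcon
      rw [not_le] at hcon
      have h1 := (hU y1).1 ⟨m, by linarith, hcon⟩
      exact lt_irrefl _ h1.2
    have hcov : ∀ x, (∃ i, x ∈ C'.A i) ↔ x ∈ Ico (b q + C.t q) y1 := by
      intro x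
      rw [f4, hC.2, mem_Ico, mem_Ico, mem_Ico]
      constructor
      · rintro ⟨⟨h1, h2⟩, h3⟩
        refine ⟨?_, h2⟩
        by_contra hcon
        exact h3 ⟨h1, not_le.1 hcon⟩
      · rintro ⟨h1, h2⟩
        exact ⟨⟨by linarith, h2⟩, fun h => absurd h.2 (not_lt.2 h1)⟩
    have hlt : b q + C.t q < y1 := by linarith
    refine ⟨C', b q + C.t q, by linarith, hlt, ⟨?_, hcov⟩, f1, f2, f3, m, hKm⟩
    intro i
    by_cases hiq : i = q
    · subst hiq
      refine ⟨a i, b i, ?_⟩
      rw [g1]
      ext x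
      simp only [mem_ofPred_eq, mem_Ico]
      constructor
      · rintro ⟨h1, h2⟩
        constructor <;> linarith
      · rintro ⟨h1, h2⟩
        constructor <;> linarith
    · by_cases him : i = m
      · subst him
        refine ⟨b q + C.t q, b i, ?_⟩
        rw [g2 i hiq]
        ext x
        simp only [mem_sdiff, mem_union, mem_ofPred_eq, mem_Ico, hAm, not_or, not_and, not_lt]
        constructor
        · rintro ⟨⟨h1, h2⟩, h3, h4⟩
          refine ⟨?_, h2⟩
          exact h4 h1
        · rintro ⟨h1, h2⟩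
          have h3 : x ∈ C.A i := by rw [hAm]; exact ⟨by linarith, h2⟩
          refine ⟨⟨by linarith, h2⟩, fun h => ?_, fun h => by linarith⟩
          by_contra hcon
          apply hdj x h3
          have := hKq (x + C.t q) ⟨h, not_le.1 hcon⟩
          rwa [add_sub_cancel_right] at this
      · refine ⟨a i, b i, ?_⟩
        rw [g2 i hiq, ← hab i]
        ext x
        constructor
        · intro h
          exact h.1
        · intro h
          refine ⟨h, ?_⟩
          rintro (h1 | h1)
          · have := hKq _ h1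
            rw [add_sub_cancel_right] at this
            exact hiq (C.disj _ _ _ h this)
          · exact him (C.disj _ _ _ h (hKm h1))

omit [TopologicalSpace G] [IsTopologicalGroup G] [CompactSpace G] [SecondCountableTopology G]
  [BorelSpace G] [ν.IsHaarMeasure] [IsProbabilityMeasure ν] in
/-- Heights are bounded by hitting times. -/
theorem h_le (C : Castle E ν) {y0 y1 α β : ℝ} (hC : C.IsIvl y0 y1) (h0 : y0 ≤ α) (h1 : β ≤ y1)
    {R : ℕ} (hR : ∀ x ∈ Ico (0:ℝ) 1, ∃ r, 0 < r ∧ r ≤ R ∧ E.map^[r] x ∈ Ico α β)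
    {i : Fin n} (hi : (C.A i).Nonempty) : C.h i ≤ R := by
  obtain ⟨x, hx⟩ := hi
  obtain ⟨r, hr0, hr1, hr2⟩ := hR x (C.sub i hx)
  by_contra hcon
  obtain ⟨j, hj⟩ := (hC.2 (E.map^[r] x)).2 ⟨h0.trans hr2.1, hr2.2.trans_le h1⟩
  exact C.noret i x hx r hr0 (by omega) j hj

theorem reach_aux (hE : Ergodic E.map leb) {α β : ℝ} (hαβ : α < β) {R : ℕ}
    (hR : ∀ x ∈ Ico (0:ℝ) 1, ∃ r, 0 < r ∧ r ≤ R ∧ E.map^[r] x ∈ Ico α β) (k : ℕ) :
    ∀ (C : Castle E ν) (y0 y1 : ℝ), C.IsIvl y0 y1 → y0 ≤ α → β ≤ y1 → C.NS α → C.NS β →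
      (∀ i, C.h i ≤ R) → n * R - ∑ i, C.h i ≤ k → ∃ C' : Castle E ν, C'.IsIvl α β := by
  induction k with
  | zero =>
    intro C y0 y1 hC h0 h1 hNα hNβ hh hk
    by_contra hcon
    have hbound : ∀ C' : Castle E ν, (∀ i, C'.h i ≤ R) → ∑ i, C'.h i ≤ n * R := by
      intro C' h
      calc ∑ i, C'.h i ≤ ∑ _i : Fin n, R := Finset.sum_le_sum fun i _ => h i
        _ = n * R := by simp
    have hsum : ∑ i, C.h i = n * R := by
      have := hbound C hh
      omega
    rcases eq_or_lt_of_le h1 with rfl | h1'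
    · rcases eq_or_lt_of_le h0 with rfl | h0'
      · exact hcon ⟨C, hC⟩
      · obtain ⟨C', y0', g1, g2, g3, g4, g5, g6, m, g7⟩ :=
          C.exists_left_step hE (by linarith) hC
        have hα : y0' ≤ α := by
          by_contra hc
          rw [not_le] at hc
          rcases hNα m with h | h
          · exact lt_irrefl _ (h α (g7 ⟨h0'.le, hc⟩))
          · exact absurd (h y0 (g7 ⟨le_rfl, g1⟩)) (not_le.2 h0')
        have hh' : ∀ i, C'.h i ≤ R := by
          intro i
          rcases g6 i with h | h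
          · rw [h]; exact hh i
          · exact C'.h_le g3 hα le_rfl hR h
        have := hbound C' hh'
        omega
    · obtain ⟨C', y1', g1, g2, g3, g4, g5, g6, m, g7⟩ :=
        C.exists_right_step hE (by linarith) hC
      have hβ : β ≤ y1' := by
        by_contra hc
        rw [not_le] at hc
        rcases hNβ m with h | h
        · exact lt_irrefl _ (h β (g7 ⟨hc.le, h1'⟩))
        · exact absurd (h y1' (g7 ⟨le_rfl, g2⟩)) (not_le.2 hc)
      have hh' : ∀ i, C'.h i ≤ R := by
        intro i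
        rcases g6 i with h | h
        · rw [h]; exact hh i
        · exact C'.h_le g3 h0 hβ hR h
      have := hbound C' hh'
      omega
  | succ k ih =>
    intro C y0 y1 hC h0 h1 hNα hNβ hh hk
    have hbound : ∀ C' : Castle E ν, (∀ i, C'.h i ≤ R) → ∑ i, C'.h i ≤ n * R := by
      intro C' h
      calc ∑ i, C'.h i ≤ ∑ _i : Fin n, R := Finset.sum_le_sum fun i _ => h i
        _ = n * R := by simp
    rcases eq_or_lt_of_le h1 with rfl | h1'
    · rcases eq_or_lt_of_le h0 with rfl | h0'
      · exact ⟨C, hC⟩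
      · obtain ⟨C', y0', g1, g2, g3, g4, g5, g6, m, g7⟩ :=
          C.exists_left_step hE (by linarith) hC
        have hα : y0' ≤ α := by
          by_contra hc
          rw [not_le] at hc
          rcases hNα m with h | h
          · exact lt_irrefl _ (h α (g7 ⟨h0'.le, hc⟩))
          · exact absurd (h y0 (g7 ⟨le_rfl, g1⟩)) (not_le.2 h0')
        have hh' : ∀ i, C'.h i ≤ R := by
          intro i
          rcases g6 i with h | h
          · rw [h]; exact hh i
          · exact C'.h_le g3 hα le_rfl hR h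
        have := hbound C' hh'
        exact ih C' y0' _ g3 hα le_rfl (hNα.of_ref g4) (hNβ.of_ref g4) hh' (by omega)
    · obtain ⟨C', y1', g1, g2, g3, g4, g5, g6, m, g7⟩ :=
        C.exists_right_step hE (by linarith) hC
      have hβ : β ≤ y1' := by
        by_contra hc
        rw [not_le] at hc
        rcases hNβ m with h | h
        · exact lt_irrefl _ (h β (g7 ⟨hc.le, h1'⟩))
        · exact absurd (h y1' (g7 ⟨le_rfl, g2⟩)) (not_le.2 hc)
      have hh' : ∀ i, C'.h i ≤ R := by
        intro i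
        rcases g6 i with h | h
        · rw [h]; exact hh i
        · exact C'.h_le g3 h0 hβ hR h
      have := hbound C' hh'
      exact ih C' y0 y1' g3 h0 hβ (hNα.of_ref g4) (hNβ.of_ref g4) hh' (by omega)

/-- There are castles over arbitrarily short intervals. -/
theorem exists_small (hE : Ergodic E.map leb) {ε : ℝ} (hε : 0 < ε) :
    ∃ (C : Castle E ν) (y1 : ℝ), 0 < y1 ∧ y1 < ε ∧ C.IsIvl 0 y1 := by
  set ε' := min ε 1 with hε'
  have hε'0 : 0 < ε' := lt_min hε one_pos
  have hε'1 : ε' ≤ 1 := min_le_right _ _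
  obtain ⟨R, hR⟩ := E.exists_hit_bound hE (α := 0) (β := ε')
    (Ico_subset_Ico_right hε'1) hε'0
  have key : ∀ k : ℕ, ∀ (C : Castle E ν) (y1 : ℝ), 0 < y1 → C.IsIvl 0 y1 →
      (∀ i, C.h i ≤ R) → n * R - ∑ i, C.h i ≤ k →
      ∃ (C : Castle E ν) (y1 : ℝ), 0 < y1 ∧ y1 < ε ∧ C.IsIvl 0 y1 := by
    intro k
    induction k with
    | zero =>
      intro C y1 hy1 hC hh hk
      obtain ⟨C', y1', g1, g2, g3, g4, g5, g6, m, g7⟩ := C.exists_right_step hE hy1 hC
      by_contra hcon
      push Not at hcon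
      have h1 : ε' ≤ y1' := by
        by_contra hc
        rw [not_le] at hc
        exact hcon C' y1' g1 (hc.trans_le (min_le_left _ _)) g3
      have hh' : ∀ i, C'.h i ≤ R := by
        intro i
        rcases g6 i with h | h
        · rw [h]; exact hh i
        · exact C'.h_le g3 le_rfl h1 hR h
      have h2 : ∑ i, C'.h i ≤ n * R := by
        calc ∑ i, C'.h i ≤ ∑ _i : Fin n, R := Finset.sum_le_sum fun i _ => hh' i
          _ = n * R := by simp
      omega
    | succ k ih =>
      intro C y1 hy1 hC hh hk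
      obtain ⟨C', y1', g1, g2, g3, g4, g5, g6, m, g7⟩ := C.exists_right_step hE hy1 hC
      rcases lt_or_ge y1' ε' with h1 | h1
      · exact ⟨C', y1', g1, h1.trans_le (min_le_left _ _), g3⟩
      · have hh' : ∀ i, C'.h i ≤ R := by
          intro i
          rcases g6 i with h | h
          · rw [h]; exact hh i
          · exact C'.h_le g3 le_rfl h1 hR h
        have h2 : ∑ i, C'.h i ≤ n * R := by
          calc ∑ i, C'.h i ≤ ∑ _i : Fin n, R := Finset.sum_le_sum fun i _ => hh' i
            _ = n * R := by simp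
        exact ih C' y1' g1 g3 hh' (by omega)
  have hbase : (baseCastle E ν).IsIvl 0 1 := by
    refine ⟨fun i => ⟨_, _, rfl⟩, ?_⟩
    intro x
    constructor
    · rintro ⟨i, hi⟩
      exact E.interval_sub i hi
    · intro hx
      exact E.exists_interval hx
  refine key _ (baseCastle E ν) 1 one_pos hbase ?_ le_rfl
  intro i
  apply (baseCastle E ν).h_le hbase le_rfl hε'1 hR
  exact ⟨E.left i, le_rfl, by linarith [E.len_pos i]⟩

omit [TopologicalSpace G] [IsTopologicalGroup G] [CompactSpace G] [SecondCountableTopology G]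
  [BorelSpace G] [ν.IsHaarMeasure] [IsProbabilityMeasure ν] in
theorem IsIvl.ns_left {C : Castle E ν} {y0 y1 : ℝ} (hC : C.IsIvl y0 y1) {j : Fin n} {α β : ℝ}
    (hj : C.A j = Ico α β) (hαβ : α < β) : C.NS α := by
  intro i
  by_cases hij : i = j
  · subst hij
    right
    intro x hx
    rw [hj] at hx
    exact hx.1
  · obtain ⟨a, b, hab⟩ := hC.1 i
    by_contra hcon
    push Not at hcon
    obtain ⟨⟨x, hx, hx'⟩, y, hy, hy'⟩ := hcon
    rw [hab] at hx hy
    apply hij
    apply C.disj i j α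
    · rw [hab]; exact ⟨hy.1.trans hy'.le, hx'.trans_lt hx.2⟩
    · rw [hj]; exact ⟨le_rfl, hαβ⟩

omit [TopologicalSpace G] [IsTopologicalGroup G] [CompactSpace G] [SecondCountableTopology G]
  [BorelSpace G] [ν.IsHaarMeasure] [IsProbabilityMeasure ν] in
theorem IsIvl.ns_right {C : Castle E ν} {y0 y1 : ℝ} (hC : C.IsIvl y0 y1) {j : Fin n} {α β : ℝ}
    (hj : C.A j = Ico α β) (hαβ : α < β) : C.NS β := by
  intro i
  by_cases hij : i = j
  · subst hij
    left
    intro x hx
    rw [hj] at hx
    exact hx.2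
  · obtain ⟨a, b, hab⟩ := hC.1 i
    by_contra hcon
    push Not at hcon
    obtain ⟨⟨x, hx, hx'⟩, y, hy, hy'⟩ := hcon
    rw [hab] at hx hy
    apply hij
    have h1 : max y α ∈ C.A i := by
      rw [hab]
      refine ⟨hy.1.trans (le_max_left _ _), ?_⟩
      apply max_lt hy.2
      linarith [hx.2]
    have h2 : max y α ∈ C.A j := by
      rw [hj]
      exact ⟨le_max_right _ _, max_lt hy' hαβ⟩
    exact C.disj i j _ h1 h2

/-- Induction to a letter. -/
theorem exists_over_letter (hE : Ergodic E.map leb) (C : Castle E ν) {y0 y1 : ℝ}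
    (hC : C.IsIvl y0 y1) {j : Fin n} {α β : ℝ} (hj : C.A j = Ico α β) (hαβ : α < β) :
    ∃ C' : Castle E ν, C'.IsIvl α β := by
  have hJ : Ico α β ⊆ Ico 0 1 := hj ▸ C.sub j
  obtain ⟨R, hR⟩ := E.exists_hit_bound hE hJ hαβ
  have hsub : Ico α β ⊆ Ico y0 y1 := by
    intro x hx
    rw [← hC.2]
    exact ⟨j, by rw [hj]; exact hx⟩
  have h0 : y0 ≤ α := (hsub ⟨le_rfl, hαβ⟩).1
  have h1 : β ≤ y1 := by
    by_contra hcon
    rw [not_le] at hcon
    have : max α y1 ∈ Ico α β := ⟨le_max_left _ _, max_lt hαβ hcon⟩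
    exact absurd (hsub this).2 (not_lt.2 (le_max_right _ _))
  -- enlarge `R` to bound all the heights
  set R' := max R (∑ i, C.h i) with hR'
  refine reach_aux hE hαβ (R := R') ?_ _ C y0 y1 hC h0 h1 (hC.ns_left hj hαβ)
    (hC.ns_right hj hαβ) ?_ le_rfl
  · intro x hx
    obtain ⟨r, hr0, hr1, hr2⟩ := hR x hx
    exact ⟨r, hr0, hr1.trans (le_max_left _ _), hr2⟩
  · intro i
    exact (Finset.single_le_sum (f := C.h) (fun _ _ => Nat.zero_le _) (Finset.mem_univ i)).trans
      (le_max_right _ _)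

end

end Castle

end Pool.Agent.Skew
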