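import Mathlib
import Pool.Agent.Helper12.Skew.Reach

/-!
# Small oscillation on one of many disjoint translates
-/

namespace Pool.Agent.Skew

open MeasureTheory Set
open scoped ENNReal

/-- At scale `δ`, on one of `N` disjoint translates of an interval of total length at least `κ`
the function `F` is close to a constant. -/
def OscProp {V : Type*} [NormedAddCommGroup V] (F : ℝ → V) (ε κ δ : ℝ) : Prop :=
  ∀ (c d : ℝ) (N : ℕ) (s : ℕ → ℝ), c < d → d - c < δ → κ ≤ N * (d - c) →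
    (∀ l < N, Ico (c + s l) (d + s l) ⊆ Ico 0 1) →
    (∀ l < N, ∀ l' < N, l ≠ l' → Disjoint (Ico (c + s l) (d + s l)) (Ico (c + s l') (d + s l'))) →
    ∃ l < N, ∃ u : V, volume {x ∈ Ico (c + s l) (d + s l) | ε ≤ ‖F x - u‖} ≤
      ENNReal.ofReal (ε * (d - c))

theorem OscProp.mono {V : Type*} [NormedAddCommGroup V] {F : ℝ → V} {ε κ δ δ' : ℝ}
    (h : OscProp F ε κ δ) (hδ : δ' ≤ δ) : OscProp F ε κ δ' :=
  fun c d N s h1 h2 => h c d N s h1 (h2.trans_le hδ)

theorem exists_osc {V : Type*} [NormedAddCommGroup V] [NormedSpace ℂ V] [FiniteDimensional ℂ V]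
    [MeasurableSpace V] [BorelSpace V] {F : ℝ → V} (hF : Measurable F)
    (hF1 : ∀ᵐ x ∂leb, ‖F x‖ = 1) {ε κ : ℝ} (hε : 0 < ε) (hκ : 0 < κ) :
    ∃ δ > 0, OscProp F ε κ δ := by
  have : ProperSpace V := FiniteDimensional.proper ℂ V
  have : SecondCountableTopology V := inferInstance
  let _ : NormedSpace ℝ V := NormedSpace.restrictScalars ℝ ℂ V
  -- integrable version
  set f : ℝ → V := (Ico (0:ℝ) 1).indicator F with hf
  have hfi : Integrable f volume := by
    rw [hf, integrable_indicator_iff measurableSet_Ico]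
    have hfin : IsFiniteMeasure (volume.restrict (Ico (0:ℝ) 1)) := by
      constructor
      simp
    apply Integrable.of_bound hF.aestronglyMeasurable 1
    filter_upwards [hF1] with x hx
    rw [hx]
  set η : ℝ := ε ^ 2 * κ / 2 / 2 with hη
  have hη0 : 0 < η := by positivity
  obtain ⟨φ, hφc, hφ1, hφ2, -⟩ := hfi.exists_hasCompactSupport_lintegral_sub_le
    (ε := ENNReal.ofReal η) (by simpa using hη0)
  have huc := hφc.uniformContinuous_of_continuous hφ2
  obtain ⟨δ, hδ, hδ'⟩ := Metric.uniformContinuous_iff.1 huc (ε / 2) (by positivity)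
  refine ⟨δ, hδ, ?_⟩
  intro c d N s hcd hlen hN hsub hdisj
  have hm : ∀ l, MeasurableSet (Ico (c + s l) (d + s l)) := fun l => measurableSet_Ico
  -- choose a good translate
  obtain ⟨l, hl, hl2⟩ : ∃ l < N, ∫⁻ x in Ico (c + s l) (d + s l), ‖f x - φ x‖ₑ ≤
      ENNReal.ofReal (ε ^ 2 / 2 * (d - c)) := by
    by_contra hcon
    push Not at hcon
    have h1 : ∑ l ∈ Finset.range N, ∫⁻ x in Ico (c + s l) (d + s l), ‖f x - φ x‖ₑ ≤
        ENNReal.ofReal η := by
      rw [← lintegral_biUnion_finset]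
      · exact (setLIntegral_le_lintegral _ _).trans hφ1
      · intro l hl l' hl' hne
        exact hdisj l (by simpa using hl) l' (by simpa using hl') hne
      · intro l _
        exact hm l
    have h2 : (N : ℝ≥0∞) * ENNReal.ofReal (ε ^ 2 / 2 * (d - c)) ≤ ENNReal.ofReal η := by
      refine le_trans ?_ h1
      calc (N : ℝ≥0∞) * ENNReal.ofReal (ε ^ 2 / 2 * (d - c))
          = ∑ _l ∈ Finset.range N, ENNReal.ofReal (ε ^ 2 / 2 * (d - c)) := by simp
        _ ≤ _ := Finset.sum_le_sum fun l hl => (hcon l (by simpa using hl)).le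
    rw [← ENNReal.ofReal_natCast, ← ENNReal.ofReal_mul (by positivity),
      ENNReal.ofReal_le_ofReal_iff hη0.le] at h2
    have h3 : ε ^ 2 / 2 * κ ≤ ε ^ 2 / 2 * (N * (d - c)) :=
      mul_le_mul_of_nonneg_left hN (by positivity)
    have h4 : 0 < ε ^ 2 * κ := by positivity
    rw [hη] at h2
    nlinarith
  refine ⟨l, hl, φ (c + s l), ?_⟩
  have h5 : {x ∈ Ico (c + s l) (d + s l) | ε ≤ ‖F x - φ (c + s l)‖} ⊆
      {x | ENNReal.ofReal (ε / 2) ≤ ‖f x - φ x‖ₑ} ∩ Ico (c + s l) (d + s l) := by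
    rintro x ⟨hx, hx2⟩
    refine ⟨?_, hx⟩
    have h6 : f x = F x := by rw [hf, indicator_of_mem (hsub l hl hx)]
    have h7 : dist (φ x) (φ (c + s l)) < ε / 2 := by
      apply hδ'
      rw [Real.dist_eq, abs_of_nonneg (by linarith [hx.1])]
      linarith [hx.2]
    rw [mem_ofPred_eq, h6, ← ofReal_norm]
    apply ENNReal.ofReal_le_ofReal
    rw [dist_eq_norm] at h7
    have h8 : ‖F x - φ (c + s l)‖ ≤ ‖F x - φ x‖ + ‖φ x - φ (c + s l)‖ := by
      have : F x - φ (c + s l) = (F x - φ x) + (φ x - φ (c + s l)) := by abel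
      rw [this]; exact norm_add_le _ _
    linarith
  have h9 : ENNReal.ofReal (ε / 2) *
      volume.restrict (Ico (c + s l) (d + s l)) {x | ENNReal.ofReal (ε / 2) ≤ ‖f x - φ x‖ₑ} ≤
      ENNReal.ofReal (ε ^ 2 / 2 * (d - c)) := by
    refine le_trans ?_ hl2
    apply mul_meas_ge_le_lintegral₀
    exact (hfi.aestronglyMeasurable.sub hφ2.aestronglyMeasurable).enorm.restrict
  have h10 : volume {x ∈ Ico (c + s l) (d + s l) | ε ≤ ‖F x - φ (c + s l)‖} ≤
      volume.restrict (Ico (c + s l) (d + s l)) {x | ENNReal.ofReal (ε / 2) ≤ ‖f x - φ x‖ₑ} :=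
    (measure_mono h5).trans (Measure.le_restrict_apply _ _)
  refine h10.trans ?_
  have h11 : ENNReal.ofReal (ε ^ 2 / 2 * (d - c)) =
      ENNReal.ofReal (ε / 2) * ENNReal.ofReal (ε * (d - c)) := by
    rw [← ENNReal.ofReal_mul (by positivity)]
    congr 1
    ring
  rw [h11] at h9
  exact (ENNReal.mul_le_mul_iff_right (by simpa using hε) ENNReal.ofReal_ne_top).1 h9

end Pool.Agent.Skew
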