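import Mathlib
import Pool.Agent.Helper12.Skew.Osc
import Pool.Agent.Helper12.Skew.Near

/-!
# Core: approximate common eigenvectors of a Haar distributed pair
-/

namespace Pool.Agent.Skew

open MeasureTheory Set Filter Topology
open scoped ENNReal

theorem find_point {S B1 B2 N : Set ℝ} (h : volume B1 + volume B2 < volume S)
    (hN : volume N = 0) : ∃ x ∈ S, x ∉ B1 ∧ x ∉ B2 ∧ x ∉ N := by
  by_contra hcon
  push Not at hcon
  have hsub : S ⊆ (B1 ∪ B2) ∪ N := by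
    intro x hx
    by_cases h1 : x ∈ B1
    · exact Or.inl (Or.inl h1)
    · by_cases h2 : x ∈ B2
      · exact Or.inl (Or.inr h2)
      · exact Or.inr (hcon x hx h1 h2)
  have h1 : volume S ≤ volume B1 + volume B2 := by
    calc volume S ≤ volume ((B1 ∪ B2) ∪ N) := measure_mono hsub
      _ ≤ volume (B1 ∪ B2) + volume N := measure_union_le _ _
      _ ≤ (volume B1 + volume B2) + volume N := by gcongr; exact measure_union_le _ _
      _ = volume B1 + volume B2 := by rw [hN, add_zero]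
  exact absurd h (not_lt.2 h1)

theorem translates {B Bad : Set ℝ} (hB : MeasurableSet B) (τ : ℝ) (M : ℕ)
    (h1 : ∀ x ∈ B, ∀ j < M, x + (j : ℝ) * τ ∈ Bad)
    (h2 : ∀ x ∈ B, ∀ y ∈ B, ∀ j < M, ∀ j' < M, j < j' → x + (j : ℝ) * τ ≠ y + (j' : ℝ) * τ) :
    (M : ℝ≥0∞) * volume B ≤ volume Bad := by
  have hm : ∀ j : ℕ, MeasurableSet ((fun x : ℝ => x + -((j : ℝ) * τ)) ⁻¹' B) :=
    fun j => (measurable_add_const _) hB
  have hv : ∀ j : ℕ, volume ((fun x : ℝ => x + -((j : ℝ) * τ)) ⁻¹' B) = volume B :=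
    fun j => measure_preimage_add_right volume _ B
  calc (M : ℝ≥0∞) * volume B
      = ∑ j ∈ Finset.range M, volume ((fun x : ℝ => x + -((j : ℝ) * τ)) ⁻¹' B) := by
        simp [hv]
    _ = volume (⋃ j ∈ Finset.range M, (fun x : ℝ => x + -((j : ℝ) * τ)) ⁻¹' B) := by
        rw [measure_biUnion_finset]
        · intro j hj j' hj' hne
          rw [Function.onFun, Set.disjoint_left]
          intro x hx hx'
          simp only [Finset.coe_range, mem_Iio] at hj hj'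
          simp only [mem_preimage] at hx hx'
          rcases lt_or_gt_of_ne hne with h | h
          · exact h2 _ hx _ hx' j hj j' hj' h (by ring)
          · exact h2 _ hx' _ hx j' hj' j hj h (by ring)
        · intro j _
          exact hm j
    _ ≤ volume Bad := by
        apply measure_mono
        intro x hx
        simp only [mem_iUnion, Finset.mem_range, mem_preimage, exists_prop] at hx
        obtain ⟨j, hj, hx⟩ := hx
        have := h1 _ hx j hj
        rwa [show x + -((j : ℝ) * τ) + (j : ℝ) * τ = x by ring] at this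

variable {n : ℕ} {E : IET n} {G : Type*} [Group G]
    {V : Type*} [NormedAddCommGroup V] [InnerProductSpace ℂ V]

theorem sol_iterate (ρ : G →* (V →L[ℂ] V)) {g : Fin n → G} {z : ℂ} {F : ℝ → V}
    (hFe : ∀ᵐ x ∂leb, F (E.map x) = z • ρ (E.simple g x) (F x)) :
    ∀ᵐ x ∂leb, ∀ l : ℕ, F (E.map^[l] x) = z ^ l • ρ (E.coc g l x) (F x) := by
  have h1 : ∀ l : ℕ, ∀ᵐ x ∂leb, F (E.map (E.map^[l] x)) =
      z • ρ (E.simple g (E.map^[l] x)) (F (E.map^[l] x)) := fun l =>
    (E.measurePreserving_map.iterate l).quasiMeasurePreserving.ae hFe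
  filter_upwards [ae_all_iff.2 h1] with x hx
  intro l
  induction l with
  | zero => simp [IET.coc]
  | succ l ih =>
    rw [Function.iterate_succ_apply', hx l, ih, E.coc_succ, map_mul, pow_succ', map_smul,
      smul_smul]
    rfl

/-- The set of points whose orbit satisfies the cocycle equation. -/
def GoodSet (E : IET n) (ρ : G →* (V →L[ℂ] V)) (g : Fin n → G) (z : ℂ) (F : ℝ → V) : Set ℝ :=
  {x | ∀ l : ℕ, F (E.map^[l] x) = z ^ l • ρ (E.coc g l x) (F x)}

theorem volume_bad (ρ : G →* (V →L[ℂ] V)) {g : Fin n → G} {z : ℂ} {F : ℝ → V}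
    (hFe : ∀ᵐ x ∂leb, F (E.map x) = z • ρ (E.simple g x) (F x)) :
    volume (Ico (0:ℝ) 1 \ GoodSet E ρ g z F) = 0 := by
  have h := sol_iterate ρ hFe
  rw [leb, ae_restrict_iff' measurableSet_Ico] at h
  rw [ae_iff] at h
  convert h using 2
  ext x
  simp only [Set.mem_sdiff, GoodSet, mem_ofPred_eq, Classical.not_imp]

theorem norm_tw (ρ : G →* (V →L[ℂ] V)) (hu : ∀ g v, ‖ρ g v‖ = ‖v‖) {z : ℂ} (hz : ‖z‖ = 1)
    (l : ℕ) (a : G) (v : V) : ‖z ^ l • ρ a v‖ = ‖v‖ := by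
  rw [norm_smul, norm_pow, hz, one_pow, one_mul, hu]

theorem tw_sub (ρ : G →* (V →L[ℂ] V)) {z : ℂ} (l : ℕ) (a : G) (v w : V) :
    z ^ l • ρ a v - z ^ l • ρ a w = z ^ l • ρ a (v - w) := by
  rw [map_sub, smul_sub]

/-- Basic estimate. -/
theorem return_near (ρ : G →* (V →L[ℂ] V)) (hu : ∀ g v, ‖ρ g v‖ = ‖v‖) {g : Fin n → G} {z : ℂ}
    (hz : ‖z‖ = 1) {F : ℝ → V} (hFe : ∀ᵐ x ∂leb, F (E.map x) = z • ρ (E.simple g x) (F x))
    {c d ε : ℝ} (hsub : Ico c d ⊆ Ico 0 1) {c0 : V}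
    (hbad : volume {x ∈ Ico c d | ε ≤ ‖F x - c0‖} ≤ ENNReal.ofReal (ε * (d - c)))
    {S : Set ℝ} {m : ℕ} {t : ℝ} {a : G}
    (hS : ∀ x ∈ S, x ∈ Ico c d ∧ x + t ∈ Ico c d ∧ E.map^[m] x = x + t ∧ E.coc g m x = a)
    (hSv : ENNReal.ofReal (ε * (d - c)) + ENNReal.ofReal (ε * (d - c)) < volume S) :
    ‖z ^ m • ρ a c0 - c0‖ ≤ 2 * ε := by
  obtain ⟨x, hx, h1, h2, h3⟩ := find_point (S := S) (B1 := {x ∈ Ico c d | ε ≤ ‖F x - c0‖})
    (B2 := (fun x => x + t) ⁻¹' {x ∈ Ico c d | ε ≤ ‖F x - c0‖})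
    (N := Ico (0:ℝ) 1 \ GoodSet E ρ g z F) (by
      rw [measure_preimage_add_right]
      exact (add_le_add hbad hbad).trans_lt hSv) (volume_bad ρ hFe)
  obtain ⟨h4, h5, h6, h7⟩ := hS x hx
  have h8 : ‖F x - c0‖ < ε := by
    by_contra hcon
    exact h1 ⟨h4, not_lt.1 hcon⟩
  have h9 : ‖F (x + t) - c0‖ < ε := by
    by_contra hcon
    exact h2 ⟨h5, not_lt.1 hcon⟩
  have h10 : x ∈ GoodSet E ρ g z F := by
    by_contra hcon
    exact h3 ⟨hsub h4, hcon⟩
  have h11 := h10 m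
  rw [h6, h7] at h11
  have h12 : z ^ m • ρ a c0 - c0 = z ^ m • ρ a (c0 - F x) + (F (x + t) - c0) := by
    rw [h11, ← tw_sub]
    abel
  rw [h12]
  have h13 := norm_add_le (z ^ m • ρ a (c0 - F x)) (F (x + t) - c0)
  rw [norm_tw ρ hu hz, norm_sub_rev c0] at h13
  linarith

variable [MeasurableSpace G] {ν : Measure G}

/-- The function is nearly constant on the base of a heavy tower. -/
theorem exists_center [FiniteDimensional ℂ V] [MeasurableSpace V] [BorelSpace V]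
    (ρ : G →* (V →L[ℂ] V)) (hu : ∀ g v, ‖ρ g v‖ = ‖v‖) (C : Castle E ν)
    {j : Fin n} {c d : ℝ} (hj : C.A j = Ico c d) (hcd : c < d) {δ ε κ : ℝ} (hlen : d - c < δ)
    (hκ : κ ≤ C.h j * (d - c)) {g : Fin n → G} {z : ℂ} (hz : ‖z‖ = 1) {F : ℝ → V}
    (hF1 : ∀ᵐ x ∂leb, ‖F x‖ = 1)
    (hFe : ∀ᵐ x ∂leb, F (E.map x) = z • ρ (E.simple g x) (F x))
    (hosc : OscProp F ε κ δ) (hε : 0 < ε) (hε2 : ε ≤ 1 / 2) :
    ∃ c0 : V, 1 / 2 ≤ ‖c0‖ ∧ ‖c0‖ ≤ 2 ∧
      volume {x ∈ Ico c d | ε ≤ ‖F x - c0‖} ≤ ENNReal.ofReal (ε * (d - c)) := by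
  have hsub : Ico c d ⊆ Ico 0 1 := hj ▸ C.sub j
  have hcc : c ∈ Ico c d := ⟨le_rfl, hcd⟩
  have hfl : ∀ x ∈ Ico c d, ∀ l < C.h j, E.Same (E.map^[l] x) (E.map^[l] c) := by
    intro x hx l hl
    rw [← hj] at hx hcc
    exact C.flat j x hx c hcc l hl
  set s : ℕ → ℝ := fun l => E.map^[l] c - c with hs
  have htr : ∀ x ∈ Ico c d, ∀ l ≤ C.h j, E.map^[l] x = x + s l := by
    intro x hx l hl
    have := E.flat_iterate (hfl x hx) hl
    simp only [hs]
    linarith
  have hpre : ∀ l, ∀ y ∈ Ico (c + s l) (d + s l), y - s l ∈ Ico c d := by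
    intro l y hy
    exact ⟨by linarith [hy.1], by linarith [hy.2]⟩
  obtain ⟨l, hl, u, hu2⟩ := hosc c d (C.h j) s hcd hlen hκ (by
      intro l hl y hy
      have h1 := hpre l y hy
      have h2 := htr _ h1 l hl.le
      rw [sub_add_cancel] at h2
      rw [← h2]
      exact E.iterate_mem (hsub h1) l) (by
      have key : ∀ l l', l < l' → l' < C.h j →
          Disjoint (Ico (c + s l) (d + s l)) (Ico (c + s l') (d + s l')) := by
        intro l l' hll hl'
        rw [Set.disjoint_left]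
        intro y hy hy'
        have h1 := hpre l y hy
        have h1' := hpre l' y hy'
        have h2 := htr _ h1 l (by omega)
        have h2' := htr _ h1' l' hl'.le
        rw [sub_add_cancel] at h2 h2'
        obtain ⟨k, rfl⟩ := Nat.exists_eq_add_of_lt hll
        rw [show l + k + 1 = l + (k + 1) by ring, Function.iterate_add_apply] at h2'
        have h3 := E.iterate_inj (hsub h1) (E.iterate_mem (hsub h1') (k + 1))
          (h2.trans h2'.symm)
        apply C.noret j (y - s (l + k + 1)) (by rw [hj]; exact h1') (k + 1) (by omega) (by omega) j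
        rw [← h3, hj]
        exact h1
      intro l hl l' hl' hne
      rcases lt_or_gt_of_ne hne with h | h
      · exact key l l' h hl'
      · exact (key l' l h hl).symm)
  -- pull back
  have hz0 : z ^ l ≠ 0 := by
    apply pow_ne_zero
    rintro rfl
    simp at hz
  set c0 : V := (z ^ l)⁻¹ • ρ (E.coc g l c)⁻¹ u with hc0
  have hc0' : z ^ l • ρ (E.coc g l c) c0 = u := by
    rw [hc0, map_smul, smul_smul, mul_inv_cancel₀ hz0, one_smul]
    have : ρ (E.coc g l c) (ρ (E.coc g l c)⁻¹ u) = (ρ (E.coc g l c) * ρ (E.coc g l c)⁻¹) u := rfl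
    rw [this, ← map_mul, mul_inv_cancel, map_one]
    rfl
  have hbad : volume {x ∈ Ico c d | ε ≤ ‖F x - c0‖} ≤ ENNReal.ofReal (ε * (d - c)) := by
    have hsub2 : {x ∈ Ico c d | ε ≤ ‖F x - c0‖} ⊆
        ((fun x => x + s l) ⁻¹' {x ∈ Ico (c + s l) (d + s l) | ε ≤ ‖F x - u‖}) ∪
          (Ico (0:ℝ) 1 \ GoodSet E ρ g z F) := by
      rintro x ⟨hx, hx2⟩
      by_cases hg : x ∈ GoodSet E ρ g z F
      · left
        refine ⟨⟨by linarith [hx.1], by linarith [hx.2]⟩, ?_⟩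
        have h1 := hg l
        rw [htr x hx l hl.le, E.flat_coc g (hfl x hx) hl.le] at h1
        change ε ≤ ‖F (x + s l) - u‖
        rw [h1, ← hc0', tw_sub, norm_tw ρ hu hz]
        exact hx2
      · right
        exact ⟨hsub hx, hg⟩
    calc volume {x ∈ Ico c d | ε ≤ ‖F x - c0‖}
        ≤ volume (((fun x => x + s l) ⁻¹' {x ∈ Ico (c + s l) (d + s l) | ε ≤ ‖F x - u‖}) ∪
          (Ico (0:ℝ) 1 \ GoodSet E ρ g z F)) := measure_mono hsub2
      _ ≤ volume ((fun x => x + s l) ⁻¹' {x ∈ Ico (c + s l) (d + s l) | ε ≤ ‖F x - u‖}) +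
          volume (Ico (0:ℝ) 1 \ GoodSet E ρ g z F) := measure_union_le _ _
      _ = volume {x ∈ Ico (c + s l) (d + s l) | ε ≤ ‖F x - u‖} := by
          rw [volume_bad ρ hFe, add_zero, measure_preimage_add_right]
      _ ≤ _ := hu2
  -- norm of the centre
  have hN : volume (Ico (0:ℝ) 1 \ {x | ‖F x‖ = 1}) = 0 := by
    have h := hF1
    rw [leb, ae_restrict_iff' measurableSet_Ico, ae_iff] at h
    convert h using 2
    ext x
    simp only [Set.mem_sdiff, mem_ofPred_eq, Classical.not_imp]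
  obtain ⟨x, hx, h1, -, h2⟩ := find_point (S := Ico c d)
    (B1 := {x ∈ Ico c d | ε ≤ ‖F x - c0‖}) (B2 := ∅) (N := Ico (0:ℝ) 1 \ {x | ‖F x‖ = 1}) (by
      rw [measure_empty, add_zero, Real.volume_Ico]
      refine hbad.trans_lt ?_
      rw [ENNReal.ofReal_lt_ofReal_iff (by linarith)]
      nlinarith) hN
  have h3 : ‖F x - c0‖ < ε := by
    by_contra hcon
    exact h1 ⟨hx, not_lt.1 hcon⟩
  have h4 : ‖F x‖ = 1 := by
    by_contra hcon
    exact h2 ⟨hsub hx, hcon⟩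
  refine ⟨c0, ?_, ?_, hbad⟩
  · have := norm_sub_norm_le (F x) c0
    linarith
  · have := norm_sub_norm_le c0 (F x)
    rw [norm_sub_rev] at this
    linarith

end Pool.Agent.Skew
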