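import Mathlib
import Pool.Agent.Helper12.Skew.Core

/-!
# Core, second part: the dichotomy
-/

namespace Pool.Agent.Skew

open MeasureTheory Set
open scoped ENNReal

variable {n : ℕ} {E : IET n} {G : Type*} [Group G] [MeasurableSpace G] {ν : Measure G}

/-- Volume of the base. -/
theorem Castle.IsIvl.sum_volume {C : Castle E ν} {c d : ℝ} (hC : C.IsIvl c d) {X : Set ℝ}
    (hX : MeasurableSet X) (hXs : X ⊆ Ico c d) :
    ∑ s, volume (C.A s ∩ X) = volume X := by
  have h1 : X = ⋃ s, C.A s ∩ X := by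
    ext x
    simp only [mem_iUnion, mem_inter_iff]
    constructor
    · intro hx
      obtain ⟨i, hi⟩ := (hC.2 x).2 (hXs hx)
      exact ⟨i, hi, hx⟩
    · rintro ⟨i, -, hx⟩
      exact hx
  conv_rhs => rw [h1]
  rw [measure_iUnion]
  · simp
  · intro i j hij
    rw [Function.onFun, Set.disjoint_left]
    intro x hx hx'
    exact hij (C.disj i j x hx.1 hx'.1)
  · intro i
    exact (C.meas i).inter hX

theorem exists_large {C : Castle E ν} {c d : ℝ} (hC : C.IsIvl c d) {X : Set ℝ}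
    (hX : MeasurableSet X) (hXs : X ⊆ Ico c d) {r : ℝ} (hr : 0 < r)
    (hv : ENNReal.ofReal r ≤ volume X) :
    ∃ s, ENNReal.ofReal (r / n) ≤ volume (C.A s ∩ X) := by
  have hn : (0:ℝ) < n := by exact_mod_cast E.n_pos
  by_contra hcon
  push Not at hcon
  have h1 := hC.sum_volume hX hXs
  have h2 : ∑ s, volume (C.A s ∩ X) < ∑ _s : Fin n, ENNReal.ofReal (r / n) := by
    apply ENNReal.sum_lt_sum_of_nonempty
    · exact ⟨⟨0, E.n_pos⟩, Finset.mem_univ _⟩
    · intro s _
      exact hcon s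
  rw [h1] at h2
  have h3 : ∑ _s : Fin n, ENNReal.ofReal (r / n) = ENNReal.ofReal r := by
    rw [Finset.sum_const, Finset.card_univ, Fintype.card_fin, nsmul_eq_mul,
      ← ENNReal.ofReal_natCast, ← ENNReal.ofReal_mul hn.le]
    congr 1
    field_simp
  rw [h3] at h2
  exact absurd h2 (not_lt.2 hv)

/-- Two consecutive castles: over `[c, d)` and over one of its letters `[α, β)`. -/
theorem letter_eq {CD CJ : Castle E ν} {c d α β : ℝ} (_hD : CD.IsIvl c d) {r : Fin n}
    (hr : CD.A r = Ico α β) (hJ : CJ.IsIvl α β) {s : Fin n} {x : ℝ} (hx : x ∈ CJ.A s)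
    (hxt : x + CD.t r ∈ Ico α β) : CJ.h s = CD.h r ∧ CJ.t s = CD.t r := by
  have hxJ : x ∈ Ico α β := (hJ.2 x).1 ⟨s, hx⟩
  have hxr : x ∈ CD.A r := by rw [hr]; exact hxJ
  have h1 : CJ.h s = CD.h r := by
    rcases lt_trichotomy (CJ.h s) (CD.h r) with h | h | h
    · exfalso
      apply CD.noret r x hxr (CJ.h s) (CJ.hpos s) h r
      rw [hr, ← hJ.2, CJ.ret s x hx, CJ.img]
      exact ⟨s, by rwa [add_sub_cancel_right]⟩
    · exact h
    · exfalso
      have h2 := CD.ret r x hxr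
      obtain ⟨i, hi⟩ := (hJ.2 _).2 hxt
      rw [← h2] at hi
      exact CJ.noret s x hx (CD.h r) (CD.hpos r) h i hi
  refine ⟨h1, ?_⟩
  have h2 := CD.ret r x hxr
  have h3 := CJ.ret s x hx
  rw [h1, h2] at h3
  linarith

/-- Orbits inside a letter. -/
theorem orb {CD : Castle E ν} {r : Fin n} (g : Fin n → G) (j : ℕ) (x : ℝ)
    (h : ∀ i < j, x + (i : ℝ) * CD.t r ∈ CD.A r) :
    E.map^[j * CD.h r] x = x + (j : ℝ) * CD.t r ∧ E.coc g (j * CD.h r) x = CD.w r g ^ j := by
  induction j with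
  | zero => simp [IET.coc]
  | succ j ih =>
    obtain ⟨h1, h2⟩ := ih fun i hi => h i (by omega)
    have h3 := h j (by omega)
    constructor
    · rw [add_mul, one_mul, add_comm, Function.iterate_add_apply, h1, CD.ret r _ h3]
      push_cast
      ring
    · rw [add_mul, one_mul, E.coc_add, h1, CD.word r _ h3, h2, pow_succ']

/-- Convexity along an arithmetic progression. -/
theorem ap_convex {α β x τ : ℝ} (h0 : x ∈ Ico α β) {j : ℕ} (hj : x + (j : ℝ) * τ ∈ Ico α β)
    {i : ℕ} (hi : i ≤ j) : x + (i : ℝ) * τ ∈ Ico α β := by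
  have hij : (i : ℝ) ≤ j := by exact_mod_cast hi
  have hi0 : (0:ℝ) ≤ i := Nat.cast_nonneg i
  rcases le_total 0 τ with hτ | hτ
  · have h1 : (i : ℝ) * τ ≤ j * τ := mul_le_mul_of_nonneg_right hij hτ
    have h2 : 0 ≤ (i : ℝ) * τ := mul_nonneg hi0 hτ
    exact ⟨by linarith [h0.1], by linarith [hj.2]⟩
  · have h1 : (j : ℝ) * τ ≤ i * τ := mul_le_mul_of_nonpos_right hij hτ
    have h2 : (i : ℝ) * τ ≤ 0 := mul_nonpos_of_nonneg_of_nonpos hi0 hτ
    exact ⟨by linarith [hj.1], by linarith [h0.2]⟩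

/-- Going away from the exit. -/
theorem ap_back {α β x τ : ℝ} (h0 : x ∈ Ico α β) (h1 : x - τ ∉ Ico α β) {j : ℕ}
    (hj : ((j : ℝ) + 1) * |τ| ≤ β - α) : x + (j : ℝ) * τ ∈ Ico α β := by
  have hj0 : (0:ℝ) ≤ j := Nat.cast_nonneg j
  rw [mem_Ico, not_and_or, not_le, not_lt] at h1
  rcases le_total 0 τ with hτ | hτ
  · rw [abs_of_nonneg hτ] at hj
    have h2 : 0 ≤ (j : ℝ) * τ := mul_nonneg hj0 hτ
    rcases h1 with h1 | h1
    · exact ⟨by linarith [h0.1], by nlinarith [h0.1]⟩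
    · exfalso; linarith [h0.2]
  · rw [abs_of_nonpos hτ] at hj
    have h2 : (j : ℝ) * τ ≤ 0 := mul_nonpos_of_nonneg_of_nonpos hj0 hτ
    rcases h1 with h1 | h1
    · exfalso; linarith [h0.1]
    · exact ⟨by nlinarith [h0.2], by linarith [h0.2]⟩

variable {V : Type*} [NormedAddCommGroup V] [InnerProductSpace ℂ V]

/-- Second case of the dichotomy. -/
theorem case_two (hE : Ergodic E.map leb) (ρ : G →* (V →L[ℂ] V)) (hu : ∀ g v, ‖ρ g v‖ = ‖v‖)
    {CD CJ : Castle E ν} {c d α β : ℝ} (hcd : c < d) (hD : CD.IsIvl c d) {r : Fin n}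
    (hr : CD.A r = Ico α β) (hαβ : α < β) (hJ : CJ.IsIvl α β)
    (hlong : 7 / 8 * (d - c) ≤ β - α) :
    ∃ s1 s2 : Fin n, s1 ≠ s2 ∧ ∀ (ε : ℝ), 0 < ε → ε ≤ 1 / (32 * n) →
      ∀ (g : Fin n → G) (z : ℂ) (F : ℝ → V) (c0 : V), Measurable (fun x => ‖F x - c0‖) → ‖z‖ = 1 →
      (∀ᵐ x ∂leb, F (E.map x) = z • ρ (E.simple g x) (F x)) →
      volume {x ∈ Ico c d | ε ≤ ‖F x - c0‖} ≤ ENNReal.ofReal (ε * (d - c)) →
      ∃ l1 l2 : ℕ, ‖z ^ l1 • ρ (CJ.w s1 g) c0 - c0‖ ≤ 6 * ε ∧
        ‖z ^ l2 • ρ (CJ.w s2 g) c0 - c0‖ ≤ 6 * ε := by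
  have hn : (0:ℝ) < n := by exact_mod_cast E.n_pos
  have hn1 : (1:ℝ) ≤ n := by exact_mod_cast E.n_pos
  have hsubJ : Ico α β ⊆ Ico c d := by
    intro x hx
    rw [← hD.2]
    exact ⟨r, by rw [hr]; exact hx⟩
  have hsub : Ico c d ⊆ Ico 0 1 := by
    intro x hx
    rw [← hD.2] at hx
    obtain ⟨i, hi⟩ := hx
    exact CD.sub i hi
  set τ := CD.t r with hτ
  set H := CD.h r with hH
  have hshift : ∀ x ∈ Ico α β, x + τ ∈ Ico c d := by
    intro x hx
    rw [← hD.2, CD.img]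
    exact ⟨r, by rw [← hτ, add_sub_cancel_right, hr]; exact hx⟩
  have hα : α ∈ Ico α β := ⟨le_rfl, hαβ⟩
  have hcα : c ≤ α := (hsubJ hα).1
  have hβd : β ≤ d := by
    by_contra hcon
    rw [not_le] at hcon
    have : max α d ∈ Ico α β := ⟨le_max_left _ _, max_lt hαβ hcon⟩
    exact absurd (hsubJ this).2 (not_lt.2 (le_max_right _ _))
  have hβτ : β + τ ≤ d := by
    by_contra hcon
    rw [not_le] at hcon
    have h1 : max α (d - τ) ∈ Ico α β := ⟨le_max_left _ _, max_lt hαβ (by linarith)⟩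
    have h2 := (hshift _ h1).2
    linarith [le_max_right α (d - τ)]
  have hατ : c ≤ α + τ := (hshift α hα).1
  have habs : |τ| ≤ (d - c) / 8 := by
    rw [abs_le]
    constructor <;> linarith
  have hτ0 : τ ≠ 0 := by
    intro h0
    have h1 := CD.ret r α (by rw [hr]; exact hα)
    rw [← hτ, h0, add_zero] at h1
    exact E.aperiodic hE (hsub (hsubJ hα)) (CD.hpos r) h1
  have hτpos : 0 < |τ| := abs_pos.2 hτ0
  -- the exit set
  set Xout : Set ℝ := {x | x ∈ Ico α β ∧ x + τ ∉ Ico α β} with hXout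
  have hXm : MeasurableSet Xout :=
    measurableSet_Ico.inter ((measurable_add_const τ) measurableSet_Ico.compl)
  have hXv : ENNReal.ofReal |τ| ≤ volume Xout := by
    rcases le_total 0 τ with h | h
    · have h1 : Ico (β - τ) β ⊆ Xout := by
        intro x hx
        rw [abs_of_nonneg h] at habs
        exact ⟨⟨by linarith [hx.1], hx.2⟩, fun h2 => by linarith [hx.1, h2.2]⟩
      calc ENNReal.ofReal |τ| = volume (Ico (β - τ) β) := by
            rw [Real.volume_Ico, abs_of_nonneg h]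
            congr 1; ring
        _ ≤ _ := measure_mono h1
    · have h1 : Ico α (α - τ) ⊆ Xout := by
        intro x hx
        rw [abs_of_nonpos h] at habs
        exact ⟨⟨hx.1, by linarith [hx.2]⟩, fun h2 => by linarith [hx.2, h2.1]⟩
      calc ENNReal.ofReal |τ| = volume (Ico α (α - τ)) := by
            rw [Real.volume_Ico, abs_of_nonpos h]
            congr 1; ring
        _ ≤ _ := measure_mono h1
  obtain ⟨s2, hs2⟩ := exists_large hJ hXm (fun x hx => hx.1) hτpos hXv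
  -- the letter with the long word
  obtain ⟨x0, hx0, hx0τ⟩ : ∃ x0 ∈ Ico α β, x0 + τ ∈ Ico α β := by
    rcases le_total 0 τ with h | h
    · rw [abs_of_nonneg h] at habs
      exact ⟨α, hα, by linarith, by linarith⟩
    · rw [abs_of_nonpos h] at habs
      exact ⟨α - τ, ⟨by linarith, by linarith⟩, by linarith, by linarith⟩
  obtain ⟨s1, hs1⟩ := (hJ.2 x0).2 hx0
  obtain ⟨hs1h, hs1t⟩ := letter_eq hD hr hJ hs1 hx0τ
  have hs1w : ∀ g, CJ.w s1 g = CD.w r g := by
    intro g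
    rw [← CJ.word s1 x0 hs1 g, hs1h, CD.word r x0 (by rw [hr]; exact hx0) g]
  have hne : s1 ≠ s2 := by
    rintro rfl
    have hpos : 0 < volume (CJ.A s1 ∩ Xout) := by
      refine lt_of_lt_of_le ?_ hs2
      rw [ENNReal.ofReal_pos]
      positivity
    obtain ⟨x, hx1, hx2⟩ := nonempty_of_measure_ne_zero hpos.ne'
    apply hx2.2
    rw [hτ, ← hs1t, ← hJ.2, CJ.img]
    exact ⟨s1, by rwa [add_sub_cancel_right]⟩
  refine ⟨s1, s2, hne, ?_⟩
  intro ε hε hε' g z F c0 hFm hz hFe hbad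
  -- constants
  have hεn : ε * (32 * n) ≤ 1 := by
    rw [le_div_iff₀ (by positivity)] at hε'
    exact hε'
  have hε32 : ε ≤ 1 / 32 := by
    rw [le_div_iff₀ (by norm_num)]
    nlinarith
  set M : ℕ := ⌊(β - α) / (2 * |τ|)⌋₊ with hM
  have hM1 : (M : ℝ) * |τ| ≤ (β - α) / 2 := by
    have h1 : (M : ℝ) ≤ (β - α) / (2 * |τ|) := Nat.floor_le (by
      apply div_nonneg (by linarith) (by positivity))
    rw [le_div_iff₀ (by positivity)] at h1
    linarith
  have hM2 : (d - c) / 4 ≤ (M : ℝ) * |τ| := by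
    have h1 : (β - α) / (2 * |τ|) < M + 1 := Nat.lt_floor_add_one _
    rw [div_lt_iff₀ (by positivity)] at h1
    nlinarith
  have hM0 : (0:ℝ) < M := by
    by_contra hcon
    rw [not_lt] at hcon
    have : (M : ℝ) * |τ| ≤ 0 := mul_nonpos_of_nonpos_of_nonneg hcon hτpos.le
    linarith
  have hM0' : 0 < M := by exact_mod_cast hM0
  set Bad : Set ℝ := {x ∈ Ico c d | ε ≤ ‖F x - c0‖} with hBad
  have hBadm : MeasurableSet Bad :=
    measurableSet_Ico.inter (measurableSet_le measurable_const hFm)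
  -- (i) powers of the long word almost fix the centre
  have hpow : ∀ j ≤ M, ‖z ^ (j * H) • ρ (CD.w r g ^ j) c0 - c0‖ ≤ 2 * ε := by
    intro j hj
    have hjM : (j : ℝ) ≤ M := by exact_mod_cast hj
    have hj0 : (0:ℝ) ≤ j := Nat.cast_nonneg j
    have hjτ : |(j : ℝ) * τ| ≤ (β - α) / 2 := by
      rw [abs_mul, abs_of_nonneg hj0]
      exact (mul_le_mul_of_nonneg_right hjM hτpos.le).trans hM1
    rw [abs_le] at hjτ
    apply return_near ρ hu hz hFe hsub hbad (t := (j : ℝ) * τ)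
      (S := {x | x ∈ Ico α β ∧ x + (j : ℝ) * τ ∈ Ico α β})
    · rintro x ⟨h1, h2⟩
      have h3 := orb (CD := CD) (r := r) g j x (fun i hi => by
        rw [hr]; exact ap_convex h1 h2 hi.le)
      exact ⟨hsubJ h1, hsubJ h2, h3.1, h3.2⟩
    · have h1 : Ico (max α (α - (j : ℝ) * τ)) (min β (β - (j : ℝ) * τ)) ⊆
          {x | x ∈ Ico α β ∧ x + (j : ℝ) * τ ∈ Ico α β} := by
        intro x hx
        have h2 := hx.1
        have h3 := hx.2
        rw [max_le_iff] at h2
        rw [lt_min_iff] at h3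
        exact ⟨⟨h2.1, h3.1⟩, by linarith [h2.2], by linarith [h3.2]⟩
      refine lt_of_lt_of_le ?_ (measure_mono h1)
      rw [Real.volume_Ico, ← ENNReal.ofReal_add (by nlinarith) (by nlinarith)]
      have h4 : (β - α) / 2 ≤ min β (β - (j : ℝ) * τ) - max α (α - (j : ℝ) * τ) := by
        rcases le_total 0 ((j : ℝ) * τ) with h | h
        · rw [min_eq_right (by linarith), max_eq_left (by linarith)]
          linarith
        · rw [min_eq_left (by linarith), max_eq_right (by linarith)]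
          linarith
      rw [ENNReal.ofReal_lt_ofReal_iff (by linarith)]
      nlinarith
  -- (ii) exceptional sets near the exit and near the entry
  set Bout : Set ℝ := {x | x ∈ Xout ∧ ∀ j < M, x + (j : ℝ) * (-τ) ∈ Bad} with hBout
  set Bin : Set ℝ := {x | (x ∈ Ico α β ∧ x - τ ∉ Ico α β) ∧ ∀ j < M, x + (j : ℝ) * τ ∈ Bad}
    with hBin
  have hBoutm : MeasurableSet Bout := by
    apply hXm.inter
    have : {x : ℝ | ∀ j < M, x + (j : ℝ) * (-τ) ∈ Bad} =
        ⋂ j ∈ Finset.range M, (fun x => x + (j : ℝ) * (-τ)) ⁻¹' Bad := by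
      ext x; simp
    change MeasurableSet {x : ℝ | ∀ j < M, x + (j : ℝ) * (-τ) ∈ Bad}
    rw [this]
    exact Finset.measurableSet_biInter _ fun j _ => (measurable_add_const _) hBadm
  have hBinm : MeasurableSet Bin := by
    apply MeasurableSet.inter
    · exact measurableSet_Ico.inter ((measurable_sub_const τ) measurableSet_Ico.compl)
    have : {x : ℝ | ∀ j < M, x + (j : ℝ) * τ ∈ Bad} =
        ⋂ j ∈ Finset.range M, (fun x => x + (j : ℝ) * τ) ⁻¹' Bad := by
      ext x; simp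
    change MeasurableSet {x : ℝ | ∀ j < M, x + (j : ℝ) * τ ∈ Bad}
    rw [this]
    exact Finset.measurableSet_biInter _ fun j _ => (measurable_add_const _) hBadm
  have hsmall : ∀ B : Set ℝ, (M : ℝ≥0∞) * volume B ≤ volume Bad →
      volume B ≤ ENNReal.ofReal (4 * ε * |τ|) := by
    intro B hB
    have h1 : (M : ℝ≥0∞) * volume B ≤ (M : ℝ≥0∞) * ENNReal.ofReal (4 * ε * |τ|) := by
      refine (hB.trans hbad).trans ?_
      rw [← ENNReal.ofReal_natCast, ← ENNReal.ofReal_mul hM0.le]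
      apply ENNReal.ofReal_le_ofReal
      nlinarith
    exact (ENNReal.mul_le_mul_iff_right (by exact_mod_cast hM0'.ne')
      (ENNReal.natCast_ne_top M)).1 h1
  have hBoutv : volume Bout ≤ ENNReal.ofReal (4 * ε * |τ|) := by
    apply hsmall
    apply translates hBoutm (-τ) M (fun x hx => hx.2)
    intro x hx y hy j hj j' hj' hjj heq
    -- `y = x + (j' - j) τ`
    obtain ⟨k, rfl⟩ := Nat.exists_eq_add_of_lt hjj
    have h1 : y = x + ((k + 1 : ℕ) : ℝ) * τ := by
      push_cast at heq ⊢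
      linarith
    have h2 := ap_convex (j := k + 1) hx.1.1 (by rw [← h1]; exact hy.1.1) (i := 1) (by omega)
    apply hx.1.2
    simpa using h2
  have hBinv : volume Bin ≤ ENNReal.ofReal (4 * ε * |τ|) := by
    apply hsmall
    apply translates hBinm τ M (fun x hx => hx.2)
    intro x hx y hy j hj j' hj' hjj heq
    -- `x = y + (j' - j) τ`
    obtain ⟨k, rfl⟩ := Nat.exists_eq_add_of_lt hjj
    have h1 : x = y + ((k + 1 : ℕ) : ℝ) * τ := by
      push_cast at heq ⊢
      linarith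
    have h2 := ap_convex (j := k + 1) hy.1.1 (by rw [← h1]; exact hx.1.1) (i := k) (by omega)
    apply hx.1.2
    rw [h1]
    push_cast
    rwa [show y + ((k : ℝ) + 1) * τ - τ = y + (k : ℝ) * τ by ring]
  -- null set
  set N0 : Set ℝ := Ico (0:ℝ) 1 \ GoodSet E ρ g z F with hN0
  have hN0v : volume N0 = 0 := volume_bad ρ hFe
  set N : Set ℝ := (⋃ j ∈ Finset.range M, (fun x => x + (j : ℝ) * (-τ)) ⁻¹' N0) ∪
    (N0 ∪ (fun x => x + CJ.t s2) ⁻¹' N0) with hN
  have hNv : volume N = 0 := by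
    rw [hN]
    apply measure_union_null
    · refine measure_iUnion_null fun j => measure_iUnion_null fun _ => ?_
      rw [measure_preimage_add_right]
      exact hN0v
    · apply measure_union_null hN0v
      rw [measure_preimage_add_right]
      exact hN0v
  obtain ⟨x, hx, hx1, hx2, hx3⟩ := find_point (S := CJ.A s2 ∩ Xout) (B1 := Bout)
    (B2 := (fun x => x + CJ.t s2) ⁻¹' Bin) (N := N) (by
      rw [measure_preimage_add_right]
      refine lt_of_le_of_lt (add_le_add hBoutv hBinv) (lt_of_lt_of_le ?_ hs2)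
      rw [← ENNReal.ofReal_add (by positivity) (by positivity),
        ENNReal.ofReal_lt_ofReal_iff (by positivity), lt_div_iff₀ hn]
      nlinarith) hNv
  have hxJ : x ∈ Ico α β := hx.2.1
  -- estimate at `x`
  have hFx : ‖F x - c0‖ ≤ 3 * ε := by
    have h1 : ¬ ∀ j < M, x + (j : ℝ) * (-τ) ∈ Bad := fun h => hx1 ⟨hx.2, h⟩
    push Not at h1
    obtain ⟨j, hj, hjb⟩ := h1
    have hjM : ((j : ℝ) + 1) ≤ M := by exact_mod_cast hj
    have hyJ : x + (j : ℝ) * (-τ) ∈ Ico α β := by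
      apply ap_back hxJ
      · rw [sub_neg_eq_add]; exact hx.2.2
      · rw [abs_neg]
        have := mul_le_mul_of_nonneg_right hjM hτpos.le
        linarith
    set y := x + (j : ℝ) * (-τ) with hy
    have hxy : x = y + (j : ℝ) * τ := by rw [hy]; ring
    have hyg : y ∈ GoodSet E ρ g z F := by
      by_contra hcon
      apply hx3
      left
      simp only [mem_iUnion, Finset.mem_range, mem_preimage, exists_prop]
      exact ⟨j, hj, hsub (hsubJ hyJ), hcon⟩
    have hFy : ‖F y - c0‖ < ε := by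
      by_contra hcon
      exact hjb ⟨hsubJ hyJ, not_lt.1 hcon⟩
    have horb := orb (CD := CD) (r := r) g j y (fun i hi => by
      rw [hr]; exact ap_convex hyJ (by rw [← hτ, ← hxy]; exact hxJ) hi.le)
    have h2 := hyg (j * H)
    rw [horb.1, horb.2, ← hτ, ← hxy] at h2
    have h3 := hpow j hj.le
    have h4 : F x - c0 = z ^ (j * H) • ρ (CD.w r g ^ j) (F y - c0) +
        (z ^ (j * H) • ρ (CD.w r g ^ j) c0 - c0) := by
      rw [h2, ← tw_sub]; abel
    rw [h4]
    have h5 := norm_add_le (z ^ (j * H) • ρ (CD.w r g ^ j) (F y - c0))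
      (z ^ (j * H) • ρ (CD.w r g ^ j) c0 - c0)
    rw [norm_tw ρ hu hz] at h5
    linarith
  -- the next visit
  set x' := x + CJ.t s2 with hx'
  have hx'J : x' ∈ Ico α β := by
    rw [← hJ.2, CJ.img]
    exact ⟨s2, by rw [hx', add_sub_cancel_right]; exact hx.1⟩
  have hx'e : x' - τ ∉ Ico α β := by
    intro hcon
    obtain ⟨s3, hs3⟩ := (hJ.2 _).2 hcon
    obtain ⟨-, h1⟩ := letter_eq hD hr hJ hs3 (by rw [← hτ, sub_add_cancel]; exact hx'J)
    have h2 : s3 = s2 := CJ.img_disj (x := x') (by rw [h1]; exact hs3)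
      (by rw [hx', add_sub_cancel_right]; exact hx.1)
    subst h2
    apply hx.2.2
    rw [hτ, ← h1]
    exact hx'J
  have hFx' : ‖F x' - c0‖ ≤ 3 * ε := by
    have h1 : ¬ ∀ j < M, x' + (j : ℝ) * τ ∈ Bad := fun h => hx2 ⟨⟨hx'J, hx'e⟩, h⟩
    push Not at h1
    obtain ⟨j, hj, hjb⟩ := h1
    have hjM : ((j : ℝ) + 1) ≤ M := by exact_mod_cast hj
    have hyJ : x' + (j : ℝ) * τ ∈ Ico α β := by
      apply ap_back hx'J hx'e
      have := mul_le_mul_of_nonneg_right hjM hτpos.le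
      linarith
    have hyg : x' ∈ GoodSet E ρ g z F := by
      by_contra hcon
      apply hx3
      right
      right
      exact ⟨hsub (hsubJ hx'J), hcon⟩
    have hFy : ‖F (x' + (j : ℝ) * τ) - c0‖ < ε := by
      by_contra hcon
      exact hjb ⟨hsubJ hyJ, not_lt.1 hcon⟩
    have horb := orb (CD := CD) (r := r) g j x' (fun i hi => by
      rw [hr]; exact ap_convex hx'J hyJ hi.le)
    have h2 := hyg (j * H)
    rw [horb.1, horb.2, ← hτ] at h2
    have h3 := hpow j hj.le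
    have h4 : z ^ (j * H) • ρ (CD.w r g ^ j) (F x' - c0) = (F (x' + (j : ℝ) * τ) - c0) -
        (z ^ (j * H) • ρ (CD.w r g ^ j) c0 - c0) := by
      rw [h2, ← tw_sub]; abel
    have h5 : ‖F x' - c0‖ = ‖z ^ (j * H) • ρ (CD.w r g ^ j) (F x' - c0)‖ :=
      (norm_tw ρ hu hz _ _ _).symm
    rw [h5, h4]
    have h6 := norm_sub_le (F (x' + (j : ℝ) * τ) - c0)
      (z ^ (j * H) • ρ (CD.w r g ^ j) c0 - c0)
    linarith
  refine ⟨1 * H, CJ.h s2, ?_, ?_⟩
  · have := hpow 1 hM0'
    rw [pow_one] at this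
    rw [hs1w]
    linarith
  · have hxg : x ∈ GoodSet E ρ g z F := by
      by_contra hcon
      apply hx3
      right
      left
      exact ⟨hsub (hsubJ hxJ), hcon⟩
    have h2 := hxg (CJ.h s2)
    rw [CJ.ret s2 x hx.1, CJ.word s2 x hx.1] at h2
    have h4 : z ^ CJ.h s2 • ρ (CJ.w s2 g) c0 - c0 =
        z ^ CJ.h s2 • ρ (CJ.w s2 g) (c0 - F x) + (F x' - c0) := by
      rw [hx', h2, ← tw_sub]; abel
    rw [h4]
    have h5 := norm_add_le (z ^ CJ.h s2 • ρ (CJ.w s2 g) (c0 - F x)) (F x' - c0)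
    rw [norm_tw ρ hu hz, norm_sub_rev c0] at h5
    linarith

end Pool.Agent.Skew
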