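import Mathlib
import Pool.Agent.Helper12.Skew.Core2

/-!
# The tower argument: representations for which pairs with a common eigenvector are negligible
-/

namespace Pool.Agent.Skew

open MeasureTheory Set
open scoped ENNReal

variable {n : ℕ} {E : IET n} {G : Type*} [Group G] [MeasurableSpace G] {ν : Measure G}

theorem exists_heavy (C : Castle E ν) :
    ∃ j, ENNReal.ofReal (1 / n) ≤ (C.h j : ℝ≥0∞) * volume (C.A j) := by
  have hn : (0:ℝ) < n := by exact_mod_cast E.n_pos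
  by_contra hcon
  push Not at hcon
  have h2 : ∑ s, (C.h s : ℝ≥0∞) * volume (C.A s) < ∑ _s : Fin n, ENNReal.ofReal (1 / n) := by
    apply ENNReal.sum_lt_sum_of_nonempty
    · exact ⟨⟨0, E.n_pos⟩, Finset.mem_univ _⟩
    · intro s _
      exact hcon s
  have h3 : ∑ _s : Fin n, ENNReal.ofReal (1 / n) = 1 := by
    rw [Finset.sum_const, Finset.card_univ, Fintype.card_fin, nsmul_eq_mul,
      ← ENNReal.ofReal_natCast, ← ENNReal.ofReal_mul hn.le, mul_one_div_cancel hn.ne',
      ENNReal.ofReal_one]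
  rw [C.mass, h3] at h2
  exact lt_irrefl _ h2

section

variable [TopologicalSpace G] [IsTopologicalGroup G]
    [CompactSpace G] [SecondCountableTopology G] [BorelSpace G] [ν.IsHaarMeasure]
    [IsProbabilityMeasure ν]
    {V : Type*} [NormedAddCommGroup V] [InnerProductSpace ℂ V] [FiniteDimensional ℂ V]
    [MeasurableSpace V] [BorelSpace V]

theorem core (hE : Ergodic E.map leb) (ρ : G →* (V →L[ℂ] V)) (hu : ∀ g v, ‖ρ g v‖ = ‖v‖)
    {ε : ℝ} (hε : 0 < ε) (hε' : ε ≤ 1 / (32 * n)) {δ : ℝ} (hδ : 0 < δ) :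
    ∃ u v : (Fin n → G) → G,
      MeasurePreserving (fun g => (u g, v g)) (Measure.pi fun _ => ν) (ν.prod ν) ∧
      ∀ (g : Fin n → G) (z : ℂ) (F : ℝ → V), Measurable F → ‖z‖ = 1 → (∀ᵐ x ∂leb, ‖F x‖ = 1) →
        (∀ᵐ x ∂leb, F (E.map x) = z • ρ (E.simple g x) (F x)) → OscProp F ε (1 / n) δ →
        Near ρ (6 * ε) (u g) (v g) := by
  have hn : (0:ℝ) < n := by exact_mod_cast E.n_pos
  have hn1 : (1:ℝ) ≤ n := by exact_mod_cast E.n_pos
  have hεn : ε * (32 * n) ≤ 1 := by
    rw [le_div_iff₀ (by positivity)] at hε'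
    exact hε'
  have hε32 : ε ≤ 1 / 32 := by
    rw [le_div_iff₀ (by norm_num)]
    nlinarith
  obtain ⟨C, y1, hy0, hy1, hC⟩ := Castle.exists_small (E := E) (ν := ν) hE hδ
  obtain ⟨j, hj⟩ := exists_heavy C
  obtain ⟨c, d, hcd⟩ := hC.1 j
  have hlt : c < d := by
    by_contra hcon
    rw [hcd, Ico_eq_empty hcon, measure_empty, mul_zero] at hj
    have : 0 < ENNReal.ofReal (1 / n) := by
      rw [ENNReal.ofReal_pos]; positivity
    exact absurd hj (not_le.2 this)
  have hκ : 1 / (n : ℝ) ≤ C.h j * (d - c) := by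
    rw [hcd, Real.volume_Ico, ← ENNReal.ofReal_natCast, ← ENNReal.ofReal_mul (by positivity),
      ENNReal.ofReal_le_ofReal_iff (by
        apply mul_nonneg (by positivity); linarith)] at hj
    exact hj
  have hsub : Ico c d ⊆ Ico 0 y1 := by
    intro x hx
    rw [← hC.2]
    exact ⟨j, by rw [hcd]; exact hx⟩
  have hlen : d - c < δ := by
    have h1 : 0 ≤ c := (hsub ⟨le_rfl, hlt⟩).1
    have h2 : d ≤ y1 := by
      by_contra hcon
      rw [not_le] at hcon
      have : max c y1 ∈ Ico c d := ⟨le_max_left _ _, max_lt hlt hcon⟩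
      exact absurd (hsub this).2 (not_lt.2 (le_max_right _ _))
    linarith
  obtain ⟨CD, hD⟩ := C.exists_over_letter hE hC hcd hlt
  have hDsub : ∀ s, CD.A s ⊆ Ico c d := by
    intro s x hx
    rw [← hD.2]
    exact ⟨s, hx⟩
  have hsub1 : Ico c d ⊆ Ico 0 1 := hcd ▸ C.sub j
  by_cases hcase : ∃ s s', s ≠ s' ∧ ENNReal.ofReal ((d - c) / (8 * n)) ≤ volume (CD.A s) ∧
      ENNReal.ofReal ((d - c) / (8 * n)) ≤ volume (CD.A s')
  · -- two frequent letters
    obtain ⟨s, s', hne, h1, h2⟩ := hcase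
    refine ⟨CD.w s, CD.w s', (mp_pair ν hne).comp CD.haar, ?_⟩
    intro g z F hFm hz hF1 hFe hosc
    obtain ⟨c0, hc1, hc2, hbad⟩ := exists_center ρ hu C hcd hlt hlen hκ hz hF1 hFe hosc hε
      (by linarith)
    have key : ∀ s, ENNReal.ofReal ((d - c) / (8 * n)) ≤ volume (CD.A s) →
        ‖z ^ CD.h s • ρ (CD.w s g) c0 - c0‖ ≤ 2 * ε := by
      intro s hs
      apply return_near ρ hu hz hFe hsub1 hbad (S := CD.A s) (t := CD.t s)
      · intro x hx
        refine ⟨hDsub s hx, ?_, CD.ret s x hx, CD.word s x hx g⟩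
        rw [← hD.2, CD.img]
        exact ⟨s, by rwa [add_sub_cancel_right]⟩
      · refine lt_of_lt_of_le ?_ hs
        rw [← ENNReal.ofReal_add (by nlinarith) (by nlinarith),
          ENNReal.ofReal_lt_ofReal_iff (by
            apply div_pos (by linarith) (by positivity)), lt_div_iff₀ (by positivity)]
        nlinarith
    refine ⟨c0, hc1, hc2, z ^ CD.h s, z ^ CD.h s', by rw [norm_pow, hz, one_pow],
      by rw [norm_pow, hz, one_pow], ?_, ?_⟩
    · exact (key s h1).trans (by linarith)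
    · exact (key s' h2).trans (by linarith)
  · -- one dominating letter
    push Not at hcase
    obtain ⟨r, hr⟩ := exists_large hD (X := Ico c d) measurableSet_Ico subset_rfl
      (r := d - c) (by linarith) (by rw [Real.volume_Ico])
    rw [inter_eq_self_of_subset_left (hDsub r)] at hr
    obtain ⟨α, β, hαβ⟩ := hD.1 r
    have hlt' : α < β := by
      by_contra hcon
      rw [hαβ, Ico_eq_empty hcon, measure_empty] at hr
      have : 0 < ENNReal.ofReal ((d - c) / n) := by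
        rw [ENNReal.ofReal_pos]; exact div_pos (by linarith) hn
      exact absurd hr (not_le.2 this)
    have hlong : 7 / 8 * (d - c) ≤ β - α := by
      have hr' : ENNReal.ofReal ((d - c) / (8 * n)) ≤ volume (CD.A r) := by
        refine le_trans ?_ hr
        apply ENNReal.ofReal_le_ofReal
        apply div_le_div_of_nonneg_left (by linarith) hn
        linarith
      have hother : ∀ s, s ≠ r → volume (CD.A s) ≤ ENNReal.ofReal ((d - c) / (8 * n)) :=
        fun s hs => (hcase r s hs.symm hr').le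
      have hsum := hD.sum_volume (X := Ico c d) measurableSet_Ico subset_rfl
      have hinter : ∀ s, CD.A s ∩ Ico c d = CD.A s := fun s =>
        inter_eq_self_of_subset_left (hDsub s)
      simp_rw [hinter] at hsum
      rw [← Finset.add_sum_erase _ _ (Finset.mem_univ r), Real.volume_Ico, hαβ,
        Real.volume_Ico] at hsum
      have h4 : ∑ s ∈ Finset.univ.erase r, volume (CD.A s) ≤ ENNReal.ofReal ((d - c) / 8) := by
        calc ∑ s ∈ Finset.univ.erase r, volume (CD.A s)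
            ≤ ∑ _s ∈ Finset.univ.erase r, ENNReal.ofReal ((d - c) / (8 * n)) := by
              apply Finset.sum_le_sum
              intro s hs
              exact hother s (Finset.ne_of_mem_erase hs)
          _ ≤ ∑ _s : Fin n, ENNReal.ofReal ((d - c) / (8 * n)) := by
              apply Finset.sum_le_sum_of_subset (Finset.erase_subset _ _)
          _ = ENNReal.ofReal ((d - c) / 8) := by
              rw [Finset.sum_const, Finset.card_univ, Fintype.card_fin, nsmul_eq_mul,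
                ← ENNReal.ofReal_natCast, ← ENNReal.ofReal_mul hn.le]
              congr 1
              field_simp
      have h5 : ENNReal.ofReal (d - c) ≤ ENNReal.ofReal (β - α + (d - c) / 8) := by
        rw [← hsum, ENNReal.ofReal_add (by linarith) (by linarith)]
        gcongr
      rw [ENNReal.ofReal_le_ofReal_iff (by linarith)] at h5
      linarith
    obtain ⟨CJ, hJ⟩ := CD.exists_over_letter hE hD hαβ hlt'
    obtain ⟨s1, s2, hne, hmain⟩ := case_two hE ρ hu hlt hD hαβ hlt' hJ hlong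
    refine ⟨CJ.w s1, CJ.w s2, (mp_pair ν hne).comp CJ.haar, ?_⟩
    intro g z F hFm hz hF1 hFe hosc
    obtain ⟨c0, hc1, hc2, hbad⟩ := exists_center ρ hu C hcd hlt hlen hκ hz hF1 hFe hosc hε
      (by linarith)
    obtain ⟨l1, l2, h1, h2⟩ := hmain ε hε hε' g z F c0 (hFm.sub_const c0).norm hz hFe hbad
    exact ⟨c0, hc1, hc2, z ^ l1, z ^ l2, by rw [norm_pow, hz, one_pow],
      by rw [norm_pow, hz, one_pow], h1, h2⟩

end

/-- Module TOWER. -/
theorem tower_case {n : ℕ} (E : IET n) (hE : Ergodic E.map leb)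
    {G : Type*} [Group G] [TopologicalSpace G] [IsTopologicalGroup G]
    [CompactSpace G] [T2Space G] [SecondCountableTopology G]
    [MeasurableSpace G] [BorelSpace G]
    (ν : Measure G) [ν.IsHaarMeasure] [IsProbabilityMeasure ν]
    {V : Type*} [NormedAddCommGroup V] [InnerProductSpace ℂ V] [FiniteDimensional ℂ V]
    [MeasurableSpace V] [BorelSpace V]
    (ρ : G →* (V →L[ℂ] V)) (hρ : Continuous ρ) (hu : ∀ g v, ‖ρ g v‖ = ‖v‖)
    (hnull : (ν.prod ν) {p : G × G | ∃ v : V, v ≠ 0 ∧ (∃ α : ℂ, ρ p.1 v = α • v) ∧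
      (∃ β : ℂ, ρ p.2 v = β • v)} = 0) :
    ∀ᵐ g ∂(Measure.pi fun _ : Fin n => ν), ¬ ∃ (z : ℂ) (F : ℝ → V), ‖z‖ = 1 ∧ Measurable F ∧
      (∀ᵐ x ∂leb, ‖F x‖ = 1) ∧ ∀ᵐ x ∂leb, F (E.map x) = z • ρ (E.simple g x) (F x) := by
  have hn : (0:ℝ) < n := by exact_mod_cast E.n_pos
  rw [ae_iff]
  simp only [not_not]
  by_contra hpos
  obtain ⟨ε₁, hε₁, hlt⟩ := exists_near_measure_lt (ν.prod ν) ρ hρ hnull
    (pos_iff_ne_zero.2 hpos)
  set ε : ℝ := min (ε₁ / 6) (1 / (32 * n)) with hεdef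
  have hε : 0 < ε := lt_min (by positivity) (by positivity)
  have hε' : ε ≤ 1 / (32 * n) := min_le_right _ _
  have hε6 : 6 * ε ≤ ε₁ := by
    have := min_le_left (ε₁ / 6) (1 / (32 * (n:ℝ)))
    linarith
  set B : ℕ → Set (Fin n → G) := fun m => {g | ∃ (z : ℂ) (F : ℝ → V), (‖z‖ = 1 ∧ Measurable F ∧
      (∀ᵐ x ∂leb, ‖F x‖ = 1) ∧ ∀ᵐ x ∂leb, F (E.map x) = z • ρ (E.simple g x) (F x)) ∧
      OscProp F ε (1 / n) (1 / ((m : ℝ) + 1))} with hB
  have hmono : Monotone B := by
    intro m m' hmm g hg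
    obtain ⟨z, F, h1, h2⟩ := hg
    refine ⟨z, F, h1, h2.mono ?_⟩
    apply one_div_le_one_div_of_le (by positivity)
    have : (m : ℝ) ≤ m' := by exact_mod_cast hmm
    linarith
  have hcover : {g : Fin n → G | ∃ (z : ℂ) (F : ℝ → V), ‖z‖ = 1 ∧ Measurable F ∧
      (∀ᵐ x ∂leb, ‖F x‖ = 1) ∧ ∀ᵐ x ∂leb, F (E.map x) = z • ρ (E.simple g x) (F x)} ⊆
      ⋃ m, B m := by
    rintro g ⟨z, F, hz, hF, hF1, hFe⟩
    obtain ⟨δ, hδ, hosc⟩ := exists_osc hF hF1 hε (κ := 1 / n) (by positivity)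
    obtain ⟨m, hm⟩ := exists_nat_one_div_lt hδ
    rw [mem_iUnion]
    exact ⟨m, z, F, ⟨hz, hF, hF1, hFe⟩, hosc.mono hm.le⟩
  have hBm : ∀ m, (Measure.pi fun _ : Fin n => ν) (B m) ≤
      (ν.prod ν) {p : G × G | Near ρ ε₁ p.1 p.2} := by
    intro m
    obtain ⟨u, v, huv, hcore⟩ := core (ν := ν) hE ρ hu hε hε'
      (δ := 1 / ((m : ℝ) + 1)) (by positivity)
    have hsub : B m ⊆ (fun g => (u g, v g)) ⁻¹' {p : G × G | Near ρ ε₁ p.1 p.2} := by
      rintro g ⟨z, F, ⟨hz, hF, hF1, hFe⟩, hosc⟩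
      exact near_mono hε6 (hcore g z F hF hz hF1 hFe hosc)
    refine (measure_mono hsub).trans ?_
    rw [huv.measure_preimage (isClosed_near ρ hρ _).measurableSet.nullMeasurableSet]
  have hle : (Measure.pi fun _ : Fin n => ν) {g : Fin n → G | ∃ (z : ℂ) (F : ℝ → V),
      ‖z‖ = 1 ∧ Measurable F ∧ (∀ᵐ x ∂leb, ‖F x‖ = 1) ∧
      ∀ᵐ x ∂leb, F (E.map x) = z • ρ (E.simple g x) (F x)} ≤
      (ν.prod ν) {p : G × G | Near ρ ε₁ p.1 p.2} := by
    refine (measure_mono hcover).trans ?_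
    rw [hmono.measure_iUnion]
    exact iSup_le hBm
  exact absurd hlt (not_lt.2 hle)

end Pool.Agent.Skew
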