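import Mathlib
import Pool.Agent.Helper12.Skew.Tower
import Pool.Agent.Helper81.SkewGlue
import Pool.Agent.Helper81.SkewLie1
import Pool.Agent.Helper61.SkewNull
import Pool.Agent.Helper75.SkewEig

/-!
# Assembly
-/

namespace Pool.Agent.Skew

open MeasureTheory Set

theorem ergodic_of_prod {X : Type*} [MeasurableSpace X] {μ : Measure X} [IsProbabilityMeasure μ]
    {T : X → X} (hT : MeasurePreserving T μ μ) (h : Ergodic (Prod.map T T) (μ.prod μ)) :
    Ergodic T μ := by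
  refine ⟨hT, ⟨fun s hs hs' => ?_⟩⟩
  have hm : MeasurableSet (Prod.fst ⁻¹' s : Set (X × X)) := measurable_fst hs
  have hinv : Prod.map T T ⁻¹' (Prod.fst ⁻¹' s : Set (X × X)) = Prod.fst ⁻¹' s := by
    ext ⟨x, y⟩
    constructor
    · intro hx
      have : x ∈ T ⁻¹' s := hx
      rw [hs'] at this
      exact this
    · intro hx
      have : x ∈ T ⁻¹' s := by rw [hs']; exact hx
      exact this
  have h1 := h.aeconst_set hm hinv
  rw [Filter.eventuallyConst_set'] at h1 ⊢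
  have hmeas : ∀ t : Set X, MeasurableSet t → (μ.prod μ) (Prod.fst ⁻¹' t) = μ t := by
    intro t ht
    have : (Prod.fst ⁻¹' t : Set (X × X)) = t ×ˢ univ := by ext; simp
    rw [this, Measure.prod_prod, measure_univ, mul_one]
  rcases h1 with h1 | h1
  · left
    rw [ae_eq_empty] at h1 ⊢
    rwa [hmeas s hs] at h1
  · right
    rw [ae_eq_univ] at h1 ⊢
    rw [← preimage_compl, hmeas _ hs.compl] at h1
    exact h1

section

variable {G : Type*} [Group G] [TopologicalSpace G] [IsTopologicalGroup G]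
    [CompactSpace G] [ConnectedSpace G] [T2Space G] [SecondCountableTopology G]
    [MeasurableSpace G] [BorelSpace G]

/-- The one-dimensional case, given the statement of the torus case. -/
theorem char_case {n : ℕ} (E : IET n)
    (ν : Measure G) [ν.IsHaarMeasure] [IsProbabilityMeasure ν]
    (torus : ∀ χ : G →* ℂ, Continuous χ → (∀ g, ‖χ g‖ = 1) → (∃ g, χ g ≠ 1) →
      ∀ k : ℝ → Fin n, Measurable k → (∀ x ∈ Set.Ico (0:ℝ) 1, x ∈ E.interval (k x)) →
      ∀ᵐ g ∂(Measure.pi fun _ : Fin n => ν), ¬ ∃ (z : ℂ) (F : ℝ → ℂ), ‖z‖ = 1 ∧ Measurable F ∧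
      (∀ᵐ x ∂leb, ‖F x‖ = 1) ∧ ∀ᵐ x ∂leb, F (E.map x) = z * χ (g (k x)) * F x)
    (m : ℕ) (hm : m = 1)
    (ρ : G →* (EuclideanSpace ℂ (Fin m) →L[ℂ] EuclideanSpace ℂ (Fin m))) (hρ : Continuous ρ)
    (hu : ∀ g v, ‖ρ g v‖ = ‖v‖) (hne : ∃ g, ρ g ≠ 1) :
    ∀ᵐ g ∂(Measure.pi fun _ : Fin n => ν),
      ¬ ∃ (z : ℂ) (F : ℝ → EuclideanSpace ℂ (Fin m)), ‖z‖ = 1 ∧ Measurable F ∧
      (∀ᵐ x ∂leb, ‖F x‖ = 1) ∧ ∀ᵐ x ∂leb, F (E.map x) = z • ρ (E.simple g x) (F x) := by
  subst hm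
  set e : EuclideanSpace ℂ (Fin 1) := EuclideanSpace.single 0 1 with he
  have hv : ∀ v : EuclideanSpace ℂ (Fin 1), v = v 0 • e := by
    intro v
    ext i
    rw [Subsingleton.elim i 0]
    simp [he]
  have hnorm : ∀ v : EuclideanSpace ℂ (Fin 1), ‖v‖ = ‖v 0‖ := by
    intro v
    rw [EuclideanSpace.norm_eq]
    simp
  have he0 : e 0 = 1 := by simp [he]
  have hmul : ∀ g v, (ρ g v) 0 = (ρ g e) 0 * v 0 := by
    intro g v
    conv_lhs => rw [hv v]
    rw [map_smul]
    simp [mul_comm]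
  let χ : G →* ℂ :=
    { toFun := fun g => (ρ g e) 0
      map_one' := by simp [he0]
      map_mul' := by
        intro g h
        have : ρ (g * h) e = ρ g (ρ h e) := by rw [map_mul]; rfl
        rw [this, hmul] }
  have hχ : Continuous χ := by
    have h1 : Continuous fun g => ρ g e := hρ.clm_apply continuous_const
    exact (EuclideanSpace.proj (𝕜 := ℂ) (0 : Fin 1)).continuous.comp h1
  have hχn : ∀ g, ‖χ g‖ = 1 := by
    intro g
    change ‖(ρ g e) 0‖ = 1
    rw [← hnorm, hu, hnorm, he0, norm_one]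
  have hχ1 : ∃ g, χ g ≠ 1 := by
    obtain ⟨g, hg⟩ := hne
    refine ⟨g, fun h => hg ?_⟩
    ext v i
    rw [Subsingleton.elim i 0, hmul]
    change χ g * v 0 = v 0
    rw [h, one_mul]
  obtain ⟨k, hk, hk1⟩ := E.exists_symbol
  filter_upwards [torus χ hχ hχn hχ1 k hk hk1] with g hg
  rintro ⟨z, F, hz, hF, hF1, hFe⟩
  apply hg
  refine ⟨z, fun x => F x 0, hz, ?_, ?_, ?_⟩
  · exact (EuclideanSpace.proj (𝕜 := ℂ) (0 : Fin 1)).continuous.measurable.comp hF
  · filter_upwards [hF1] with x hx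
    rw [← hnorm, hx]
  · have hmem : ∀ᵐ x ∂leb, x ∈ Ico (0:ℝ) 1 := by
      rw [leb]
      exact ae_restrict_mem measurableSet_Ico
    filter_upwards [hFe, hmem] with x hx hx2
    have h1 := congrArg (fun v : EuclideanSpace ℂ (Fin 1) => v 0) hx
    simp only [PiLp.smul_apply, smul_eq_mul] at h1
    rw [h1, hmul, E.simple_eq g (hk1 x hx2), mul_assoc]
    rfl

theorem assembly
    (ν : Measure G) [ν.IsHaarMeasure] [IsProbabilityMeasure ν]
    {n : ℕ} (E : IET n) (hE : WeaklyMixing E.map leb)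
    (torus : ∀ χ : G →* ℂ, Continuous χ → (∀ g, ‖χ g‖ = 1) → (∃ g, χ g ≠ 1) →
      ∀ k : ℝ → Fin n, Measurable k → (∀ x ∈ Set.Ico (0:ℝ) 1, x ∈ E.interval (k x)) →
      ∀ᵐ g ∂(Measure.pi fun _ : Fin n => ν), ¬ ∃ (z : ℂ) (F : ℝ → ℂ), ‖z‖ = 1 ∧ Measurable F ∧
      (∀ᵐ x ∂leb, ‖F x‖ = 1) ∧ ∀ᵐ x ∂leb, F (E.map x) = z * χ (g (k x)) * F x) :
    ∀ᵐ g ∂(Measure.pi fun _ : Fin n => ν), WeaklyMixing (E.skew g) (leb.prod ν) := by
  have hT := E.measurePreserving_map
  have herg : Ergodic E.map leb := ergodic_of_prod hT hE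
  obtain ⟨d, ρ, hc, hu, hdich, hmain⟩ := spectral_reduction_of_eig leb E.map hT hE ν
    (fun S hS h => exists_eigenfunction (leb.prod ν) S hS h)
  have key : ∀ j, ∀ᵐ g ∂(Measure.pi fun _ : Fin n => ν),
      ¬ ∃ (z : ℂ) (F : ℝ → EuclideanSpace ℂ (Fin (d j))), ‖z‖ = 1 ∧ Measurable F ∧
      (∀ᵐ x ∂leb, ‖F x‖ = 1) ∧ ∀ᵐ x ∂leb, F (E.map x) = z • ρ j (E.simple g x) (F x) := by
    intro j
    rcases hdich j with h | ⟨hd, hn⟩
    · obtain ⟨a, b, hab⟩ := exists_pair (ρ j) (hc j) (hu j) h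
      exact tower_case E herg ν (ρ j) (hc j) (hu j) (null_common ν (ρ j) (hc j) (hu j) a b hab)
    · exact char_case E ν torus (d j) hd (ρ j) (hc j) (hu j) hn
  filter_upwards [ae_all_iff.2 key] with g hg
  by_contra hcon
  obtain ⟨j, z, F, hz, hF, hF1, hF2⟩ := hmain (E.simple g) (E.measurable_simple g) hcon
  exact hg j ⟨z, F, hz, hF, hF1, hF2⟩

/-- In a weakly mixing interval exchange, some exchanged interval is proper. -/
theorem len_lt_one {n : ℕ} (E : IET n) (hE : Ergodic E.map leb) (i : Fin n) : E.len i < 1 := by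
  by_contra hcon
  rw [not_lt] at hcon
  -- then `n = 1` and the map is the identity
  have hsum := E.len_sum
  have hall : ∀ j, j = i := by
    intro j
    by_contra hj
    have h1 : E.len i + E.len j ≤ ∑ l, E.len l := by
      have : ({i, j} : Finset (Fin n)) ⊆ Finset.univ := Finset.subset_univ _
      calc E.len i + E.len j = ∑ l ∈ ({i, j} : Finset (Fin n)), E.len l := by
            rw [Finset.sum_pair (Ne.symm hj)]
        _ ≤ ∑ l, E.len l := Finset.sum_le_sum_of_subset_of_nonneg this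
            fun l _ _ => (E.len_pos l).le
    have := E.len_pos j
    linarith
  have hid : E.map^[1] 0 = 0 := by
    have h0 : (0:ℝ) ∈ Ico (0:ℝ) 1 := ⟨le_rfl, one_pos⟩
    obtain ⟨j, hj⟩ := E.exists_interval h0
    have h1 := E.map_mem_ivl hj
    have hl : E.left j = 0 := by
      have := E.lft_nonneg 1 j
      rw [E.lft_one] at this
      exact le_antisymm hj.1 this
    have hnl : E.newLeft j = 0 := by
      rw [IET.newLeft, Finset.sum_eq_zero]
      intro l hl
      rw [Finset.mem_filter] at hl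
      rw [hall l, hall j] at hl
      exact absurd hl.2 (lt_irrefl _)
    rw [Function.iterate_one, E.map_eq hj, hl, hnl]
    simp
  exact E.aperiodic hE ⟨le_rfl, one_pos⟩ one_pos hid

end

end Pool.Agent.Skew
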